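import Mathlib

/-!
# The range of the coboundary on a two-dimensional torus
-/

namespace Pool.Agent.Run7.h630.R2

set_option linter.unusedSectionVars false

section dc

variable {a b N : ℕ} [NeZero a] [NeZero b] [NeZero N]

/-- the coboundary -/
def dc2 (a b N : ℕ) : (ZMod a × ZMod b → Fin 2 → ZMod N) →+ (ZMod a × ZMod b → ZMod N) where
  toFun c := fun u => c u 0 + c (u + (1, 0)) 1 - c (u + (0, 1)) 0 - c u 1
  map_zero' := by funext u; simp
  map_add' := by
    intro c c'
    funext u
    simp only [Pi.add_apply]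
    ring

lemma dc2_apply (c : ZMod a × ZMod b → Fin 2 → ZMod N) (u : ZMod a × ZMod b) :
    dc2 a b N c u = c u 0 + c (u + (1, 0)) 1 - c (u + (0, 1)) 0 - c u 1 := rfl

lemma dc_e1 (u : ZMod a × ZMod b) (x : ZMod N) :
    (Pi.single (u + (1, 0)) x - Pi.single u x : ZMod a × ZMod b → ZMod N) ∈
      (dc2 a b N).range := by
  refine ⟨fun v i => if i = 1 then (Pi.single (u + (1, 0)) (-x) : ZMod a × ZMod b → ZMod N) v
    else 0, ?_⟩
  funext v
  rw [dc2_apply]
  simp only [zero_ne_one, if_false, if_true, zero_add, sub_zero, Pi.sub_apply]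
  by_cases h1 : v + (1, 0) = u + (1, 0)
  · have h2 : v = u := add_right_cancel h1
    subst h2
    simp only [Pi.single_eq_same]
    by_cases h3 : v = v + (1, 0)
    · rw [← h3]; simp
    · rw [Pi.single_eq_of_ne h3, Pi.single_eq_of_ne h3]; ring
  · have h2 : v ≠ u := fun h => h1 (by rw [h])
    rw [Pi.single_eq_of_ne h1, Pi.single_eq_of_ne h2]
    by_cases h3 : v = u + (1, 0)
    · subst h3; simp
    · rw [Pi.single_eq_of_ne h3, Pi.single_eq_of_ne h3, sub_zero]

lemma dc_e2 (u : ZMod a × ZMod b) (x : ZMod N) :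
    (Pi.single (u + (0, 1)) x - Pi.single u x : ZMod a × ZMod b → ZMod N) ∈
      (dc2 a b N).range := by
  refine ⟨fun v i => if i = 0 then (Pi.single (u + (0, 1)) x : ZMod a × ZMod b → ZMod N) v
    else 0, ?_⟩
  funext v
  rw [dc2_apply]
  simp only [one_ne_zero, if_false, if_true, add_zero, sub_zero, Pi.sub_apply]
  by_cases h1 : v + (0, 1) = u + (0, 1)
  · have h2 : v = u := add_right_cancel h1
    subst h2
    simp only [Pi.single_eq_same]
  · have h2 : v ≠ u := fun h => h1 (by rw [h])
    rw [Pi.single_eq_of_ne h1, Pi.single_eq_of_ne h2]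

lemma dc_base (u : ZMod a × ZMod b) (x : ZMod N) :
    (Pi.single u x - Pi.single 0 x : ZMod a × ZMod b → ZMod N) ∈ (dc2 a b N).range := by
  have h1 : ∀ m n : ℕ, (Pi.single ((m : ZMod a), (n : ZMod b)) x - Pi.single 0 x :
      ZMod a × ZMod b → ZMod N) ∈ (dc2 a b N).range := by
    intro m n
    induction m with
    | zero =>
      induction n with
      | zero =>
        have : ((((0 : ℕ) : ZMod a), ((0 : ℕ) : ZMod b)) : ZMod a × ZMod b) = 0 := by
          simp
        rw [this, sub_self]
        exact zero_mem _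
      | succ n ih =>
        have e : ((((0 : ℕ) : ZMod a), ((n + 1 : ℕ) : ZMod b)) : ZMod a × ZMod b) =
            (((0 : ℕ) : ZMod a), (n : ZMod b)) + (0, 1) := by simp
        have h2 := add_mem (dc_e2 (N := N) (((0 : ℕ) : ZMod a), (n : ZMod b)) x) ih
        rw [← e, sub_add_sub_cancel] at h2
        exact h2
    | succ m ih =>
      have e : ((((m + 1 : ℕ) : ZMod a), (n : ZMod b)) : ZMod a × ZMod b) =
          ((m : ZMod a), (n : ZMod b)) + (1, 0) := by simp
      have h2 := add_mem (dc_e1 (N := N) ((m : ZMod a), (n : ZMod b)) x) ih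
      rw [← e, sub_add_sub_cancel] at h2
      exact h2
  have h2 := h1 u.1.val u.2.val
  rw [ZMod.natCast_zmod_val, ZMod.natCast_zmod_val] at h2
  exact h2

/-- the functions with the sum zero are coboundaries -/
lemma dc_range (s : ZMod a × ZMod b → ZMod N) (hs : ∑ u, s u = 0) :
    ∃ c : ZMod a × ZMod b → Fin 2 → ZMod N,
      ∀ u, c u 0 + c (u + (1, 0)) 1 - c (u + (0, 1)) 0 - c u 1 = s u := by
  have h1 : s ∈ (dc2 a b N).range := by
    have h2 : s = ∑ u, (Pi.single u (s u) - Pi.single 0 (s u)) := by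
      have h3 : ∑ u : ZMod a × ZMod b, (Pi.single 0 (s u) : ZMod a × ZMod b → ZMod N) = 0 := by
        funext v
        rw [Finset.sum_apply, Pi.zero_apply]
        by_cases hv : v = 0
        · subst hv
          simpa using hs
        · simp [Pi.single_eq_of_ne hv]
      rw [Finset.sum_sub_distrib, h3, sub_zero]
      exact (Finset.univ_sum_single s).symm
    rw [h2]
    exact sum_mem fun u _ => dc_base u (s u)
  obtain ⟨c, hc⟩ := h1
  exact ⟨c, fun u => congrFun hc u⟩

/-- the coboundaries have the sum zero -/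
lemma dc_sum (c : ZMod a × ZMod b → Fin 2 → ZMod N) :
    ∑ u : ZMod a × ZMod b, (c u 0 + c (u + (1, 0)) 1 - c (u + (0, 1)) 0 - c u 1) = 0 := by
  rw [Finset.sum_sub_distrib, Finset.sum_sub_distrib, Finset.sum_add_distrib,
    Equiv.sum_comp (Equiv.addRight ((1, 0) : ZMod a × ZMod b)) (fun u => c u 1) |>.symm,
    (Equiv.sum_comp (Equiv.addRight ((0, 1) : ZMod a × ZMod b)) (fun u => c u 0)).symm]
  simp only [Equiv.coe_addRight]
  ring

end dc

end Pool.Agent.Run7.h630.R2
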