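import Mathlib

/-!
# Determinants of cyclic matrices
-/

open Matrix

namespace Pool.Agent.Run7.h630.R2

noncomputable section

/-- the cyclic shift -/
def sg (a : ℕ) [NeZero a] : Matrix (ZMod a) (ZMod a) ℝ := Matrix.of fun i j => if j = i + 1 then 1 else 0

/-- determinant of `1 - r σ` -/
lemma det_sg_fin (n : ℕ) (r : ℝ) : det (Matrix.of fun i j : Fin (n + 1) =>
    (if i = j then (1 : ℝ) else 0) - r * (if j = i + 1 then 1 else 0)) = 1 - r ^ (n + 1) := by
  rcases Nat.eq_zero_or_pos n with h0 | h0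
  · subst h0
    simp
  obtain ⟨m, rfl⟩ : ∃ m, n = m + 1 := ⟨n - 1, by omega⟩
  rw [Matrix.det_succ_column_zero]
  rw [Fin.sum_univ_succ, Fin.sum_univ_castSucc]
  have h1 : ∀ i : Fin m, (-1 : ℝ) ^ ((i.castSucc.succ : Fin (m + 1 + 1)) : ℕ) *
      (Matrix.of fun i j : Fin (m + 1 + 1) =>
        (if i = j then (1 : ℝ) else 0) - r * (if j = i + 1 then 1 else 0)) i.castSucc.succ 0 *
      det ((Matrix.of fun i j : Fin (m + 1 + 1) =>
        (if i = j then (1 : ℝ) else 0) - r * (if j = i + 1 then 1 else 0)).submatrix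
          (i.castSucc.succ).succAbove Fin.succ) = 0 := by
    intro i
    have e1 : ¬(i.castSucc.succ = (0 : Fin (m + 1 + 1))) := Fin.succ_ne_zero _
    have e2 : ¬((0 : Fin (m + 1 + 1)) = i.castSucc.succ + 1) := by
      intro h
      have h2 := congrArg Fin.val h
      rw [Fin.val_add_one_of_lt] at h2
      · simp at h2
      · rw [Fin.lt_def]
        simp
    simp [e1, e2]
  rw [Finset.sum_eq_zero fun i _ => h1 i]
  have h2 : det ((Matrix.of fun i j : Fin (m + 1 + 1) =>
      (if i = j then (1 : ℝ) else 0) - r * (if j = i + 1 then 1 else 0)).submatrix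
        (Fin.succAbove 0) Fin.succ) = 1 := by
    rw [Matrix.det_of_isUpperTriangular]
    · refine Finset.prod_eq_one fun i _ => ?_
      have e1 : ¬((i.succ : Fin (m + 1 + 1)) = i.succ + 1) := by
        intro h
        have := congrArg (fun z => z - i.succ) h
        simp at this
      simp [e1]
    · intro i j hij
      simp only [id] at hij
      have e1 : ¬((i.succ : Fin (m + 1 + 1)) = j.succ) := by
        intro h; exact hij.ne' (Fin.succ_injective _ h)
      have e2 : ¬((j.succ : Fin (m + 1 + 1)) = i.succ + 1) := by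
        intro h
        rcases eq_or_ne i (Fin.last m) with h3 | h3
        · subst h3
          rw [Fin.succ_last, Fin.last_add_one] at h
          exact Fin.succ_ne_zero _ h
        · have h4 : i.succ < Fin.last (m + 1) := by
            rw [Fin.lt_def]
            have : (i : ℕ) ≠ m := fun h5 => h3 (Fin.ext h5)
            have := i.2
            simp only [Fin.val_succ, Fin.val_last]
            omega
          have h5 := congrArg Fin.val h
          rw [Fin.val_add_one_of_lt h4] at h5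
          have h6 : (j : ℕ) < i := hij
          simp only [Fin.val_succ] at h5
          omega
      simp [e1, e2]
  have h3 : det ((Matrix.of fun i j : Fin (m + 1 + 1) =>
      (if i = j then (1 : ℝ) else 0) - r * (if j = i + 1 then 1 else 0)).submatrix
        (Fin.succAbove (Fin.last m).succ) Fin.succ) = (-r) ^ (m + 1) := by
    rw [Matrix.det_of_isLowerTriangular]
    · have e0 : ∀ i : Fin (m + 1), ((Matrix.of fun i j : Fin (m + 1 + 1) =>
          (if i = j then (1 : ℝ) else 0) - r * (if j = i + 1 then 1 else 0)).submatrix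
          (Fin.succAbove (Fin.last m).succ) Fin.succ) i i = -r := by
        intro i
        have e1 : (Fin.last m).succ.succAbove i = i.castSucc := by
          rw [Fin.succ_last, Fin.succAbove_last]
        have e2 : (i.castSucc : Fin (m + 1 + 1)) + 1 = i.succ := Fin.coeSucc_eq_succ
        have e3 : ¬(i.castSucc = (i.succ : Fin (m + 1 + 1))) := (Fin.castSucc_lt_succ).ne
        simp [e2, e3]
      rw [Finset.prod_congr rfl fun i _ => e0 i, Finset.prod_const, Finset.card_univ,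
        Fintype.card_fin]
    · intro i j hij
      have hij' : i < j := hij
      have e1 : (Fin.last m).succ.succAbove i = i.castSucc := by
        rw [Fin.succ_last, Fin.succAbove_last]
      have e2 : (i.castSucc : Fin (m + 1 + 1)) + 1 = i.succ := Fin.coeSucc_eq_succ
      have e3 : ¬(i.castSucc = (j.succ : Fin (m + 1 + 1))) := by
        intro h
        have := congrArg Fin.val h
        have h6 : (i : ℕ) < j := hij'
        simp only [Fin.val_castSucc, Fin.val_succ] at this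
        omega
      have e4 : ¬((j.succ : Fin (m + 1 + 1)) = i.succ) := fun h =>
        hij'.ne' (Fin.succ_injective _ h)
      simp [e2, e3, e4]
  rw [h2, h3]
  have h4 : ((Matrix.of fun i j : Fin (m + 1 + 1) =>
      (if i = j then (1 : ℝ) else 0) - r * (if j = i + 1 then 1 else 0)) 0 0) = 1 := by
    have : ¬((0 : Fin (m + 1 + 1)) = 0 + 1) := by
      intro h
      rw [zero_add] at h
      exact absurd h (by simp)
    simp [this]
  have h5 : ((Matrix.of fun i j : Fin (m + 1 + 1) =>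
      (if i = j then (1 : ℝ) else 0) - r * (if j = i + 1 then 1 else 0)) (Fin.last m).succ 0) =
      -r := by
    have e1 : ¬((Fin.last m).succ = (0 : Fin (m + 1 + 1))) := Fin.succ_ne_zero _
    have e2 : (Fin.last m).succ + 1 = (0 : Fin (m + 1 + 1)) := by
      rw [Fin.succ_last, Fin.last_add_one]
    simp [e1, e2]
  rw [h4, h5]
  simp only [Fin.val_zero, pow_zero, one_mul, mul_one, zero_add, Fin.val_succ, Fin.val_last]
  have h6 : (-1 : ℝ) ^ (m + 1) * -r * (-r) ^ (m + 1) = -(r ^ (m + 1 + 1)) := by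
    rw [neg_pow r]
    have : (-1 : ℝ) ^ (m + 1) * (-1) ^ (m + 1) = 1 := by
      rw [← mul_pow]; norm_num
    calc (-1 : ℝ) ^ (m + 1) * -r * ((-1) ^ (m + 1) * r ^ (m + 1)) =
        -(((-1 : ℝ) ^ (m + 1) * (-1) ^ (m + 1)) * (r ^ (m + 1) * r)) := by ring
      _ = _ := by rw [this, one_mul, ← pow_succ]
  rw [h6]
  ring

lemma det_sg (a : ℕ) [NeZero a] (r : ℝ) : det (1 - r • sg a) = 1 - r ^ a := by
  obtain ⟨n, rfl⟩ : ∃ n, a = n + 1 := ⟨a - 1, by have := NeZero.pos a; omega⟩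
  rw [← det_sg_fin n r]
  congr 1

lemma sg_mul (a : ℕ) [NeZero a] : sg a * (sg a)ᵀ = 1 := by
  ext i j
  unfold sg
  rw [Matrix.mul_apply]
  simp [Matrix.one_apply, eq_comm]

/-- the cyclic Laplacian plus a constant -/
lemma det_cyc (a : ℕ) [NeZero a] {r x : ℝ} (hr : 0 < r) (hx : r + 1 / r = 2 + x) :
    det ((2 + x) • (1 : Matrix (ZMod a) (ZMod a) ℝ) - sg a - (sg a)ᵀ) =
      (1 - r ^ a) ^ 2 / r ^ a := by
  have h1 := sg_mul a
  have h2 : (2 + x) • (1 : Matrix (ZMod a) (ZMod a) ℝ) - sg a - (sg a)ᵀ =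
      (1 / r) • ((1 - r • sg a) * (1 - r • sg a)ᵀ) := by
    rw [Matrix.transpose_sub, Matrix.transpose_smul, Matrix.transpose_one, mul_sub, sub_mul,
      sub_mul, one_mul, mul_one, one_mul, Matrix.smul_mul, Matrix.mul_smul, h1, ← hx]
    ext i j
    simp only [Matrix.sub_apply, Matrix.smul_apply, smul_eq_mul]
    field_simp
    ring
  rw [h2, Matrix.det_smul, Matrix.det_mul, Matrix.det_transpose, det_sg, ZMod.card]
  rw [one_div, inv_pow, ← sq]
  field_simp

variable {E : Type*} [Fintype E] [DecidableEq E]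

open scoped Kronecker

/-- determinant of a Kronecker sum -/
lemma det_ksum {ι : Type*} [Fintype ι] [DecidableEq ι] (A : Matrix ι ι ℝ) {H : Matrix E E ℝ}
    (hH : H.IsHermitian) :
    det (A ⊗ₖ (1 : Matrix E E ℝ) + (1 : Matrix ι ι ℝ) ⊗ₖ H) =
      ∏ e, det (A + hH.eigenvalues e • 1) := by
  obtain ⟨V, hV⟩ : ∃ V : Matrix E E ℝ, V = (hH.eigenvectorUnitary : Matrix E E ℝ) := ⟨_, rfl⟩
  have hV1 : V * star V = 1 := by
    rw [hV]; exact Matrix.mem_unitaryGroup_iff.1 (hH.eigenvectorUnitary).2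
  have h1 : H = V * Matrix.diagonal hH.eigenvalues * star V := by
    have := hH.spectral_theorem
    rw [hV]
    conv_lhs => rw [this]
    simp [Unitary.conjStarAlgAut_apply]
  have h2 : A ⊗ₖ (1 : Matrix E E ℝ) + (1 : Matrix ι ι ℝ) ⊗ₖ H =
      ((1 : Matrix ι ι ℝ) ⊗ₖ V) * (A ⊗ₖ (1 : Matrix E E ℝ) +
        (1 : Matrix ι ι ℝ) ⊗ₖ Matrix.diagonal hH.eigenvalues) * ((1 : Matrix ι ι ℝ) ⊗ₖ star V) := by
    rw [mul_add, add_mul, ← Matrix.mul_kronecker_mul, ← Matrix.mul_kronecker_mul,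
      ← Matrix.mul_kronecker_mul, ← Matrix.mul_kronecker_mul]
    simp only [one_mul, mul_one]
    rw [hV1, ← h1]
  have h3 : ((1 : Matrix ι ι ℝ) ⊗ₖ V) * ((1 : Matrix ι ι ℝ) ⊗ₖ star V) = 1 := by
    rw [← Matrix.mul_kronecker_mul, one_mul, hV1, Matrix.one_kronecker_one]
  have h4 : A ⊗ₖ (1 : Matrix E E ℝ) + (1 : Matrix ι ι ℝ) ⊗ₖ Matrix.diagonal hH.eigenvalues =
      Matrix.blockDiagonal (fun e => A + hH.eigenvalues e • (1 : Matrix ι ι ℝ)) := by
    ext ⟨i, e⟩ ⟨j, f⟩
    simp only [Matrix.add_apply, Matrix.kroneckerMap_apply, Matrix.blockDiagonal_apply,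
      Matrix.diagonal_apply, Matrix.smul_apply, smul_eq_mul, Matrix.one_apply]
    by_cases hef : e = f
    · subst hef
      simp [mul_comm]
    · simp [hef]
  have h5 : det ((1 : Matrix ι ι ℝ) ⊗ₖ V) * det ((1 : Matrix ι ι ℝ) ⊗ₖ star V) = 1 := by
    rw [← Matrix.det_mul, h3, Matrix.det_one]
  rw [h2, Matrix.det_mul, Matrix.det_mul, h4, Matrix.det_blockDiagonal, mul_right_comm, h5,
    one_mul]

/-- the Laplacian on a cycle times a slice -/
def lap (a : ℕ) [NeZero a] (H : Matrix E E ℝ) : Matrix (ZMod a × E) (ZMod a × E) ℝ :=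
  ((2 : ℝ) • (1 : Matrix (ZMod a) (ZMod a) ℝ) - sg a - (sg a)ᵀ) ⊗ₖ (1 : Matrix E E ℝ) +
    (1 : Matrix (ZMod a) (ZMod a) ℝ) ⊗ₖ H

/-- the root -/
def rt (x : ℝ) : ℝ := (2 + x - Real.sqrt ((2 + x) ^ 2 - 4)) / 2

lemma rt_spec {x : ℝ} (hx : 0 < x) : 0 < rt x ∧ rt x + 1 / rt x = 2 + x ∧ rt x ≤ 1 / (1 + x) := by
  obtain ⟨q, hq⟩ : ∃ q, q = Real.sqrt ((2 + x) ^ 2 - 4) := ⟨_, rfl⟩
  have h0 : 0 ≤ (2 + x) ^ 2 - 4 := by nlinarith
  have h1 : q ^ 2 = (2 + x) ^ 2 - 4 := by rw [hq]; exact Real.sq_sqrt h0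
  have h2 : 0 ≤ q := by rw [hq]; exact Real.sqrt_nonneg _
  have h3 : q < 2 + x := by
    by_contra h
    push Not at h
    nlinarith
  have h4 : 0 < rt x := by unfold rt; rw [← hq]; linarith
  have h5 : rt x * (2 + x - rt x) = 1 := by
    unfold rt; rw [← hq]; nlinarith
  have h6 : 1 / rt x = 2 + x - rt x := by
    rw [div_eq_iff h4.ne']; linarith
  have h7 : rt x ≤ 1 := by
    by_contra h
    push Not at h
    have h8 : q < x := by unfold rt at h; rw [← hq] at h; linarith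
    nlinarith
  refine ⟨h4, by rw [h6]; ring, ?_⟩
  rw [le_div_iff₀ (by linarith)]
  nlinarith

theorem det_lap (a : ℕ) [NeZero a] {H : Matrix E E ℝ} (hH : H.IsHermitian)
    (hpos : ∀ e, 0 < hH.eigenvalues e) :
    det (lap a H) = ∏ e, ((1 - rt (hH.eigenvalues e) ^ a) ^ 2 / rt (hH.eigenvalues e) ^ a) := by
  unfold lap
  rw [det_ksum _ hH]
  refine Finset.prod_congr rfl fun e _ => ?_
  obtain ⟨h1, h2, -⟩ := rt_spec (hpos e)
  rw [← det_cyc a h1 h2]
  congr 1
  rw [add_smul]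
  abel

/-- the limit of the purity is close to one -/
theorem purity {a a' : ℕ} [NeZero a] [NeZero a'] (ha : a' = 2 * a) {H : Matrix E E ℝ}
    (hH : H.IsHermitian) {x0 : ℝ} (hx0 : 0 < x0) (hpos : ∀ e, x0 ≤ hH.eigenvalues e) :
    0 < det (lap a H) ∧ 0 < det (lap a' H) ∧
    1 - 4 * Fintype.card E * (1 / (1 + x0)) ^ a ≤ det (lap a H) ^ 2 / det (lap a' H) := by
  have hp : ∀ e, 0 < hH.eigenvalues e := fun e => hx0.trans_le (hpos e)
  have hr : ∀ e, 0 < rt (hH.eigenvalues e) ∧ rt (hH.eigenvalues e) ≤ 1 / (1 + x0) := by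
    intro e
    obtain ⟨h1, -, h3⟩ := rt_spec (hp e)
    refine ⟨h1, h3.trans ?_⟩
    exact one_div_le_one_div_of_le (by linarith) (by linarith [hpos e])
  have hρ1 : 1 / (1 + x0) < 1 := by rw [div_lt_one (by linarith)]; linarith
  have hρ0 : 0 < 1 / (1 + x0) := by positivity
  have ha0 : a ≠ 0 := NeZero.ne a
  have ha1 : a' ≠ 0 := NeZero.ne a'
  have hlt : ∀ e, ∀ k : ℕ, k ≠ 0 → rt (hH.eigenvalues e) ^ k < 1 := fun e k hk =>
    pow_lt_one₀ (hr e).1.le ((hr e).2.trans_lt hρ1) hk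
  have hpa : 0 < det (lap a H) := by
    rw [det_lap a hH hp]
    exact Finset.prod_pos fun e _ => div_pos (pow_pos (by have := hlt e a ha0; linarith) 2)
      (pow_pos (hr e).1 _)
  have hpa' : 0 < det (lap a' H) := by
    rw [det_lap a' hH hp]
    exact Finset.prod_pos fun e _ => div_pos (pow_pos (by have := hlt e a' ha1; linarith) 2)
      (pow_pos (hr e).1 _)
  refine ⟨hpa, hpa', ?_⟩
  have h1 : det (lap a H) ^ 2 / det (lap a' H) =
      ∏ e, ((1 - rt (hH.eigenvalues e) ^ a) / (1 + rt (hH.eigenvalues e) ^ a)) ^ 2 := by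
    rw [det_lap a hH hp, det_lap a' hH hp, ← Finset.prod_pow, ← Finset.prod_div_distrib]
    refine Finset.prod_congr rfl fun e _ => ?_
    obtain ⟨y, hy⟩ : ∃ y, y = rt (hH.eigenvalues e) ^ a := ⟨_, rfl⟩
    have hy0 : 0 < y := by rw [hy]; exact pow_pos (hr e).1 _
    have hy1 : y < 1 := by rw [hy]; exact hlt e a ha0
    have h2 : rt (hH.eigenvalues e) ^ a' = y ^ 2 := by
      rw [ha, hy, mul_comm, pow_mul]
    rw [h2, ← hy]
    have h3 : 1 - y ^ 2 = (1 - y) * (1 + y) := by ring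
    have h4 : (1 - y) ≠ 0 := by linarith
    have h5 : (1 + y) ≠ 0 := by linarith
    rw [h3]
    field_simp
  rw [h1]
  have h2 : ∏ e : E, (1 - (1 / (1 + x0)) ^ a) ^ 4 ≤
      ∏ e, ((1 - rt (hH.eigenvalues e) ^ a) / (1 + rt (hH.eigenvalues e) ^ a)) ^ 2 := by
    refine Finset.prod_le_prod (fun e _ => by positivity) fun e _ => ?_
    obtain ⟨y, hy⟩ : ∃ y, y = rt (hH.eigenvalues e) ^ a := ⟨_, rfl⟩
    have hy0 : 0 < y := by rw [hy]; exact pow_pos (hr e).1 _
    have hy1 : y < 1 := by rw [hy]; exact hlt e a ha0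
    have hy2 : y ≤ (1 / (1 + x0)) ^ a := by
      rw [hy]; exact pow_le_pow_left₀ (hr e).1.le (hr e).2 _
    rw [← hy]
    have h3 : (1 - (1 / (1 + x0)) ^ a) ^ 4 ≤ ((1 - y) ^ 2) ^ 2 := by
      rw [← pow_mul]
      refine pow_le_pow_left₀ ?_ (by linarith) 4
      have := pow_le_one₀ (n := a) hρ0.le hρ1.le
      linarith
    refine h3.trans (pow_le_pow_left₀ (by positivity) ?_ 2)
    rw [le_div_iff₀ (by linarith)]
    nlinarith [mul_nonneg hy0.le (sub_nonneg.2 hy1.le), sq_nonneg y]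
  refine le_trans ?_ h2
  rw [Finset.prod_const, Finset.card_univ, ← pow_mul]
  have h3 := one_add_mul_le_pow (a := -(1 / (1 + x0)) ^ a) (by
    have := pow_le_one₀ (n := a) hρ0.le hρ1.le
    linarith) (4 * Fintype.card E)
  push_cast at h3
  rw [← sub_eq_add_neg] at h3
  refine le_trans (le_of_eq ?_) h3
  ring

end

end Pool.Agent.Run7.h630.R2
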