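import Mathlib
import Pool.Agent.N839.T3.ScI
import Pool.Agent.Run7.h630.R2.Cyc

/-!
# The twisted lattice gauge theory: definitions
-/

open MeasureTheory Matrix Filter
open scoped Matrix.Norms.Frobenius Topology
open Pool.Agent.H906R3.YM Pool.Agent.W793.YM Pool.Agent.TH618.YM Pool.Agent.N984.TW

namespace Pool.Agent.Run7.h630.R2

set_option linter.unusedSectionVars false

noncomputable section

/-- The group `SU(N)` as a subgroup of `U(N)`. -/
def SU (N : ℕ) : Subgroup (UN N) where
  carrier := {g | det (g : Mat N) = 1}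
  mul_mem' := by
    intro g h hg hh
    show det ((g : Mat N) * (h : Mat N)) = 1
    rw [det_mul, show det (g : Mat N) = 1 from hg, show det (h : Mat N) = 1 from hh, one_mul]
  one_mem' := by
    show det (1 : Mat N) = 1
    exact det_one
  inv_mem' := by
    intro g hg
    show det ((g⁻¹ : UN N) : Mat N) = 1
    have h1 : ((g⁻¹ : UN N) : Mat N) * (g : Mat N) = 1 := by
      rw [← Submonoid.coe_mul, inv_mul_cancel]; rfl
    have h2 := congrArg det h1
    rw [det_mul, det_one, show det (g : Mat N) = 1 from hg, mul_one] at h2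
    exact h2

lemma SU_closed (N : ℕ) : IsClosed (SU N : Set (UN N)) := by
  have h1 : (SU N : Set (UN N)) = {g : UN N | det (g : Mat N) = 1} := rfl
  rw [h1]
  exact isClosed_eq (continuous_subtype_val.matrix_det) continuous_const

/-- The sites: base and fibre. -/
abbrev Si (a b l : ℕ) := (ZMod a × ZMod b) × (ZMod l × ZMod l)

/-- The unit vectors. -/
def ee {a b l : ℕ} : Fin 4 → Si a b l := ![((1, 0), 0), ((0, 1), 0), (0, (1, 0)), (0, (0, 1))]

/-- The links. -/
abbrev Lk (a b l : ℕ) := Si a b l × Fin 4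

variable {N : ℕ} {a b l : ℕ}

section defs

variable {G : Subgroup (UN N)}

/-- The plaquette variable. -/
def plq (U : Lk a b l → G) (x : Si a b l) (i j : Fin 4) : G :=
  U (x, i) * U (x + ee i, j) * (U (x + ee j, i))⁻¹ * (U (x, j))⁻¹

/-- The energy of a plaquette with twist. -/
def en (w : ℂ) (g : G) : ℝ := (trace (1 - w • mt g)).re

/-- The root of unity. -/
def zeta (N : ℕ) : ℂ := Complex.exp (2 * Real.pi * Complex.I / N)

/-- The energy of the plaquettes outside of the base directions. -/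
def nonbase [NeZero a] [NeZero b] [NeZero l] (k : ℕ) (U : Lk a b l → G) : ℝ :=
  ∑ x : Si a b l, (en 1 (plq U x 0 2) + en 1 (plq U x 0 3) + en 1 (plq U x 1 2) +
    en 1 (plq U x 1 3) + en (if x.2 = 0 then zeta N ^ k else 1) (plq U x 2 3))

/-- The energy of the plaquettes in the base directions over one base point. -/
def baseE [NeZero l] (n : ℕ) (U : Lk a b l → G) (u : ZMod a × ZMod b) : ℝ :=
  ∑ y : ZMod l × ZMod l, en (zeta N ^ n) (plq U (u, y) 0 1)

/-- The weight, summed over the centre on the base plaquettes. -/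
def wt [NeZero a] [NeZero b] [NeZero l] (k : ℕ) (β : ℝ) (U : Lk a b l → G) : ℝ :=
  Real.exp (-(β * nonbase k U)) * ∏ u : ZMod a × ZMod b, ∑ n : Fin N,
    Real.exp (-(β * baseE (n : ℕ) U u))

/-- The partition function. -/
def Zt [MeasurableSpace G] (μ : Measure G) (l k : ℕ) [NeZero l] (β : ℝ) (a b : ℕ) [NeZero a]
    [NeZero b] : ℝ := ∫ U : Lk a b l → G, wt k β U ∂(Measure.pi fun _ => μ)

end defs

/-- A pair of matrices in `SU(N)` with the twist `ω`. -/
structure TwPair (N : ℕ) (ω : ℂ) (P Q : SU N) : Prop where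
  comm : mt Q * mt P = ω • (mt P * mt Q)
  irr : ∀ M : Mat N, mt P * M = M * mt P → mt Q * M = M * mt Q → ∃ c : ℂ, M = c • (1 : Mat N)
  uniq : ∀ P' Q' : SU N, mt Q' * mt P' = ω • (mt P' * mt Q') →
    ∃ g : SU N, P' = g * P * g⁻¹ ∧ Q' = g * Q * g⁻¹

/-- The vacuum. -/
def U0 (P Q : SU N) : Lk a b l → SU N := fun e =>
  if e.2 = 2 then (if e.1.2.1 = 0 then P else 1) else
    if e.2 = 3 then (if e.1.2.2 = 0 then Q else 1) else 1

lemma U0_zero (P Q : SU N) (x : Si a b l) : U0 P Q (x, 0) = 1 := by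
  unfold U0; simp

lemma U0_one (P Q : SU N) (x : Si a b l) : U0 P Q (x, 1) = 1 := by
  unfold U0; simp

lemma U0_two (P Q : SU N) (x : Si a b l) : U0 P Q (x, 2) = if x.2.1 = 0 then P else 1 := by
  unfold U0; simp

lemma U0_three (P Q : SU N) (x : Si a b l) : U0 P Q (x, 3) = if x.2.2 = 0 then Q else 1 := by
  unfold U0; simp

end

end Pool.Agent.Run7.h630.R2
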