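import Mathlib
import Pool.Agent.Run7.h630.R2.Def

/-!
# Rigidity of the twisted vacuum
-/

open MeasureTheory Matrix Filter
open scoped Matrix.Norms.Frobenius Topology
open Pool.Agent.H906R3.YM Pool.Agent.W793.YM Pool.Agent.TH618.YM Pool.Agent.N984.TW

namespace Pool.Agent.Run7.h630.R2

set_option linter.unusedSectionVars false

noncomputable section

section fibre

variable {G : Type*} [Group G] {l : ℕ} [NeZero l] (V2 V3 : ZMod l → ZMod l → G)

/-- the transport along the first row -/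
def row : ℕ → G
  | 0 => 1
  | i + 1 => row i * V2 (1 + i) 1

/-- the transport along a column -/
def col (i : ZMod l) : ℕ → G
  | 0 => 1
  | j + 1 => col i j * V3 (1 + i) (1 + j)

/-- the transport -/
def tp (i j : ℕ) : G := row V2 i * col V3 (i : ZMod l) j

lemma tp_succ (i j : ℕ) : tp V2 V3 i (j + 1) = tp V2 V3 i j * V3 (1 + i) (1 + j) := by
  show row V2 i * (col V3 i j * V3 (1 + i) (1 + j)) = row V2 i * col V3 i j * V3 (1 + i) (1 + j)
  rw [mul_assoc]

lemma tp_row (i : ℕ) : tp V2 V3 (i + 1) 0 = tp V2 V3 i 0 * V2 (1 + i) 1 := by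
  simp [tp, col, row]

lemma tp_zero : tp V2 V3 0 0 = 1 := by simp [tp, col, row]

variable {V2 V3} {w : G}

/-- flatness -/
def Flat (V2 V3 : ZMod l → ZMod l → G) (w : G) : Prop :=
  ∀ p q : ZMod l, V3 p q * V2 p (q + 1) =
    (if p = 0 ∧ q = 0 then w else 1) * (V2 p q * V3 (p + 1) q)

lemma tp_flat (hF : Flat V2 V3 w) (i j : ℕ)
    (h : ∀ t < j, ¬((1 : ZMod l) + i = 0 ∧ (1 : ZMod l) + t = 0)) :
    tp V2 V3 i j * V2 (1 + i) (1 + j) = tp V2 V3 (i + 1) j := by
  induction j with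
  | zero => rw [tp_row]; simp
  | succ j ih =>
    have h1 := ih fun t ht => h t (by omega)
    have h2 := hF (1 + i) (1 + j)
    rw [if_neg (h j (Nat.lt_succ_self j)), one_mul] at h2
    rw [tp_succ, tp_succ, ← h1]
    push_cast
    rw [mul_assoc, mul_assoc]
    congr 1
    rw [← add_assoc, h2, ← add_assoc]

/-- the gauge transformation which makes a flat configuration standard -/
theorem fibre_flat (hw : ∀ g : G, w * g = g * w) (hF : Flat V2 V3 w) :
    ∃ (g : ZMod l → ZMod l → G) (P Q : G), Q * P = w * (P * Q) ∧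
      (∀ p q, V2 p q = g p q * (if p = 0 then P else 1) * (g (p + 1) q)⁻¹) ∧
      (∀ p q, V3 p q = g p q * (if q = 0 then Q else 1) * (g p (q + 1))⁻¹) := by
  have hl : 0 < l := NeZero.pos l
  obtain ⟨iv, hiv⟩ : ∃ iv : ZMod l → ℕ, iv = fun p => (p - 1).val := ⟨_, rfl⟩
  have hiv1 : ∀ p, (1 : ZMod l) + (iv p : ℕ) = p := fun p => by
    rw [hiv]; simp
  have hivl : ∀ p, iv p < l := fun p => by rw [hiv]; exact ZMod.val_lt _
  have hiv0 : iv 0 = l - 1 := by
    have h1 := hiv1 0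
    have h2 : ((1 + iv 0 : ℕ) : ZMod l) = 0 := by push_cast; exact h1
    rw [ZMod.natCast_eq_zero_iff] at h2
    have h3 := hivl 0
    obtain ⟨c, hc⟩ := h2
    have : c = 1 := by
      rcases Nat.eq_zero_or_pos c with h | h
      · subst h; omega
      · by_contra h4
        have : 2 ≤ c := by omega
        nlinarith
    subst this; omega
  have hivs : ∀ p, p ≠ 0 → iv (p + 1) = iv p + 1 := by
    intro p hp
    have h1 : iv p + 1 < l := by
      by_contra h
      have h2 : iv p + 1 = l := by have := hivl p; omega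
      apply hp
      rw [← hiv1 p]
      have : ((1 + iv p : ℕ) : ZMod l) = ((l : ℕ) : ZMod l) := by rw [add_comm, h2]
      push_cast at this
      rw [this]; simp
    have h2 : ((iv (p + 1) : ℕ) : ZMod l) = ((iv p + 1 : ℕ) : ZMod l) := by
      have e1 := hiv1 (p + 1)
      have e2 := hiv1 p
      push_cast
      calc ((iv (p + 1) : ℕ) : ZMod l) = (1 + (iv (p + 1) : ℕ)) - 1 := by ring
        _ = _ := by rw [e1]; nth_rewrite 1 [← e2]; ring
    have h3 := congrArg ZMod.val h2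
    rwa [ZMod.val_natCast_of_lt (hivl _), ZMod.val_natCast_of_lt h1] at h3
  have hiv01 : iv (0 + 1) = 0 := by
    rw [hiv]; simp
  have hlc : ((l : ℕ) : ZMod l) = 0 := ZMod.natCast_self l
  have hl1 : ((l - 1 : ℕ) : ZMod l) = -1 := by
    rw [Nat.cast_sub (by omega), hlc]; simp
  -- the column of index `l`
  have hC : ∀ j, tp V2 V3 l j = tp V2 V3 l 0 * tp V2 V3 0 j := by
    intro j
    simp [tp, col, row]
  -- rows
  have hB : ∀ i j : ℕ, j ≤ l - 1 → tp V2 V3 i j * V2 (1 + i) (1 + j) = tp V2 V3 (i + 1) j := by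
    intro i j hj
    refine tp_flat hF i j fun t ht h => ?_
    have h2 : ((1 + t : ℕ) : ZMod l) = 0 := by push_cast; exact h.2
    rw [ZMod.natCast_eq_zero_iff] at h2
    have := Nat.le_of_dvd (by omega) h2
    omega
  have hB' : ∀ i j : ℕ, i < l - 1 → tp V2 V3 i j * V2 (1 + i) (1 + j) = tp V2 V3 (i + 1) j := by
    intro i j hi
    refine tp_flat hF i j fun t ht h => ?_
    have h2 : ((1 + i : ℕ) : ZMod l) = 0 := by push_cast; exact h.1
    rw [ZMod.natCast_eq_zero_iff] at h2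
    have := Nat.le_of_dvd (by omega) h2
    omega
  have hQ : ∀ i : ℕ, i ≤ l - 1 → tp V2 V3 i l = tp V2 V3 0 l * tp V2 V3 i 0 := by
    intro i hi
    induction i with
    | zero => rw [tp_zero, mul_one]
    | succ i ih =>
      rw [← hB' i l (by omega), ih (by omega), tp_row, hlc, add_zero, mul_assoc]
  obtain ⟨P, hP⟩ : ∃ P, P = tp V2 V3 l 0 := ⟨_, rfl⟩
  obtain ⟨Q, hQd⟩ : ∃ Q, Q = tp V2 V3 0 l := ⟨_, rfl⟩
  have hll : l = (l - 1) + 1 := by omega
  have hcomm : Q * P = w * (P * Q) := by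
    have e1 : tp V2 V3 (l - 1) l = tp V2 V3 (l - 1) (l - 1) * V3 0 0 := by
      have e0 := tp_succ V2 V3 (l - 1) (l - 1)
      rw [← hll, hl1] at e0
      simpa using e0
    have e2 : tp V2 V3 l 0 = tp V2 V3 (l - 1) 0 * V2 0 1 := by
      have e0 := tp_row V2 V3 (l - 1)
      rw [← hll, hl1] at e0
      simpa using e0
    have e3 : tp V2 V3 l (l - 1) = tp V2 V3 (l - 1) (l - 1) * V2 0 0 := by
      have := hB (l - 1) (l - 1) le_rfl
      rw [← hll, hl1] at this
      simp only [add_neg_cancel] at this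
      exact this.symm
    have e4 : tp V2 V3 l l = tp V2 V3 l (l - 1) * V3 1 0 := by
      have e0 := tp_succ V2 V3 l (l - 1)
      rw [← hll, hl1, hlc] at e0
      simpa using e0
    have e5 := hF 0 0
    simp only [zero_add, and_self, if_true] at e5
    have e6 := hQ (l - 1) le_rfl
    calc Q * P = tp V2 V3 0 l * tp V2 V3 (l - 1) 0 * V2 0 1 := by rw [hQd, hP, e2, mul_assoc]
      _ = tp V2 V3 (l - 1) (l - 1) * (V3 0 0 * V2 0 1) := by rw [← e6, e1, mul_assoc]
      _ = w * (tp V2 V3 (l - 1) (l - 1) * V2 0 0 * V3 1 0) := by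
          rw [e5, ← mul_assoc, ← hw, mul_assoc, mul_assoc]
      _ = w * tp V2 V3 l l := by rw [← e3, ← e4]
      _ = w * (P * Q) := by rw [hC l, hP, hQd]
  refine ⟨fun p q => (tp V2 V3 (iv p) (iv q))⁻¹, P, Q, hcomm, fun p q => ?_, fun p q => ?_⟩
  · beta_reduce
    have h1 := hB (iv p) (iv q) (by have := hivl q; omega)
    rw [hiv1, hiv1] at h1
    by_cases hp : p = 0
    · subst hp
      rw [if_pos rfl, hiv01, inv_inv]
      have h2 : iv 0 + 1 = l := by rw [hiv0]; omega
      rw [h2, hC, ← hP] at h1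
      rw [mul_assoc, eq_inv_mul_iff_mul_eq]
      exact h1
    · rw [if_neg hp, mul_one, hivs p hp, inv_inv, eq_inv_mul_iff_mul_eq]
      exact h1
  · beta_reduce
    by_cases hq : q = 0
    · subst hq
      rw [if_pos rfl, hiv01, inv_inv, mul_assoc, eq_inv_mul_iff_mul_eq]
      have h1 := tp_succ V2 V3 (iv p) (iv 0)
      rw [hiv1, hiv1] at h1
      have h2 : iv 0 + 1 = l := by rw [hiv0]; omega
      rw [h2, hQ _ (by have := hivl p; omega), ← hQd] at h1
      exact h1.symm
    · rw [if_neg hq, mul_one, hivs q hq, inv_inv, eq_inv_mul_iff_mul_eq]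
      have h1 := tp_succ V2 V3 (iv p) (iv q)
      rw [hiv1, hiv1] at h1
      exact h1.symm

end fibre

section centre

variable {N : ℕ}

/-- central elements of `SU(N)` -/
def zch (N : ℕ) [NeZero N] : rootsOfUnity N ℂ →* SU N where
  toFun w := ⟨⟨((w : ℂˣ) : ℂ) • (1 : Mat N), by
    have h1 : ((w : ℂˣ) : ℂ) ^ N = 1 := by
      have := w.2
      rw [mem_rootsOfUnity'] at this
      exact this
    have h2 : ‖((w : ℂˣ) : ℂ)‖ = 1 := Complex.norm_eq_one_of_pow_eq_one h1 (NeZero.ne N)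
    rw [Matrix.mem_unitaryGroup_iff, star_smul, star_one, smul_mul_smul_comm, one_mul]
    have h3 : ((w : ℂˣ) : ℂ) * star ((w : ℂˣ) : ℂ) = 1 := by
      rw [Complex.star_def, Complex.mul_conj, Complex.normSq_eq_norm_sq, h2]; simp
    rw [h3, one_smul]⟩, by
    show det (((w : ℂˣ) : ℂ) • (1 : Mat N)) = 1
    have := w.2
    rw [mem_rootsOfUnity'] at this
    rw [det_smul, det_one, mul_one, Fintype.card_fin]
    exact this⟩
  map_one' := by
    apply Subtype.ext; apply Subtype.ext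
    show ((1 : ℂˣ) : ℂ) • (1 : Mat N) = 1
    simp
  map_mul' := by
    intro w v
    apply Subtype.ext; apply Subtype.ext
    show (((w * v : rootsOfUnity N ℂ) : ℂˣ) : ℂ) • (1 : Mat N) =
      (((w : ℂˣ) : ℂ) • (1 : Mat N)) * (((v : ℂˣ) : ℂ) • (1 : Mat N))
    rw [smul_mul_smul_comm, one_mul]
    simp

lemma mt_zch [NeZero N] (w : rootsOfUnity N ℂ) : mt (zch N w) = ((w : ℂˣ) : ℂ) • (1 : Mat N) := rfl

lemma zch_comm [NeZero N] (w : rootsOfUnity N ℂ) (g : SU N) : zch N w * g = g * zch N w := by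
  apply mt_inj
  rw [mt_mul, mt_mul, mt_zch, smul_mul_assoc, one_mul, mul_smul_comm, mul_one]

lemma zch_inj [NeZero N] : Function.Injective (zch N) := by
  intro w v h
  have h1 := congrArg (Pool.Agent.H906R3.YM.mt) h
  rw [mt_zch, mt_zch] at h1
  have h2 := congrFun (congrFun h1 0) 0
  simp only [Matrix.smul_apply, Matrix.one_apply_eq, smul_eq_mul, mul_one] at h2
  exact Subtype.ext (Units.ext h2)

lemma zeta_pow (N : ℕ) [NeZero N] : zeta N ^ N = 1 :=
  (Complex.isPrimitiveRoot_exp N (NeZero.ne N)).pow_eq_one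

/-- the root of unity `ζ ^ k` -/
def zk (N : ℕ) [NeZero N] (k : ℕ) : rootsOfUnity N ℂ :=
  rootsOfUnity.mkOfPowEq (zeta N ^ k) (by rw [← pow_mul, mul_comm, pow_mul, zeta_pow, one_pow])

lemma mt_zk [NeZero N] (k : ℕ) : mt (zch N (zk N k)) = zeta N ^ k • (1 : Mat N) := by
  rw [mt_zch]
  rfl

lemma norm_zeta [NeZero N] (k : ℕ) : ‖zeta N ^ k‖ = 1 := by
  rw [norm_pow, Complex.norm_eq_one_of_pow_eq_one (zeta_pow N) (NeZero.ne N), one_pow]

lemma en_eq {G : Subgroup (UN N)} {w : ℂ} (hw : ‖w‖ = 1) (g : G) :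
    en w g = 1 / 2 * ‖1 - w • mt g‖ ^ 2 := by
  have h1 : mt g * (mt g)ᴴ = 1 := rhoG_unit g
  have h1' : (mt g)ᴴ * mt g = 1 := rhoG_unit' g
  have h3 : star w * w = 1 := by
    rw [mul_comm, Complex.star_def, Complex.mul_conj, Complex.normSq_eq_norm_sq, hw]; simp
  have h2 : (1 - w • mt g)ᴴ * (1 - w • mt g) = (1 - w • mt g) + (1 - w • mt g)ᴴ := by
    rw [conjTranspose_sub, conjTranspose_one, conjTranspose_smul, sub_mul, one_mul, mul_sub,
      mul_one, smul_mul_smul_comm, h1', h3, one_smul]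
    abel
  rw [norm_sq_ip, ip_apply, h2, trace_add, trace_conjTranspose, Complex.add_re]
  unfold en
  simp
  ring

lemma en_nonneg {G : Subgroup (UN N)} {w : ℂ} (hw : ‖w‖ = 1) (g : G) : 0 ≤ en w g := by
  rw [en_eq hw]; positivity

lemma en_zero {G : Subgroup (UN N)} {w : ℂ} (hw : ‖w‖ = 1) {g : G} (h : en w g = 0) :
    w • mt g = 1 := by
  rw [en_eq hw] at h
  have h1 : ‖1 - w • mt g‖ = 0 := by
    have : ‖1 - w • mt g‖ ^ 2 = 0 := by linarith
    exact pow_eq_zero_iff (two_ne_zero) |>.1 this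
  exact (sub_eq_zero.1 (norm_eq_zero.1 h1)).symm

/-- covariantly constant functions on the fibre are central -/
lemma cov_const [NeZero N] {l : ℕ} [NeZero l] {P Q : SU N}
    (irr : ∀ M : Mat N, mt P * M = M * mt P → mt Q * M = M * mt Q → ∃ c : ℂ, M = c • (1 : Mat N))
    {w : ZMod l → ZMod l → SU N}
    (h1 : ∀ p q, w p q * (if p = 0 then P else 1) = (if p = 0 then P else 1) * w (p + 1) q)
    (h2 : ∀ p q, w p q * (if q = 0 then Q else 1) = (if q = 0 then Q else 1) * w p (q + 1)) :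
    ∃ z : rootsOfUnity N ℂ, ∀ p q, w p q = zch N z := by
  have hl : 0 < l := NeZero.pos l
  have hne : ∀ i : ℕ, i + 1 < l → (1 + (i : ZMod l)) ≠ 0 := by
    intro i hi h
    have h2 : ((1 + i : ℕ) : ZMod l) = 0 := by push_cast; exact h
    rw [ZMod.natCast_eq_zero_iff] at h2
    have := Nat.le_of_dvd (by omega) h2
    omega
  have hr : ∀ p : ZMod l, ∃ i : ℕ, i < l ∧ p = 1 + (i : ZMod l) := fun p =>
    ⟨(p - 1).val, ZMod.val_lt _, by simp⟩
  have a1 : ∀ (i : ℕ), i < l → ∀ q, w (1 + (i : ZMod l)) q = w 1 q := by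
    intro i
    induction i with
    | zero => intro _ q; simp
    | succ i ih =>
      intro hi q
      have h3 := h1 (1 + (i : ZMod l)) q
      rw [if_neg (hne i hi), one_mul, mul_one] at h3
      rw [← ih (by omega), h3]
      push_cast
      rw [add_assoc]
  have a2 : ∀ (i : ℕ), i < l → ∀ p, w p (1 + (i : ZMod l)) = w p 1 := by
    intro i
    induction i with
    | zero => intro _ q; simp
    | succ i ih =>
      intro hi p
      have h3 := h2 p (1 + (i : ZMod l))
      rw [if_neg (hne i hi), one_mul, mul_one] at h3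
      rw [← ih (by omega), h3]
      push_cast
      rw [add_assoc]
  have a3 : ∀ p q, w p q = w 1 1 := by
    intro p q
    obtain ⟨i, hi, rfl⟩ := hr p
    obtain ⟨j, hj, rfl⟩ := hr q
    rw [a1 i hi, a2 j hj]
  have b1 := h1 0 1
  have b2 := h2 1 0
  rw [if_pos rfl, a3 0 1, a3 (0 + 1) 1] at b1
  rw [if_pos rfl, a3 1 0, a3 1 (0 + 1)] at b2
  have c1 := congrArg (Pool.Agent.H906R3.YM.mt) b1
  have c2 := congrArg (Pool.Agent.H906R3.YM.mt) b2
  rw [mt_mul, mt_mul] at c1 c2
  obtain ⟨c, hc⟩ := irr _ c1.symm c2.symm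
  have hd : c ^ N = 1 := by
    have h3 : det (mt (w 1 1)) = 1 := (w 1 1).2
    rw [hc, det_smul, det_one, mul_one, Fintype.card_fin] at h3
    exact h3
  refine ⟨rootsOfUnity.mkOfPowEq c hd, fun p q => ?_⟩
  rw [a3]
  apply mt_inj
  rw [hc, mt_zch]
  rfl

end centre

section rigid

variable {N : ℕ} [NeZero N] {a b l : ℕ} [NeZero a] [NeZero b] [NeZero l]

/-- the finite group -/
abbrev Zf (N a b : ℕ) := (ZMod a × ZMod b) → Fin 2 → rootsOfUnity N ℂ

/-- the action of the finite group by central elements on the base links -/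
def cz (N a b l : ℕ) [NeZero N] : Zf N a b →* (Lk a b l → SU N) where
  toFun z := fun e => if e.2 = 0 then zch N (z e.1.1 0) else
    if e.2 = 1 then zch N (z e.1.1 1) else 1
  map_one' := by
    funext e
    simp
  map_mul' := by
    intro z z'
    funext e
    simp only [Pi.mul_apply, map_mul]
    split_ifs <;> simp

lemma cz_zero (z : Zf N a b) (x : Si a b l) : cz N a b l z (x, 0) = zch N (z x.1 0) := by
  simp [cz]

lemma cz_one (z : Zf N a b) (x : Si a b l) : cz N a b l z (x, 1) = zch N (z x.1 1) := by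
  simp [cz]

lemma cz_two (z : Zf N a b) (x : Si a b l) : cz N a b l z (x, 2) = 1 := by
  simp [cz]

lemma cz_three (z : Zf N a b) (x : Si a b l) : cz N a b l z (x, 3) = 1 := by
  simp [cz]

lemma ee0 (u : ZMod a × ZMod b) (y : ZMod l × ZMod l) :
    ((u, y) : Si a b l) + ee 0 = (u + (1, 0), y) := by simp [ee]

lemma ee1 (u : ZMod a × ZMod b) (y : ZMod l × ZMod l) :
    ((u, y) : Si a b l) + ee 1 = (u + (0, 1), y) := by simp [ee]

lemma ee2 (u : ZMod a × ZMod b) (p q : ZMod l) :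
    ((u, (p, q)) : Si a b l) + ee 2 = (u, (p + 1, q)) := by simp [ee]

lemma ee3 (u : ZMod a × ZMod b) (p q : ZMod l) :
    ((u, (p, q)) : Si a b l) + ee 3 = (u, (p, q + 1)) := by simp [ee]

/-- rigidity of the twisted vacuum -/
theorem rigid {k : ℕ} {P Q : SU N} (hPQ : TwPair N (zeta N ^ k) P Q) (U : Lk a b l → SU N)
    (hU : nonbase k U = 0) : ∃ (γ : Si a b l → SU N) (z : Zf N a b), ∀ e : Lk a b l,
      U e = γ e.1 * (cz N a b l z e * U0 P Q e) * (γ (e.1 + ee e.2))⁻¹ := by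
  have hw : ∀ x : Si a b l, ‖(if x.2 = 0 then zeta N ^ k else (1 : ℂ))‖ = 1 := fun x => by
    split_ifs
    · exact norm_zeta k
    · simp
  have h1 : ‖(1 : ℂ)‖ = 1 := by simp
  -- all the terms vanish
  have hx : ∀ x : Si a b l, plq U x 0 2 = 1 ∧ plq U x 0 3 = 1 ∧ plq U x 1 2 = 1 ∧
      plq U x 1 3 = 1 ∧ (if x.2 = 0 then zeta N ^ k else (1 : ℂ)) • mt (plq U x 2 3) = 1 := by
    intro x
    have e1 := (Finset.sum_eq_zero_iff_of_nonneg (fun x (_ : x ∈ (Finset.univ : Finset (Si a b l)))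
      => by
        have a1 := en_nonneg h1 (plq U x 0 2)
        have a2 := en_nonneg h1 (plq U x 0 3)
        have a3 := en_nonneg h1 (plq U x 1 2)
        have a4 := en_nonneg h1 (plq U x 1 3)
        have a5 := en_nonneg (hw x) (plq U x 2 3)
        linarith)).1 hU x (Finset.mem_univ x)
    have a1 := en_nonneg h1 (plq U x 0 2)
    have a2 := en_nonneg h1 (plq U x 0 3)
    have a3 := en_nonneg h1 (plq U x 1 2)
    have a4 := en_nonneg h1 (plq U x 1 3)
    have a5 := en_nonneg (hw x) (plq U x 2 3)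
    have b1 : en 1 (plq U x 0 2) = 0 := by linarith
    have b2 : en 1 (plq U x 0 3) = 0 := by linarith
    have b3 : en 1 (plq U x 1 2) = 0 := by linarith
    have b4 : en 1 (plq U x 1 3) = 0 := by linarith
    have b5 : en (if x.2 = 0 then zeta N ^ k else (1 : ℂ)) (plq U x 2 3) = 0 := by linarith
    have c1 : ∀ g : SU N, en 1 g = 0 → g = 1 := fun g hg => by
      have := en_zero h1 hg
      rw [one_smul] at this
      exact mt_inj (by rw [this, mt_one])
    exact ⟨c1 _ b1, c1 _ b2, c1 _ b3, c1 _ b4, en_zero (hw x) b5⟩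
  -- the fibres
  obtain ⟨W, hW⟩ : ∃ W, W = zch N (zk N k) := ⟨_, rfl⟩
  have hWc : ∀ g : SU N, W * g = g * W := fun g => by rw [hW]; exact zch_comm _ _
  have hfib : ∀ u : ZMod a × ZMod b, ∃ g : ZMod l → ZMod l → SU N,
      (∀ p q, U ((u, (p, q)), 2) = g p q * (if p = 0 then P else 1) * (g (p + 1) q)⁻¹) ∧
      (∀ p q, U ((u, (p, q)), 3) = g p q * (if q = 0 then Q else 1) * (g p (q + 1))⁻¹) := by
    intro u
    have hF : Flat (fun p q => U ((u, (p, q)), 2)) (fun p q => U ((u, (p, q)), 3)) W := by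
      intro p q
      have e1 := (hx (u, (p, q))).2.2.2.2
      have e2 : (if p = 0 ∧ q = 0 then W else 1) * plq U (u, (p, q)) 2 3 = 1 := by
        apply mt_inj
        rw [mt_mul, mt_one, ← e1]
        by_cases hpq : p = 0 ∧ q = 0
        · have h0 : ((u, (p, q)) : Si a b l).2 = 0 := by
            obtain ⟨rfl, rfl⟩ := hpq; rfl
          rw [if_pos hpq, if_pos h0, hW, mt_zk, smul_mul_assoc, one_mul]
        · have h0 : ¬((u, (p, q)) : Si a b l).2 = 0 := fun h => hpq
            ⟨congrArg Prod.fst h, congrArg Prod.snd h⟩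
          rw [if_neg hpq, if_neg h0, mt_one, one_mul, one_smul]
      unfold plq at e2
      rw [ee2, ee3] at e2
      beta_reduce
      rw [← mul_assoc, ← mul_assoc, mul_inv_eq_one] at e2
      rw [← mul_assoc, mul_inv_eq_iff_eq_mul] at e2
      rw [← e2, mul_assoc]
    obtain ⟨g, P', Q', h2, h3, h4⟩ := fibre_flat hWc hF
    have h5 : mt Q' * mt P' = zeta N ^ k • (mt P' * mt Q') := by
      have := congrArg (Pool.Agent.H906R3.YM.mt) h2
      rw [mt_mul, mt_mul, mt_mul, hW, mt_zk, smul_mul_assoc, one_mul] at this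
      exact this
    obtain ⟨h, rfl, rfl⟩ := hPQ.uniq P' Q' h5
    refine ⟨fun p q => g p q * h, fun p q => ?_, fun p q => ?_⟩
    · have := h3 p q
      rw [this]
      split_ifs <;> group
    · have := h4 p q
      rw [this]
      split_ifs <;> group
  choose g hg2 hg3 using hfib
  obtain ⟨γ, hγ⟩ : ∃ γ : Si a b l → SU N, γ = fun x => g x.1 x.2.1 x.2.2 := ⟨_, rfl⟩
  have hγ2 : ∀ x : Si a b l, U (x, 2) = γ x * U0 P Q (x, 2) * (γ (x + ee 2))⁻¹ := by
    rintro ⟨u, p, q⟩
    rw [ee2, U0_two, hγ]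
    exact hg2 u p q
  have hγ3 : ∀ x : Si a b l, U (x, 3) = γ x * U0 P Q (x, 3) * (γ (x + ee 3))⁻¹ := by
    rintro ⟨u, p, q⟩
    rw [ee3, U0_three, hγ]
    exact hg3 u p q
  -- the base links
  have hbase : ∀ i : Fin 4, (i = 0 ∨ i = 1) → ∀ u : ZMod a × ZMod b,
      ∃ z : rootsOfUnity N ℂ, ∀ p q, U ((u, (p, q)), i) =
        γ (u, (p, q)) * zch N z * (γ ((u, (p, q)) + ee i))⁻¹ := by
    intro i hi u
    obtain ⟨w, hwd⟩ : ∃ w : ZMod l → ZMod l → SU N, w = fun p q =>
      (γ (u, (p, q)))⁻¹ * U ((u, (p, q)), i) * γ ((u, (p, q)) + ee i) := ⟨_, rfl⟩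
    have key : ∀ (x : Si a b l) (j : Fin 4), (j = 2 ∨ j = 3) →
        U0 P Q (x + ee i, j) = U0 P Q (x, j) := by
      rintro ⟨u', p, q⟩ j hj
      rcases hi with rfl | rfl <;> rcases hj with rfl | rfl
      · rw [ee0, U0_two, U0_two]
      · rw [ee0, U0_three, U0_three]
      · rw [ee1, U0_two, U0_two]
      · rw [ee1, U0_three, U0_three]
    have hpl : ∀ (x : Si a b l) (j : Fin 4), (j = 2 ∨ j = 3) →
        U (x, i) * U (x + ee i, j) = U (x, j) * U (x + ee j, i) := by
      intro x j hj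
      have e1 : plq U x i j = 1 := by
        rcases hi with rfl | rfl <;> rcases hj with rfl | rfl
        · exact (hx x).1
        · exact (hx x).2.1
        · exact (hx x).2.2.1
        · exact (hx x).2.2.2.1
      unfold plq at e1
      rw [mul_inv_eq_one, mul_inv_eq_iff_eq_mul] at e1
      exact e1
    have hrel : ∀ (x : Si a b l) (j : Fin 4), (j = 2 ∨ j = 3) →
        ((γ x)⁻¹ * U (x, i) * γ (x + ee i)) * U0 P Q (x, j) =
          U0 P Q (x, j) * ((γ (x + ee j))⁻¹ * U (x + ee j, i) * γ (x + ee j + ee i)) := by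
      intro x j hj
      have e1 := hpl x j hj
      have e2 : ∀ y : Si a b l, U (y, j) = γ y * U0 P Q (y, j) * (γ (y + ee j))⁻¹ := by
        intro y
        rcases hj with rfl | rfl
        · exact hγ2 y
        · exact hγ3 y
      rw [e2 (x + ee i), e2 x, key x j hj, add_right_comm x (ee i) (ee j)] at e1
      have e3 := congrArg (fun t => (γ x)⁻¹ * t * γ (x + ee j + ee i)) e1
      simp only [mul_assoc, inv_mul_cancel, mul_one, inv_mul_cancel_left] at e3
      simp only [mul_assoc]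
      exact e3
    obtain ⟨z, hz⟩ := cov_const (w := w) hPQ.irr (fun p q => by
        have e1 := hrel (u, (p, q)) 2 (Or.inl rfl)
        rw [U0_two, ee2] at e1
        rw [hwd]
        exact e1) (fun p q => by
        have e1 := hrel (u, (p, q)) 3 (Or.inr rfl)
        rw [U0_three, ee3] at e1
        rw [hwd]
        exact e1)
    refine ⟨z, fun p q => ?_⟩
    have e1 := hz p q
    rw [hwd] at e1
    beta_reduce at e1
    rw [← e1]
    group
  choose z0 hz0 using hbase 0 (Or.inl rfl)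
  choose z1 hz1 using hbase 1 (Or.inr rfl)
  refine ⟨γ, fun u i => if i = 0 then z0 u else z1 u, ?_⟩
  rintro ⟨⟨u, p, q⟩, i⟩
  fin_cases i
  · show U ((u, (p, q)), 0) = γ (u, (p, q)) * (cz N a b l _ ((u, (p, q)), 0) *
      U0 P Q ((u, (p, q)), 0)) * (γ ((u, (p, q)) + ee 0))⁻¹
    rw [cz_zero, U0_zero, mul_one, hz0]
    simp
  · show U ((u, (p, q)), 1) = γ (u, (p, q)) * (cz N a b l _ ((u, (p, q)), 1) *
      U0 P Q ((u, (p, q)), 1)) * (γ ((u, (p, q)) + ee 1))⁻¹
    rw [cz_one, U0_one, mul_one, hz1]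
    simp
  · show U ((u, (p, q)), 2) = γ (u, (p, q)) * (cz N a b l _ ((u, (p, q)), 2) *
      U0 P Q ((u, (p, q)), 2)) * (γ ((u, (p, q)) + ee 2))⁻¹
    rw [cz_two, one_mul]
    exact hγ2 _
  · show U ((u, (p, q)), 3) = γ (u, (p, q)) * (cz N a b l _ ((u, (p, q)), 3) *
      U0 P Q ((u, (p, q)), 3)) * (γ ((u, (p, q)) + ee 3))⁻¹
    rw [cz_three, one_mul]
    exact hγ3 _

end rigid

end

end Pool.Agent.Run7.h630.R2
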