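import Mathlib
import Pool.Agent.Run7.h630.R2.Rig
import Pool.Agent.Run7.h871.YM.Iface

/-!
# The adjoint action in coordinates and the shifts
-/

open MeasureTheory Matrix Filter Pool.Agent.N991.MK Pool.Agent.N989.MK
open scoped Matrix.Norms.Frobenius Topology
open Pool.Agent.H906R3.YM Pool.Agent.W793.YM Pool.Agent.TH618.YM Pool.Agent.N984.TW
open Pool.Agent.Run7.h871.LG (adc nab ipE gt emE qE)

namespace Pool.Agent.Run7.h630.R2

set_option linter.unusedSectionVars false

noncomputable section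

section adj

variable {N n : ℕ} {G : Subgroup (UN N)} (B : Frame G n)

lemma LX_mem (x : Fin n → ℝ) : LX B x ∈ Submodule.span ℝ (Set.range B.X) :=
  Submodule.sum_mem _ fun a _ => Submodule.smul_mem _ _ (Submodule.subset_span ⟨a, rfl⟩)

lemma LX_pc {A : Mat N} (hA : A ∈ Submodule.span ℝ (Set.range B.X)) : LX B (pc B A) = A := by
  induction hA using Submodule.span_induction with
  | mem A hA =>
    obtain ⟨b, rfl⟩ := hA
    unfold LX pc
    have h : ∀ a, ip (B.X a) (B.X b) = if a = b then 1 else 0 := fun a => B.orth a b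
    simp [h]
  | zero =>
    have : pc B (0 : Mat N) = 0 := by funext a; simp [pc]
    rw [this, LX_zero]
  | add A A' _ _ h1 h2 => rw [pc_add, LX_add, h1, h2]
  | smul c A _ h1 =>
    have : pc B (c • A) = c • pc B A := by funext a; simp [pc]
    rw [this, LX_smul, h1]

lemma conj_span (g : G) {A : Mat N} (hA : A ∈ Submodule.span ℝ (Set.range B.X)) :
    mt g * A * (mt g)ᴴ ∈ Submodule.span ℝ (Set.range B.X) := by
  induction hA using Submodule.span_induction with
  | mem A hA =>
    obtain ⟨b, rfl⟩ := hA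
    exact B.conj_mem g b
  | zero => simp
  | add A A' _ _ h1 h2 =>
    rw [mul_add, add_mul]
    exact Submodule.add_mem _ h1 h2
  | smul c A _ h1 =>
    rw [mul_smul_comm, smul_mul_assoc]
    exact Submodule.smul_mem _ _ h1

lemma LX_adc (g : G) (x : Fin n → ℝ) : LX B (adc B g x) = mt g * LX B x * (mt g)ᴴ :=
  LX_pc B (conj_span B g (LX_mem B x))

lemma LX_inj {x y : Fin n → ℝ} (h : LX B x = LX B y) : x = y := by
  rw [← pc_LX B x, h, pc_LX]

lemma mt_inv (g : G) : mt g⁻¹ = (mt g)ᴴ := by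
  have h1 : mt g⁻¹ * mt g = 1 := by rw [← mt_mul, inv_mul_cancel, mt_one]
  have h2 : mt g * (mt g)ᴴ = 1 := rhoG_unit g
  calc mt g⁻¹ = mt g⁻¹ * (mt g * (mt g)ᴴ) := by rw [h2, mul_one]
    _ = _ := by rw [← mul_assoc, h1, one_mul]

lemma adc_one (x : Fin n → ℝ) : adc B 1 x = x := by
  apply LX_inj B
  rw [LX_adc, mt_one, conjTranspose_one, one_mul, mul_one]

lemma adc_mul (g h : G) (x : Fin n → ℝ) : adc B (g * h) x = adc B g (adc B h x) := by
  apply LX_inj B
  rw [LX_adc, LX_adc, LX_adc, mt_mul, conjTranspose_mul]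
  simp only [mul_assoc]

lemma adc_add (g : G) (x y : Fin n → ℝ) : adc B g (x + y) = adc B g x + adc B g y := by
  apply LX_inj B
  rw [LX_adc, LX_add, LX_add, LX_adc, LX_adc, mul_add, add_mul]

lemma adc_smul (g : G) (c : ℝ) (x : Fin n → ℝ) : adc B g (c • x) = c • adc B g x := by
  apply LX_inj B
  rw [LX_adc, LX_smul, LX_smul, LX_adc, mul_smul_comm, smul_mul_assoc]

lemma adc_zero (g : G) : adc B g 0 = 0 := by
  have := adc_smul B g 0 0
  simpa using this

lemma adc_sub (g : G) (x y : Fin n → ℝ) : adc B g (x - y) = adc B g x - adc B g y := by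
  rw [sub_eq_add_neg, adc_add, show -y = (-1 : ℝ) • y by simp, adc_smul]
  simp [sub_eq_add_neg]

/-- the scalar product of coordinates -/
lemma ip_LX (x y : Fin n → ℝ) : ip (LX B x) (LX B y) = ∑ a, x a * y a := by
  have h : ∀ a b, ip (B.X a) (B.X b) = if a = b then 1 else 0 := fun a b => B.orth a b
  have h2 : ∀ M : Mat N, ip (LX B x) M = ∑ a, x a * ip (B.X a) M := by
    intro M
    have h3 : (LX B x)ᴴ * M = ∑ a, x a • ((B.X a)ᴴ * M) := by
      unfold LX
      rw [conjTranspose_sum, Finset.sum_mul]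
      refine Finset.sum_congr rfl fun a _ => ?_
      rw [conjTranspose_smul, smul_mul_assoc, star_trivial]
    rw [ip_apply, h3, trace_sum, Complex.re_sum]
    refine Finset.sum_congr rfl fun a _ => ?_
    rw [trace_smul, Complex.smul_re, ip_apply, smul_eq_mul]
  rw [h2]
  refine Finset.sum_congr rfl fun a _ => ?_
  congr 1
  unfold LX
  rw [map_sum]
  simp [h]

lemma adc_ip (g : G) (x y : Fin n → ℝ) :
    ∑ a, adc B g x a * y a = ∑ a, x a * adc B g⁻¹ y a := by
  rw [← ip_LX B, ← ip_LX B, LX_adc, LX_adc, ip_apply, ip_apply, mt_inv, conjTranspose_mul,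
    conjTranspose_mul, conjTranspose_conjTranspose]
  rw [mul_assoc, trace_mul_comm]
  congr 2
  simp only [mul_assoc]

lemma adc_inv_left (g : G) (x : Fin n → ℝ) : adc B g⁻¹ (adc B g x) = x := by
  rw [← adc_mul, inv_mul_cancel, adc_one]

lemma adc_inv_right (g : G) (x : Fin n → ℝ) : adc B g (adc B g⁻¹ x) = x := by
  rw [← adc_mul, mul_inv_cancel, adc_one]

lemma adc_cen {g : G} (hg : ∀ h : G, g * h = h * g) (hs : ∃ c : ℂ, mt g = c • (1 : Mat N))
    (x : Fin n → ℝ) : adc B g x = x := by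
  apply LX_inj B
  obtain ⟨c, hc⟩ := hs
  have h1 : mt g * (mt g)ᴴ = 1 := rhoG_unit g
  have h2 : mt g * LX B x = LX B x * mt g := by
    rw [hc, smul_mul_assoc, one_mul, mul_smul_comm, mul_one]
  rw [LX_adc, h2, mul_assoc, h1, mul_one]

end adj

section su

variable {N n : ℕ} [NeZero N] (B : Frame (SU N) n)

lemma adc_zch (w : rootsOfUnity N ℂ) (x : Fin n → ℝ) : adc B (zch N w) x = x :=
  adc_cen B (zch_comm w) ⟨_, mt_zch w⟩ x

/-- no invariant vectors -/
lemma adc_inv_zero {P Q : SU N}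
    (irr : ∀ M : Mat N, mt P * M = M * mt P → mt Q * M = M * mt Q → ∃ c : ℂ, M = c • (1 : Mat N))
    {x : Fin n → ℝ} (hP : adc B P x = x) (hQ : adc B Q x = x) : x = 0 := by
  have key : ∀ g : SU N, adc B g x = x → mt g * LX B x = LX B x * mt g := by
    intro g hg
    have h1 := LX_adc B g x
    rw [hg] at h1
    have h2 : (mt g)ᴴ * mt g = 1 := rhoG_unit' g
    conv_rhs => rw [h1]
    rw [mul_assoc, h2, mul_one]
  obtain ⟨c, hc⟩ := irr _ (key P hP) (key Q hQ)
  -- the determinant
  have h1 : ∀ t : ℝ, Complex.exp ((t * c) * N) = 1 := by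
    intro t
    obtain ⟨g, hg⟩ := EM_mem B (SU_closed N) (t • x)
    have h2 : det (mt g) = 1 := g.2
    rw [hg] at h2
    unfold EM at h2
    rw [LX_smul, hc] at h2
    have h3 : t • c • (1 : Mat N) = Matrix.diagonal (fun _ => (t * c : ℂ)) := by
      ext i j
      by_cases h : i = j
      · subst h; simp
      · simp [h]
    rw [h3, Matrix.exp_diagonal, det_diagonal] at h2
    rw [← h2, mul_comm, Complex.exp_nat_mul]
    have h7 : ∀ i : Fin N, NormedSpace.exp (fun _ : Fin N => (t * c : ℂ)) i =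
        Complex.exp (t * c) := by
      intro i
      rw [Pi.coe_exp, Complex.exp_eq_exp_ℂ]
    rw [Finset.prod_congr rfl fun i _ => h7 i, Finset.prod_const, Finset.card_univ,
      Fintype.card_fin]
  have h4 : c = 0 := by
    have hd : HasDerivAt (fun t : ℝ => Complex.exp ((t * c) * N)) (c * N) 0 := by
      have e1 : HasDerivAt (fun t : ℝ => ((t : ℂ) * c) * N) (1 * c * N) 0 :=
        ((Complex.ofRealCLM.hasDerivAt (x := (0 : ℝ))).mul_const c).mul_const (N : ℂ)
      have e2 := e1.cexp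
      simpa using e2
    have h5 : (fun t : ℝ => Complex.exp ((t * c) * N)) = fun _ => 1 := funext h1
    rw [h5] at hd
    have h6 := hd.unique (hasDerivAt_const (0 : ℝ) (1 : ℂ))
    rcases mul_eq_zero.1 h6 with h | h
    · exact h
    · exact absurd h (by exact_mod_cast NeZero.ne N)
  rw [h4, zero_smul] at hc
  apply LX_inj B
  rw [hc, LX_zero]

end su

end

end Pool.Agent.Run7.h630.R2
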