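import Mathlib
import Pool.Agent.Run7.h630.R2.Adj

/-!
# The shifts and the covariant Laplacian
-/

open MeasureTheory Matrix Filter Pool.Agent.N991.MK Pool.Agent.N989.MK
open scoped Matrix.Norms.Frobenius Topology
open Pool.Agent.H906R3.YM Pool.Agent.W793.YM Pool.Agent.TH618.YM Pool.Agent.N984.TW
open Pool.Agent.Run7.h871.LG (adc nab ipE gt emE qE)

namespace Pool.Agent.Run7.h630.R2

set_option linter.unusedSectionVars false

noncomputable section

section ip

variable {K : Type*} [Fintype K] {n : ℕ}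

lemma ipE_comm (x y : K → Fin n → ℝ) : ipE x y = ipE y x := by
  unfold ipE
  exact Finset.sum_congr rfl fun k _ => Finset.sum_congr rfl fun a _ => mul_comm _ _

lemma ipE_add_left (x y z : K → Fin n → ℝ) : ipE (x + y) z = ipE x z + ipE y z := by
  unfold ipE
  simp only [Pi.add_apply, add_mul, Finset.sum_add_distrib]

lemma ipE_add_right (x y z : K → Fin n → ℝ) : ipE z (x + y) = ipE z x + ipE z y := by
  rw [ipE_comm, ipE_add_left, ipE_comm x, ipE_comm y]

lemma ipE_neg_left (x z : K → Fin n → ℝ) : ipE (-x) z = -ipE x z := by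
  unfold ipE
  simp only [Pi.neg_apply, neg_mul, Finset.sum_neg_distrib]

lemma ipE_neg_right (x z : K → Fin n → ℝ) : ipE z (-x) = -ipE z x := by
  rw [ipE_comm, ipE_neg_left, ipE_comm]

lemma ipE_sub_left (x y z : K → Fin n → ℝ) : ipE (x - y) z = ipE x z - ipE y z := by
  rw [sub_eq_add_neg, ipE_add_left, ipE_neg_left, ← sub_eq_add_neg]

lemma ipE_sub_right (x y z : K → Fin n → ℝ) : ipE z (x - y) = ipE z x - ipE z y := by
  rw [sub_eq_add_neg, ipE_add_right, ipE_neg_right, ← sub_eq_add_neg]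

lemma ipE_sum_left {ι : Type*} (s : Finset ι) (x : ι → K → Fin n → ℝ) (z : K → Fin n → ℝ) :
    ipE (∑ i ∈ s, x i) z = ∑ i ∈ s, ipE (x i) z := by
  classical
  induction s using Finset.induction_on with
  | empty => simp [ipE]
  | insert a s ha ih => rw [Finset.sum_insert ha, Finset.sum_insert ha, ipE_add_left, ih]

lemma ipE_sum_right {ι : Type*} (s : Finset ι) (x : ι → K → Fin n → ℝ) (z : K → Fin n → ℝ) :
    ipE z (∑ i ∈ s, x i) = ∑ i ∈ s, ipE z (x i) := by
  rw [ipE_comm, ipE_sum_left]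
  exact Finset.sum_congr rfl fun i _ => ipE_comm _ _

lemma qE_ip (x : K → Fin n → ℝ) : qE x = ipE x x := by
  unfold Pool.Agent.Run7.h871.LG.qE ipE
  refine Finset.sum_congr rfl fun k _ => ?_
  rw [Pool.Agent.N991.MK.nE_sq]
  exact Finset.sum_congr rfl fun a _ => sq _

lemma qE_zero {x : K → Fin n → ℝ} (h : qE x = 0) : x = 0 := by
  rw [qE_ip] at h
  unfold ipE at h
  funext k a
  have h1 := (Finset.sum_eq_zero_iff_of_nonneg fun k _ =>
    Finset.sum_nonneg fun a _ => mul_self_nonneg (x k a)).1 h k (Finset.mem_univ k)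
  have h2 := (Finset.sum_eq_zero_iff_of_nonneg fun a _ => mul_self_nonneg (x k a)).1 h1 a
    (Finset.mem_univ a)
  exact mul_self_eq_zero.1 h2

lemma ipE_self_nonneg (x : K → Fin n → ℝ) : 0 ≤ ipE x x := by
  rw [← qE_ip]; exact Pool.Agent.Run7.h871.LG.qE_nonneg x

end ip

section shift

variable {N n : ℕ} [NeZero N] (B : Frame (SU N) n) {a b l : ℕ} [NeZero a] [NeZero b] [NeZero l]
  (P Q : SU N)

/-- functions on the sites -/
abbrev V (a b l n : ℕ) := Si a b l → Fin n → ℝ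

/-- the covariant shift -/
def Ts (i : Fin 4) : V a b l n →ₗ[ℝ] V a b l n where
  toFun f := fun v => adc B (U0 P Q (v, i)) (f (v + ee i))
  map_add' := by intro f g; funext v; exact adc_add B _ _ _
  map_smul' := by intro c f; funext v; exact adc_smul B _ _ _

/-- the inverse shift -/
def Tt (i : Fin 4) : V a b l n →ₗ[ℝ] V a b l n where
  toFun f := fun v => adc B (U0 P Q (v - ee i, i))⁻¹ (f (v - ee i))
  map_add' := by intro f g; funext v; exact adc_add B _ _ _
  map_smul' := by intro c f; funext v; exact adc_smul B _ _ _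

lemma Ts_apply (i : Fin 4) (f : V a b l n) (v : Si a b l) :
    Ts B P Q i f v = adc B (U0 P Q (v, i)) (f (v + ee i)) := rfl

lemma Tt_apply (i : Fin 4) (f : V a b l n) (v : Si a b l) :
    Tt B P Q i f v = adc B (U0 P Q (v - ee i, i))⁻¹ (f (v - ee i)) := rfl

lemma Ts_Tt (i : Fin 4) (f : V a b l n) : Ts B P Q i (Tt B P Q i f) = f := by
  funext v
  rw [Ts_apply, Tt_apply, add_sub_cancel_right, adc_inv_right]

lemma Tt_Ts (i : Fin 4) (f : V a b l n) : Tt B P Q i (Ts B P Q i f) = f := by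
  funext v
  rw [Tt_apply, Ts_apply, sub_add_cancel, adc_inv_left]

lemma ip_Ts (i : Fin 4) (f g : V a b l n) : ipE (Ts B P Q i f) g = ipE f (Tt B P Q i g) := by
  unfold ipE
  rw [← Equiv.sum_comp (Equiv.addRight (ee i : Si a b l))
    (fun v => ∑ c, f v c * Tt B P Q i g v c)]
  refine Finset.sum_congr rfl fun v _ => ?_
  simp only [Ts_apply, Tt_apply, Equiv.coe_addRight, add_sub_cancel_right]
  exact adc_ip B _ _ _

variable {P Q} {k : ℕ}

/-- the vacuum is flat up to the centre -/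
lemma U0_flat (hPQ : TwPair N (zeta N ^ k) P Q) (v : Si a b l) (i j : Fin 4) :
    ∃ w : rootsOfUnity N ℂ, U0 P Q (v, i) * U0 P Q (v + ee i, j) =
      zch N w * (U0 P Q (v, j) * U0 P Q (v + ee j, i)) := by
  have hc : Q * P = zch N (zk N k) * (P * Q) := by
    apply mt_inj
    rw [mt_mul, mt_mul, mt_mul, mt_zk, smul_mul_assoc, one_mul]
    exact hPQ.comm
  obtain ⟨u, p, q⟩ := v
  have h23 : U0 P Q (((u, (p, q)) : Si a b l), 3) * U0 P Q (((u, (p, q)) : Si a b l) + ee 3, 2) =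
      zch N (if p = 0 ∧ q = 0 then zk N k else 1) * (U0 P Q (((u, (p, q)) : Si a b l), 2) *
        U0 P Q (((u, (p, q)) : Si a b l) + ee 2, 3)) := by
    rw [ee2, ee3, U0_two, U0_three, U0_two, U0_three]
    by_cases hp : p = 0 <;> by_cases hq : q = 0
    · subst hp; subst hq; simpa using hc
    · simp [hp, hq]
    · simp [hp, hq]
    · simp [hp, hq]
  fin_cases i <;> fin_cases j
  · exact ⟨1, by simp⟩
  · exact ⟨1, by simp [ee0, ee1, U0_zero, U0_one]⟩
  · exact ⟨1, by simp [ee0, ee2, U0_zero, U0_two]⟩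
  · exact ⟨1, by simp [ee0, ee3, U0_zero, U0_three]⟩
  · exact ⟨1, by simp [ee0, ee1, U0_zero, U0_one]⟩
  · exact ⟨1, by simp⟩
  · exact ⟨1, by simp [ee1, ee2, U0_one, U0_two]⟩
  · exact ⟨1, by simp [ee1, ee3, U0_one, U0_three]⟩
  · exact ⟨1, by simp [ee0, ee2, U0_zero, U0_two]⟩
  · exact ⟨1, by simp [ee1, ee2, U0_one, U0_two]⟩
  · exact ⟨1, by simp⟩
  · refine ⟨(if p = 0 ∧ q = 0 then zk N k else 1)⁻¹, ?_⟩
    show U0 P Q (((u, (p, q)) : Si a b l), 2) * U0 P Q (((u, (p, q)) : Si a b l) + ee 2, 3) =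
      zch N (if p = 0 ∧ q = 0 then zk N k else 1)⁻¹ * (U0 P Q (((u, (p, q)) : Si a b l), 3) *
        U0 P Q (((u, (p, q)) : Si a b l) + ee 3, 2))
    rw [h23, map_inv, inv_mul_cancel_left]
  · exact ⟨1, by simp [ee0, ee3, U0_zero, U0_three]⟩
  · exact ⟨1, by simp [ee1, ee3, U0_one, U0_three]⟩
  · exact ⟨_, h23⟩
  · exact ⟨1, by simp⟩

lemma Ts_comm (hPQ : TwPair N (zeta N ^ k) P Q) (i j : Fin 4) (f : V a b l n) :
    Ts B P Q i (Ts B P Q j f) = Ts B P Q j (Ts B P Q i f) := by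
  funext v
  rw [Ts_apply, Ts_apply, Ts_apply, Ts_apply, ← adc_mul, ← adc_mul,
    add_right_comm v (ee i) (ee j)]
  obtain ⟨w, hw⟩ := U0_flat hPQ v i j
  rw [hw, adc_mul, adc_zch]

lemma Tt_Ts_comm (hPQ : TwPair N (zeta N ^ k) P Q) (i j : Fin 4) (f : V a b l n) :
    Tt B P Q j (Ts B P Q i f) = Ts B P Q i (Tt B P Q j f) := by
  have h := Ts_comm B hPQ i j (Tt B P Q j f)
  rw [Ts_Tt] at h
  rw [h, Tt_Ts]

/-- the covariant differences -/
def Ad (P Q : SU N) (i : Fin 4) : V a b l n →ₗ[ℝ] V a b l n := Ts B P Q i - 1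

/-- their adjoints -/
def As (P Q : SU N) (i : Fin 4) : V a b l n →ₗ[ℝ] V a b l n := Tt B P Q i - 1

lemma Ad_apply (i : Fin 4) (f : V a b l n) : Ad B P Q i f = Ts B P Q i f - f := rfl

lemma As_apply (i : Fin 4) (f : V a b l n) : As B P Q i f = Tt B P Q i f - f := rfl

lemma ip_Ad (i : Fin 4) (f g : V a b l n) : ipE (Ad B P Q i f) g = ipE f (As B P Q i g) := by
  rw [Ad_apply, As_apply, ipE_sub_left, ipE_sub_right, ip_Ts]

lemma Ad_comm (hPQ : TwPair N (zeta N ^ k) P Q) (i j : Fin 4) (f : V a b l n) :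
    Ad B P Q i (Ad B P Q j f) = Ad B P Q j (Ad B P Q i f) := by
  simp only [Ad_apply, map_sub]
  rw [Ts_comm B hPQ i j]
  abel

lemma As_Ad_comm (hPQ : TwPair N (zeta N ^ k) P Q) (i j : Fin 4) (f : V a b l n) :
    As B P Q j (Ad B P Q i f) = Ad B P Q i (As B P Q j f) := by
  simp only [Ad_apply, As_apply, map_sub]
  rw [Tt_Ts_comm B hPQ i j]
  abel

/-- the covariant Laplacian -/
def La (P Q : SU N) : V a b l n →ₗ[ℝ] V a b l n := ∑ i, As B P Q i ∘ₗ Ad B P Q i

lemma La_apply (f : V a b l n) : La B P Q f = ∑ i, As B P Q i (Ad B P Q i f) := by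
  unfold La
  rw [LinearMap.sum_apply]
  rfl

lemma La_apply' (f : V a b l n) :
    La B P Q f = ∑ i, ((2 : ℝ) • f - Ts B P Q i f - Tt B P Q i f) := by
  rw [La_apply]
  refine Finset.sum_congr rfl fun i _ => ?_
  rw [Ad_apply, As_apply, map_sub, Tt_Ts, two_smul]
  abel

lemma ip_La (f : V a b l n) : ipE f (La B P Q f) = ∑ i, ipE (Ad B P Q i f) (Ad B P Q i f) := by
  rw [La_apply, ipE_sum_right]
  refine Finset.sum_congr rfl fun i _ => ?_
  rw [ip_Ad]

lemma ip_La_symm (f g : V a b l n) : ipE f (La B P Q g) = ipE (La B P Q f) g := by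
  rw [La_apply, La_apply, ipE_sum_right, ipE_sum_left]
  refine Finset.sum_congr rfl fun i _ => ?_
  rw [← ip_Ad, ipE_comm (As B P Q i _) g, ← ip_Ad, ipE_comm]

/-- covariantly constant functions vanish -/
lemma cov_zero (irr : ∀ M : Mat N, mt P * M = M * mt P → mt Q * M = M * mt Q →
      ∃ c : ℂ, M = c • (1 : Mat N)) {w : ZMod l → ZMod l → Fin n → ℝ}
    (h1 : ∀ p q, w p q = adc B (if p = 0 then P else 1) (w (p + 1) q))
    (h2 : ∀ p q, w p q = adc B (if q = 0 then Q else 1) (w p (q + 1))) (p q : ZMod l) :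
    w p q = 0 := by
  have hl : 0 < l := NeZero.pos l
  have hne : ∀ i : ℕ, i + 1 < l → (1 + (i : ZMod l)) ≠ 0 := by
    intro i hi h
    have h2 : ((1 + i : ℕ) : ZMod l) = 0 := by push_cast; exact h
    rw [ZMod.natCast_eq_zero_iff] at h2
    have := Nat.le_of_dvd (by omega) h2
    omega
  have hr : ∀ p : ZMod l, ∃ i : ℕ, i < l ∧ p = 1 + (i : ZMod l) := fun p =>
    ⟨(p - 1).val, ZMod.val_lt _, by simp⟩
  have a1 : ∀ (i : ℕ), i < l → ∀ q, w (1 + (i : ZMod l)) q = w 1 q := by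
    intro i
    induction i with
    | zero => intro _ q; simp
    | succ i ih =>
      intro hi q
      have h3 := h1 (1 + (i : ZMod l)) q
      rw [if_neg (hne i hi), adc_one] at h3
      rw [← ih (by omega), h3]
      push_cast
      rw [add_assoc]
  have a2 : ∀ (i : ℕ), i < l → ∀ p, w p (1 + (i : ZMod l)) = w p 1 := by
    intro i
    induction i with
    | zero => intro _ q; simp
    | succ i ih =>
      intro hi p
      have h3 := h2 p (1 + (i : ZMod l))
      rw [if_neg (hne i hi), adc_one] at h3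
      rw [← ih (by omega), h3]
      push_cast
      rw [add_assoc]
  have a3 : ∀ p q, w p q = w 1 1 := by
    intro p q
    obtain ⟨i, hi, rfl⟩ := hr p
    obtain ⟨j, hj, rfl⟩ := hr q
    rw [a1 i hi, a2 j hj]
  have b1 := h1 0 1
  have b2 := h2 1 0
  rw [if_pos rfl, a3 0 1, a3 (0 + 1) 1] at b1
  rw [if_pos rfl, a3 1 0, a3 1 (0 + 1)] at b2
  rw [a3]
  exact adc_inv_zero B irr b1.symm b2.symm

/-- the kernel of the fibre part -/
lemma fib_ker (hPQ : TwPair N (zeta N ^ k) P Q) {f : V a b l n} (h2 : Ad B P Q 2 f = 0)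
    (h3 : Ad B P Q 3 f = 0) : f = 0 := by
  funext v
  obtain ⟨u, p, q⟩ := v
  refine cov_zero B hPQ.irr (w := fun p q => f (u, (p, q))) (fun p q => ?_) (fun p q => ?_) p q
  · have e1 := congrFun h2 (u, (p, q))
    rw [Ad_apply, Pi.sub_apply, Ts_apply, ee2, U0_two, Pi.zero_apply, sub_eq_zero] at e1
    exact e1.symm
  · have e1 := congrFun h3 (u, (p, q))
    rw [Ad_apply, Pi.sub_apply, Ts_apply, ee3, U0_three, Pi.zero_apply, sub_eq_zero] at e1
    exact e1.symm

lemma La_ker (hPQ : TwPair N (zeta N ^ k) P Q) {f : V a b l n}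
    (h : ipE f (La B P Q f) = 0) : f = 0 := by
  rw [ip_La] at h
  have h1 := fun i => (Finset.sum_eq_zero_iff_of_nonneg fun i _ =>
    ipE_self_nonneg (Ad B P Q i f)).1 h i (Finset.mem_univ i)
  refine fib_ker B hPQ (qE_zero ?_) (qE_zero ?_)
  · rw [qE_ip]; exact h1 2
  · rw [qE_ip]; exact h1 3

end shift

end

end Pool.Agent.Run7.h630.R2
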