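import Mathlib
import Pool.Agent.Run7.h630.R2.Shift

/-!
# The linearised theory
-/

open MeasureTheory Matrix Filter Pool.Agent.N991.MK Pool.Agent.N989.MK
open scoped Matrix.Norms.Frobenius Topology
open Pool.Agent.H906R3.YM Pool.Agent.W793.YM Pool.Agent.TH618.YM Pool.Agent.N984.TW
open Pool.Agent.Run7.h871.LG (adc nab ipE gt emE qE)

namespace Pool.Agent.Run7.h630.R2

set_option linter.unusedSectionVars false

noncomputable section

variable {N n : ℕ} [NeZero N] (B : Frame (SU N) n) {a b l : ℕ} [NeZero a] [NeZero b] [NeZero l]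
  (P Q : SU N) {k : ℕ}

/-- one forms -/
abbrev V1 (a b l n : ℕ) := Lk a b l → Fin n → ℝ

/-- the plaquettes -/
abbrev Pq (a b l : ℕ) := Si a b l × Fin 4 × Fin 4

/-- the component of a one form -/
def cm (i : Fin 4) : V1 a b l n →ₗ[ℝ] V a b l n where
  toFun x := fun v => x (v, i)
  map_add' := by intro x y; rfl
  map_smul' := by intro c x; rfl

lemma cm_apply (i : Fin 4) (x : V1 a b l n) (v : Si a b l) : cm i x v = x (v, i) := rfl

/-- the linearised curvature -/
def Dc : V1 a b l n →ₗ[ℝ] (Pq a b l → Fin n → ℝ) :=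
  LinearMap.pi fun e => if e.2.1 < e.2.2 then LinearMap.proj e.1 ∘ₗ
    (Ad B P Q e.2.1 ∘ₗ cm e.2.2 - Ad B P Q e.2.2 ∘ₗ cm e.2.1) else 0

lemma Dc_apply (x : V1 a b l n) (v : Si a b l) (i j : Fin 4) : Dc B P Q x (v, i, j) =
    if i < j then Ad B P Q i (cm j x) v - Ad B P Q j (cm i x) v else 0 := by
  unfold Dc
  rw [LinearMap.pi_apply]
  by_cases h : i < j
  · simp only [h, if_true]
    rfl
  · simp only [h, if_false]
    rfl

/-- the linearised divergence -/
def dvc : V1 a b l n →ₗ[ℝ] V a b l n := -∑ i, As B P Q i ∘ₗ cm i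

lemma dvc_apply (x : V1 a b l n) : dvc B P Q x = -∑ i, As B P Q i (cm i x) := by
  unfold dvc
  rw [LinearMap.neg_apply, LinearMap.sum_apply]
  rfl

/-- source and target -/
def sr : Lk a b l → Si a b l := fun e => e.1

/-- target -/
def tgt : Lk a b l → Si a b l := fun e => e.1 + ee e.2

lemma cm_nab (f : V a b l n) (i : Fin 4) :
    cm i (nab B sr tgt (U0 P Q) f) = -Ad B P Q i f := by
  funext v
  rw [cm_apply]
  show f v - adc B (U0 P Q (v, i)) (f (v + ee i)) = -(Ts B P Q i f - f) v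
  rw [Pi.sub_apply, neg_sub, Ts_apply]

variable {P Q}

lemma dvc_nab (f : V a b l n) : dvc B P Q (nab B sr tgt (U0 P Q) f) = La B P Q f := by
  rw [dvc_apply, La_apply]
  simp only [cm_nab, map_neg, Finset.sum_neg_distrib, neg_neg]

lemma Dc_nab (hPQ : TwPair N (zeta N ^ k) P Q) (f : V a b l n) :
    Dc B P Q (nab B sr tgt (U0 P Q) f) = 0 := by
  funext e
  obtain ⟨v, i, j⟩ := e
  rw [Dc_apply, cm_nab, cm_nab, map_neg, map_neg, Ad_comm B hPQ i j]
  split_ifs <;> simp

lemma ip_split (x y : V1 a b l n) : ipE x y = ∑ i, ipE (cm i x) (cm i y) := by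
  unfold ipE
  rw [Fintype.sum_prod_type, Finset.sum_comm]
  rfl

lemma dvc_adj (x : V1 a b l n) (f : V a b l n) :
    ipE (dvc B P Q x) f = ipE x (nab B sr tgt (U0 P Q) f) := by
  rw [dvc_apply, ip_split, ipE_neg_left, ipE_sum_left, ← Finset.sum_neg_distrib]
  refine Finset.sum_congr rfl fun i _ => ?_
  rw [cm_nab, ipE_neg_right, ipE_comm, ← ip_Ad, ipE_comm]

lemma nab_ker (hPQ : TwPair N (zeta N ^ k) P Q) (f : V a b l n)
    (h : nab B sr tgt (U0 P Q) f = 0) : f = 0 := by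
  refine La_ker B hPQ ?_
  rw [← dvc_nab, h, map_zero]
  simp [ipE]

/-- the energy of one forms -/
lemma energy (hPQ : TwPair N (zeta N ^ k) P Q) (x : V1 a b l n) :
    qE (Dc B P Q x) + qE (dvc B P Q x) = ∑ j, ipE (cm j x) (La B P Q (cm j x)) := by
  have h1 : qE (Dc B P Q x) = ∑ i, ∑ j, if i < j then
      ipE (Ad B P Q i (cm j x) - Ad B P Q j (cm i x))
        (Ad B P Q i (cm j x) - Ad B P Q j (cm i x)) else 0 := by
    rw [qE_ip]
    unfold ipE
    rw [Fintype.sum_prod_type, Finset.sum_comm, Fintype.sum_prod_type]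
    refine Finset.sum_congr rfl fun i _ => Finset.sum_congr rfl fun j _ => ?_
    by_cases h : i < j
    · rw [if_pos h]
      refine Finset.sum_congr rfl fun v _ => ?_
      rw [Dc_apply, if_pos h]
      rfl
    · rw [if_neg h]
      refine Finset.sum_eq_zero fun v _ => ?_
      rw [Dc_apply, if_neg h]
      simp
  have h2 : ∀ F : Fin 4 → Fin 4 → ℝ, (∀ i j, F i j = F j i) → (∀ i, F i i = 0) →
      (∑ i, ∑ j, if i < j then F i j else 0) = 1 / 2 * ∑ i, ∑ j, F i j := by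
    intro F hF h0
    simp only [Fin.sum_univ_four]
    simp only [h0, hF 1 0, hF 2 0, hF 2 1, hF 3 0, hF 3 1, hF 3 2]
    simp [Fin.lt_def]
    ring
  rw [h1, h2 _ (fun i j => by
    rw [← neg_sub (Ad B P Q j (cm i x)), ipE_neg_left, ipE_neg_right, neg_neg]) (fun i => by
    rw [sub_self]; simp [ipE])]
  have h3 : ∀ i j : Fin 4, ipE (Ad B P Q i (cm j x) - Ad B P Q j (cm i x))
      (Ad B P Q i (cm j x) - Ad B P Q j (cm i x)) =
      ipE (Ad B P Q i (cm j x)) (Ad B P Q i (cm j x)) +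
        ipE (Ad B P Q j (cm i x)) (Ad B P Q j (cm i x)) -
        2 * ipE (Ad B P Q i (cm j x)) (Ad B P Q j (cm i x)) := by
    intro i j
    rw [ipE_sub_left, ipE_sub_right, ipE_sub_right, ipE_comm (Ad B P Q j (cm i x))]
    ring
  have h4 : qE (dvc B P Q x) = ∑ i, ∑ j, ipE (Ad B P Q i (cm j x)) (Ad B P Q j (cm i x)) := by
    rw [qE_ip, dvc_apply, ipE_neg_left, ipE_neg_right, neg_neg, ipE_sum_left]
    refine Finset.sum_congr rfl fun i _ => ?_
    rw [ipE_sum_right]
    refine Finset.sum_congr rfl fun j _ => ?_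
    rw [← ip_Ad, ← As_Ad_comm B hPQ, ipE_comm, ← ip_Ad]
  have h5 : ∑ j, ipE (cm j x) (La B P Q (cm j x)) =
      ∑ i, ∑ j, ipE (Ad B P Q i (cm j x)) (Ad B P Q i (cm j x)) := by
    rw [Finset.sum_comm]
    exact Finset.sum_congr rfl fun j _ => ip_La B _
  have h6 : ∑ i, ∑ j, ipE (Ad B P Q j (cm i x)) (Ad B P Q j (cm i x)) =
      ∑ i, ∑ j, ipE (Ad B P Q i (cm j x)) (Ad B P Q i (cm j x)) := Finset.sum_comm
  simp only [h3, Finset.sum_sub_distrib, Finset.sum_add_distrib, ← Finset.mul_sum]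
  rw [h4, h5, h6]
  ring

lemma nondeg (hPQ : TwPair N (zeta N ^ k) P Q) (x : V1 a b l n) (h1 : Dc B P Q x = 0)
    (h2 : dvc B P Q x = 0) : x = 0 := by
  have h3 := energy B hPQ x
  rw [h1, h2] at h3
  have h0 : ∀ (K : Type) [Fintype K], qE (0 : K → Fin n → ℝ) = 0 := fun K _ => by
    rw [qE_ip]; simp [ipE]
  rw [h0, h0, add_zero] at h3
  have h4 := fun j => (Finset.sum_eq_zero_iff_of_nonneg fun j _ => by
    rw [ip_La]
    exact Finset.sum_nonneg fun i _ => ipE_self_nonneg _).1 h3.symm j (Finset.mem_univ j)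
  funext e
  obtain ⟨v, j⟩ := e
  exact congrFun (La_ker B hPQ (h4 j)) v

end

end Pool.Agent.Run7.h630.R2
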