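import Mathlib
import Pool.Agent.Run7.h630.R2.Lin

/-!
# Gaussian integrals and the determinant of the covariant Laplacian
-/

open MeasureTheory Matrix Filter Pool.Agent.N991.MK Pool.Agent.N989.MK
open scoped Matrix.Norms.Frobenius Topology
open Pool.Agent.H906R3.YM Pool.Agent.W793.YM Pool.Agent.TH618.YM Pool.Agent.N984.TW
open Pool.Agent.Run7.h871.LG (adc nab ipE gt emE qE)

namespace Pool.Agent.Run7.h630.R2

set_option linter.unusedSectionVars false

noncomputable section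

/-- linear change of variables -/
lemma int_lin {W : Type*} [NormedAddCommGroup W] [NormedSpace ℝ W] [MeasurableSpace W]
    [BorelSpace W] [FiniteDimensional ℝ W] (μ : Measure W) [μ.IsAddHaarMeasure] (T : W →ₗ[ℝ] W)
    (hT : LinearMap.det T ≠ 0) {F : W → ℝ} (hF : Continuous F) :
    ∫ x, F (T x) ∂μ = |LinearMap.det T|⁻¹ * ∫ x, F x ∂μ := by
  have h1 := Measure.map_linearMap_addHaar_eq_smul_addHaar μ hT
  have hc : Continuous T := T.continuous_of_finiteDimensional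
  have h2 : ∫ x, F (T x) ∂μ = ∫ y, F y ∂(Measure.map T μ) :=
    (integral_map hc.aemeasurable hF.aestronglyMeasurable).symm
  rw [h2, h1, integral_smul_measure, ENNReal.toReal_ofReal (abs_nonneg _), abs_inv, smul_eq_mul]

lemma int_lin' {K : Type*} [Fintype K] {n : ℕ} (T : (K → Fin n → ℝ) →ₗ[ℝ] (K → Fin n → ℝ))
    (hT : LinearMap.det T ≠ 0) {F : (K → Fin n → ℝ) → ℝ} (hF : Continuous F) :
    ∫ x, F (T x) = |LinearMap.det T|⁻¹ * ∫ x, F x := int_lin volume T hT hF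

section gen

variable {K : Type*} [Fintype K] [DecidableEq K] {n : ℕ}

/-- uncurrying -/
def ku (K : Type*) (n : ℕ) : (K → Fin n → ℝ) ≃ₗ[ℝ] (K × Fin n → ℝ) :=
  (LinearEquiv.curry ℝ ℝ K (Fin n)).symm

lemma ku_apply (f : K → Fin n → ℝ) (e : K × Fin n) : ku K n f e = f e.1 e.2 := rfl

lemma ipE_ku (f g : K → Fin n → ℝ) : ipE f g = ku K n f ⬝ᵥ ku K n g := by
  unfold ipE dotProduct
  rw [Fintype.sum_prod_type]
  rfl

/-- the matrix of an operator -/
def mx (T : (K → Fin n → ℝ) →ₗ[ℝ] (K → Fin n → ℝ)) : Matrix (K × Fin n) (K × Fin n) ℝ :=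
  LinearMap.toMatrix' ((ku K n).toLinearMap ∘ₗ T ∘ₗ (ku K n).symm.toLinearMap)

lemma mx_mulVec (T : (K → Fin n → ℝ) →ₗ[ℝ] (K → Fin n → ℝ)) (x : K × Fin n → ℝ) :
    mx T *ᵥ x = ku K n (T ((ku K n).symm x)) := by
  unfold mx
  rw [← Matrix.toLin'_apply, Matrix.toLin'_toMatrix']
  rfl

lemma det_mx (T : (K → Fin n → ℝ) →ₗ[ℝ] (K → Fin n → ℝ)) : det (mx T) = LinearMap.det T := by
  unfold mx
  rw [LinearMap.det_toMatrix']
  exact LinearMap.det_conj T (ku K n)

lemma mx_dot (T : (K → Fin n → ℝ) →ₗ[ℝ] (K → Fin n → ℝ)) (x y : K × Fin n → ℝ) :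
    x ⬝ᵥ (mx T *ᵥ y) = ipE ((ku K n).symm x) (T ((ku K n).symm y)) := by
  rw [mx_mulVec, ipE_ku]
  simp

lemma mx_herm {T : (K → Fin n → ℝ) →ₗ[ℝ] (K → Fin n → ℝ)}
    (hT : ∀ f g, ipE f (T g) = ipE (T f) g) : (mx T).IsHermitian := by
  refine Matrix.IsHermitian.ext fun i j => ?_
  have h : ∀ i j, mx T i j = ipE ((ku K n).symm (Pi.single i 1)) (T ((ku K n).symm (Pi.single j 1))) := by
    intro i j
    rw [← mx_dot]
    simp
  rw [h, h, star_trivial, hT, ipE_comm]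

lemma mx_psd {T : (K → Fin n → ℝ) →ₗ[ℝ] (K → Fin n → ℝ)}
    (hT : ∀ f g, ipE f (T g) = ipE (T f) g) (h0 : ∀ f, 0 ≤ ipE f (T f)) : (mx T).PosSemidef := by
  refine Matrix.PosSemidef.of_dotProduct_mulVec_nonneg (mx_herm hT) fun x => ?_
  rw [star_trivial, mx_dot]
  exact h0 _

lemma psd_root {E : Type*} [Fintype E] [DecidableEq E] {H : Matrix E E ℝ} (hH : H.PosSemidef) :
    ∃ M : Matrix E E ℝ, H = Mᴴ * M := by
  obtain ⟨V, hV⟩ : ∃ V : Matrix E E ℝ, V = (hH.isHermitian.eigenvectorUnitary : Matrix E E ℝ) :=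
    ⟨_, rfl⟩
  have h1 : H = V * Matrix.diagonal hH.isHermitian.eigenvalues * star V := by
    have := hH.isHermitian.spectral_theorem
    rw [hV]
    conv_lhs => rw [this]
    simp [Unitary.conjStarAlgAut_apply]
  refine ⟨Matrix.diagonal (fun e => Real.sqrt (hH.isHermitian.eigenvalues e)) * star V, ?_⟩
  rw [conjTranspose_mul, diagonal_conjTranspose, star_eq_conjTranspose,
    conjTranspose_conjTranspose]
  have h2 : V * diagonal (star fun e => Real.sqrt (hH.isHermitian.eigenvalues e)) *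
      (diagonal (fun e => Real.sqrt (hH.isHermitian.eigenvalues e)) * Vᴴ) =
      V * (diagonal (star fun e => Real.sqrt (hH.isHermitian.eigenvalues e)) *
        diagonal (fun e => Real.sqrt (hH.isHermitian.eigenvalues e))) * Vᴴ := by
    simp only [mul_assoc]
  rw [h2, diagonal_mul_diagonal]
  conv_lhs => rw [h1]
  congr 3
  funext e
  simp only [Pi.star_apply, star_trivial]
  exact (Real.mul_self_sqrt (hH.eigenvalues_nonneg e)).symm

/-- a square root -/
lemma exists_root {T : (K → Fin n → ℝ) →ₗ[ℝ] (K → Fin n → ℝ)}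
    (hT : ∀ f g, ipE f (T g) = ipE (T f) g) (h0 : ∀ f, 0 ≤ ipE f (T f)) :
    ∃ R : (K → Fin n → ℝ) →ₗ[ℝ] (K → Fin n → ℝ), (∀ f, qE (R f) = ipE f (T f)) ∧
      LinearMap.det R ^ 2 = LinearMap.det T := by
  obtain ⟨M, hM⟩ := psd_root (mx_psd hT h0)
  refine ⟨(ku K n).symm.toLinearMap ∘ₗ Matrix.toLin' M ∘ₗ (ku K n).toLinearMap, fun f => ?_, ?_⟩
  · rw [qE_ip, ipE_ku]
    have h1 : ku K n (((ku K n).symm.toLinearMap ∘ₗ Matrix.toLin' M ∘ₗ (ku K n).toLinearMap) f) =
        M *ᵥ ku K n f := by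
      simp
    rw [h1]
    have h2 := mx_dot T (ku K n f) (ku K n f)
    rw [LinearEquiv.symm_apply_apply] at h2
    rw [← h2, hM, ← Matrix.mulVec_mulVec, Matrix.dotProduct_mulVec (ku K n f)]
    congr 1
    ext i
    simp [Matrix.vecMul, Matrix.mulVec, dotProduct, mul_comm]
  · have h1 : LinearMap.det ((ku K n).symm.toLinearMap ∘ₗ Matrix.toLin' M ∘ₗ
        (ku K n).toLinearMap) = det M := by
      have := LinearMap.det_conj (Matrix.toLin' M) (ku K n).symm
      rw [LinearMap.det_toLin'] at this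
      exact this
    rw [h1, ← det_mx, hM, det_mul, det_conjTranspose, star_trivial, sq]

lemma ipE_cont : Continuous fun f : K → Fin n → ℝ => ipE f f := by
  unfold ipE
  fun_prop

/-- positive definite forms -/
lemma pos_bound {F : (K → Fin n → ℝ) → ℝ} (hc : Continuous F)
    (hs : ∀ (c : ℝ) f, F (c • f) = c ^ 2 * F f) (hF : ∀ f, 0 ≤ F f) (h0 : ∀ f, F f = 0 → f = 0) :
    ∃ x0 : ℝ, 0 < x0 ∧ ∀ f, x0 * ipE f f ≤ F f := by
  have hK : IsCompact {f : K → Fin n → ℝ | ipE f f = 1} := by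
    refine (Pool.Agent.Run7.h871.LG.isCompact_qE (E := K) (n := n) 1).of_isClosed_subset
      (isClosed_eq ipE_cont continuous_const) fun f hf => ?_
    show qE f ≤ 1
    rw [qE_ip]
    exact le_of_eq hf
  rcases Set.eq_empty_or_nonempty {f : K → Fin n → ℝ | ipE f f = 1} with he | hne
  · refine ⟨1, one_pos, fun f => ?_⟩
    have h1 : ipE f f = 0 := by
      by_contra h
      have hp : 0 < ipE f f := lt_of_le_of_ne (ipE_self_nonneg f) (Ne.symm h)
      have h2 : ((Real.sqrt (ipE f f))⁻¹ • f) ∈ {f : K → Fin n → ℝ | ipE f f = 1} := by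
        show ipE ((Real.sqrt (ipE f f))⁻¹ • f) ((Real.sqrt (ipE f f))⁻¹ • f) = 1
        rw [← qE_ip, Pool.Agent.Run7.h871.LG.qE_smul, inv_pow, Real.sq_sqrt hp.le, qE_ip]
        exact inv_mul_cancel₀ h
      rw [he] at h2
      exact h2
    rw [h1, mul_zero]
    exact hF f
  · obtain ⟨f0, hf0, hmin⟩ := hK.exists_isMinOn hne hc.continuousOn
    have hp0 : 0 < F f0 := by
      refine lt_of_le_of_ne (hF f0) fun h => ?_
      have h1 := h0 f0 h.symm
      have h2 : ipE f0 f0 = 1 := hf0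
      rw [h1] at h2
      simp [ipE] at h2
    refine ⟨F f0, hp0, fun f => ?_⟩
    rcases eq_or_lt_of_le (ipE_self_nonneg f) with h | h
    · rw [← h, mul_zero]; exact hF f
    · have h2 : ((Real.sqrt (ipE f f))⁻¹ • f) ∈ {f : K → Fin n → ℝ | ipE f f = 1} := by
        show ipE ((Real.sqrt (ipE f f))⁻¹ • f) ((Real.sqrt (ipE f f))⁻¹ • f) = 1
        rw [← qE_ip, Pool.Agent.Run7.h871.LG.qE_smul, inv_pow, Real.sq_sqrt h.le, qE_ip]
        exact inv_mul_cancel₀ h.ne'
      have h3 := isMinOn_iff.1 hmin _ h2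
      rw [hs, inv_pow, Real.sq_sqrt h.le, inv_mul_eq_div, le_div_iff₀ h] at h3
      exact h3

end gen

end

end Pool.Agent.Run7.h630.R2
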