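import Mathlib
import Pool.Agent.Run7.h630.R2.Gauss

/-!
# Gaussian integrals of the twisted lattice
-/

open MeasureTheory Matrix Filter Pool.Agent.N991.MK Pool.Agent.N989.MK
open scoped Matrix.Norms.Frobenius Topology
open Pool.Agent.H906R3.YM Pool.Agent.W793.YM Pool.Agent.TH618.YM Pool.Agent.N984.TW
open Pool.Agent.Run7.h871.LG (adc nab ipE gt emE qE)

namespace Pool.Agent.Run7.h630.R2

set_option linter.unusedSectionVars false
set_option linter.unusedVariables false

noncomputable section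

section La

variable {N n : ℕ} [NeZero N] (B : Frame (SU N) n) {a b l : ℕ} [NeZero a] [NeZero b] [NeZero l]
  {P Q : SU N} {k : ℕ}

/-- the integral over the gauge transformations -/
theorem gauss_V (hPQ : TwPair N (zeta N ^ k) P Q) (hdet : LinearMap.det (La B P Q : V a b l n →ₗ[ℝ] _) ≠ 0) :
    ∫ f : V a b l n, Real.exp (-(qE (dvc B P Q (nab B sr tgt (U0 P Q) f)) / 2)) =
      |LinearMap.det (La B P Q : V a b l n →ₗ[ℝ] _)|⁻¹ *
        ∫ f : V a b l n, Real.exp (-(qE f / 2)) := by
  simp only [dvc_nab]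
  exact int_lin' (K := Si a b l) (La B P Q) hdet (F := fun f => Real.exp (-(qE f / 2)))
    (Real.continuous_exp.comp (Pool.Agent.Run7.h871.LG.qE_cont.div_const 2).neg)

/-- one forms as four functions -/
def k4 (a b l n : ℕ) : V1 a b l n ≃ₗ[ℝ] (Fin 4 → V a b l n) where
  toFun x := fun i v => x (v, i)
  invFun y := fun e => y e.2 e.1
  left_inv := fun x => rfl
  right_inv := fun x => rfl
  map_add' := fun x y => rfl
  map_smul' := fun c x => rfl

/-- the integral over the one forms -/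
theorem gauss_E (hPQ : TwPair N (zeta N ^ k) P Q) (hdet : 0 < LinearMap.det (La B P Q : V a b l n →ₗ[ℝ] _)) :
    ∫ x : V1 a b l n, Real.exp (-((qE (Dc B P Q x) + qE (dvc B P Q x)) / 2)) =
      (LinearMap.det (La B P Q : V a b l n →ₗ[ℝ] _) ^ 2)⁻¹ *
        ∫ x : V1 a b l n, Real.exp (-(qE x / 2)) := by
  obtain ⟨R, hR1, hR2⟩ := exists_root (T := (La B P Q : V a b l n →ₗ[ℝ] _))
    (fun f g => ip_La_symm B f g) (fun f => by
      rw [ip_La]; exact Finset.sum_nonneg fun i _ => ipE_self_nonneg _)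
  obtain ⟨T, hT⟩ : ∃ T : V1 a b l n →ₗ[ℝ] V1 a b l n, T = (k4 a b l n).symm.toLinearMap ∘ₗ
    (LinearMap.pi fun i => R ∘ₗ LinearMap.proj i) ∘ₗ (k4 a b l n).toLinearMap := ⟨_, rfl⟩
  have hTa : ∀ x i, cm i (T x) = R (cm i x) := by
    intro x i
    rw [hT]
    rfl
  have h1 : ∀ x, qE (Dc B P Q x) + qE (dvc B P Q x) = qE (T x) := by
    intro x
    rw [energy B hPQ, qE_ip, ip_split]
    refine Finset.sum_congr rfl fun i _ => ?_
    rw [hTa, ← qE_ip, hR1]
  have h2 : LinearMap.det T = LinearMap.det R ^ 4 := by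
    have := LinearMap.det_conj (LinearMap.pi fun i : Fin 4 => R ∘ₗ LinearMap.proj i)
      (k4 a b l n).symm
    rw [LinearMap.det_pi, Finset.prod_const, Finset.card_univ, Fintype.card_fin] at this
    rw [hT]
    exact this
  have h3 : LinearMap.det T = LinearMap.det (La B P Q : V a b l n →ₗ[ℝ] _) ^ 2 := by
    rw [h2, ← hR2, ← pow_mul]
  simp only [h1]
  have h4 := int_lin' (K := Lk a b l) T (by rw [h3]; positivity)
    (F := fun f => Real.exp (-(qE f / 2)))
    (Real.continuous_exp.comp (Pool.Agent.Run7.h871.LG.qE_cont.div_const 2).neg)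
  rw [h4, h3, abs_of_pos (by positivity)]

end La

end

end Pool.Agent.Run7.h630.R2
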