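import Mathlib
import Pool.Agent.Run7.h630.R2.GaussT

/-!
# The determinant of the covariant Laplacian
-/

open MeasureTheory Matrix Filter Pool.Agent.N991.MK Pool.Agent.N989.MK
open scoped Matrix.Norms.Frobenius Topology Kronecker
open Pool.Agent.H906R3.YM Pool.Agent.W793.YM Pool.Agent.TH618.YM Pool.Agent.N984.TW
open Pool.Agent.Run7.h871.LG (adc nab ipE gt emE qE)

namespace Pool.Agent.Run7.h630.R2

set_option linter.unusedSectionVars false
set_option linter.unusedVariables false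

noncomputable section

variable {N n : ℕ} [NeZero N] (B : Frame (SU N) n) {a b l : ℕ} [NeZero a] [NeZero b] [NeZero l]
  {P Q : SU N} {k : ℕ}

/-- functions on the cycle times the slice -/
def ps (a b l n : ℕ) : (ZMod a × (Si 1 b l × Fin n) → ℝ) ≃ₗ[ℝ] V a b l n where
  toFun G := fun v c => G (v.1.1, (((0, v.1.2), v.2), c))
  invFun f := fun e => f ((e.1, e.2.1.1.2), e.2.1.2) e.2.2
  left_inv := fun G => by
    funext e
    obtain ⟨u, ⟨⟨z, u2⟩, y⟩, c⟩ := e
    have hz : z = 0 := Subsingleton.elim _ _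
    subst hz
    rfl
  right_inv := fun f => by
    funext v c
    rfl
  map_add' := fun x y => rfl
  map_smul' := fun c x => rfl

lemma ps_apply (G : ZMod a × (Si 1 b l × Fin n) → ℝ) (v : Si a b l) (c : Fin n) :
    ps a b l n G v c = G (v.1.1, (((0, v.1.2), v.2), c)) := rfl

lemma lap_mulVec {E : Type*} [Fintype E] [DecidableEq E] (H : Matrix E E ℝ)
    (G : ZMod a × E → ℝ) (u : ZMod a) (e : E) :
    (lap a H *ᵥ G) (u, e) = 2 * G (u, e) - G (u + 1, e) - G (u - 1, e) +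
      (H *ᵥ fun e' => G (u, e')) e := by
  unfold lap
  rw [add_mulVec]
  have h1 : ((((2 : ℝ) • (1 : Matrix (ZMod a) (ZMod a) ℝ) - sg a - (sg a)ᵀ) ⊗ₖ
      (1 : Matrix E E ℝ)) *ᵥ G) (u, e) = 2 * G (u, e) - G (u + 1, e) - G (u - 1, e) := by
    show ∑ p : ZMod a × E, (((2 : ℝ) • (1 : Matrix (ZMod a) (ZMod a) ℝ) - sg a -
        (sg a)ᵀ) ⊗ₖ (1 : Matrix E E ℝ)) (u, e) p * G p = _
    rw [Fintype.sum_prod_type]
    have h2 : ∀ u' : ZMod a, ∑ e' : E, (((2 : ℝ) • (1 : Matrix (ZMod a) (ZMod a) ℝ) - sg a -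
        (sg a)ᵀ) ⊗ₖ (1 : Matrix E E ℝ)) (u, e) (u', e') * G (u', e') =
        ((2 : ℝ) • (1 : Matrix (ZMod a) (ZMod a) ℝ) - sg a - (sg a)ᵀ) u u' * G (u', e) := by
      intro u'
      rw [Finset.sum_eq_single e]
      · rw [kroneckerMap_apply, one_apply_eq, mul_one]
      · intro e' _ he
        rw [kroneckerMap_apply, one_apply_ne he.symm, mul_zero, zero_mul]
      · intro h; exact absurd (Finset.mem_univ _) h
    rw [Finset.sum_congr rfl fun u' _ => h2 u']
    simp only [Matrix.sub_apply, Matrix.smul_apply, smul_eq_mul, Matrix.transpose_apply, sub_mul,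
      Finset.sum_sub_distrib]
    congr 1
    · congr 1
      · simp [one_apply]
      · unfold sg
        simp
    · unfold sg
      simp only [of_apply, ite_mul, one_mul, zero_mul]
      rw [Finset.sum_eq_single (u - 1)]
      · rw [if_pos (by ring)]
      · intro u' _ hu
        rw [if_neg]
        intro h
        exact hu (by rw [h]; ring)
      · intro h; exact absurd (Finset.mem_univ _) h
  have h3 : (((1 : Matrix (ZMod a) (ZMod a) ℝ) ⊗ₖ H) *ᵥ G) (u, e) =
      (H *ᵥ fun e' => G (u, e')) e := by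
    show ∑ p : ZMod a × E, ((1 : Matrix (ZMod a) (ZMod a) ℝ) ⊗ₖ H) (u, e) p * G p =
      ∑ e' : E, H e e' * G (u, e')
    rw [Fintype.sum_prod_type, Finset.sum_eq_single u]
    · refine Finset.sum_congr rfl fun e' _ => ?_
      rw [kroneckerMap_apply, one_apply_eq, one_mul]
    · intro u' _ hu
      refine Finset.sum_eq_zero fun e' _ => ?_
      rw [kroneckerMap_apply, one_apply_ne hu.symm, zero_mul, zero_mul]
    · intro h; exact absurd (Finset.mem_univ _) h
  rw [Pi.add_apply, h1, h3]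

lemma U0_slice (u : ZMod a × ZMod b) (u' : ZMod 1 × ZMod b) (y : ZMod l × ZMod l) (i : Fin 4) :
    U0 P Q (((u, y) : Si a b l), i) = U0 P Q (((u', y) : Si 1 b l), i) := rfl

/-- the slice of a function -/
def sl (u : ZMod a) (G : ZMod a × (Si 1 b l × Fin n) → ℝ) : V 1 b l n :=
  (ku (Si 1 b l) n).symm fun e' => G (u, e')

lemma sl_apply (u : ZMod a) (G : ZMod a × (Si 1 b l × Fin n) → ℝ) (v : Si 1 b l) (c : Fin n) :
    sl u G v c = G (u, (v, c)) := rfl

lemma ps_sl (G : ZMod a × (Si 1 b l × Fin n) → ℝ) (u1 : ZMod a) (u2 : ZMod b)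
    (y : ZMod l × ZMod l) :
    ps a b l n G ((u1, u2), y) = sl u1 G ((0, u2), y) := rfl

lemma La_ps (G : ZMod a × (Si 1 b l × Fin n) → ℝ) :
    La B P Q (ps a b l n G) = ps a b l n (toLin' (lap a (mx (La B P Q : V 1 b l n →ₗ[ℝ] _))) G) := by
  funext v c
  obtain ⟨⟨u1, u2⟩, ⟨p, q⟩⟩ := v
  rw [ps_apply, toLin'_apply, lap_mulVec, mx_mulVec]
  have hku : ∀ (F : V 1 b l n) (e : Si 1 b l × Fin n), ku (Si 1 b l) n F e = F e.1 e.2 :=
    fun F e => rfl
  rw [hku]
  show La B P Q (ps a b l n G) ((u1, u2), (p, q)) c = 2 * G (u1, (((0, u2), (p, q)), c)) -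
    G (u1 + 1, (((0, u2), (p, q)), c)) - G (u1 - 1, (((0, u2), (p, q)), c)) +
      La B P Q (sl u1 G) ((0, u2), (p, q)) c
  rw [La_apply', La_apply']
  simp only [Fin.sum_univ_four, Pi.add_apply, Pi.sub_apply, Pi.smul_apply, smul_eq_mul]
  have t0 : Ts B P Q 0 (ps a b l n G) ((u1, u2), (p, q)) c =
      G (u1 + 1, (((0, u2), (p, q)), c)) := by
    rw [Ts_apply, U0_zero, adc_one, ee0]
    simp [ps_apply]
  have t0' : Tt B P Q 0 (ps a b l n G) ((u1, u2), (p, q)) c =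
      G (u1 - 1, (((0, u2), (p, q)), c)) := by
    rw [Tt_apply, U0_zero, inv_one, adc_one]
    have : (((u1, u2), (p, q)) : Si a b l) - ee 0 = ((u1 - 1, u2), (p, q)) := by simp [ee]
    rw [this]
    rfl
  have z0 : Ts B P Q 0 (sl u1 G) ((0, u2), (p, q)) c = sl u1 G ((0, u2), (p, q)) c := by
    rw [Ts_apply, U0_zero, adc_one, ee0]
    congr 2
    simp
    exact Subsingleton.elim _ _
  have z0' : Tt B P Q 0 (sl u1 G) ((0, u2), (p, q)) c = sl u1 G ((0, u2), (p, q)) c := by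
    rw [Tt_apply, U0_zero, inv_one, adc_one]
    have : (((0, u2), (p, q)) : Si 1 b l) - ee 0 = ((0, u2), (p, q)) := by
      simp [ee]
      exact Subsingleton.elim _ _
    rw [this]
  have t1 : Ts B P Q 1 (ps a b l n G) ((u1, u2), (p, q)) = Ts B P Q 1 (sl u1 G) ((0, u2), (p, q)) := by
    rw [Ts_apply, Ts_apply, U0_one, U0_one, ee1, ee1]
    simp [ps_sl]
  have t1' : Tt B P Q 1 (ps a b l n G) ((u1, u2), (p, q)) = Tt B P Q 1 (sl u1 G) ((0, u2), (p, q)) := by
    rw [Tt_apply, Tt_apply, U0_one, U0_one]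
    have h1 : (((u1, u2), (p, q)) : Si a b l) - ee 1 = ((u1, u2 - 1), (p, q)) := by simp [ee]
    have h2 : (((0, u2), (p, q)) : Si 1 b l) - ee 1 = ((0, u2 - 1), (p, q)) := by simp [ee]
    rw [h1, h2, ps_sl]
  have t2 : Ts B P Q 2 (ps a b l n G) ((u1, u2), (p, q)) = Ts B P Q 2 (sl u1 G) ((0, u2), (p, q)) := by
    rw [Ts_apply, Ts_apply, U0_two, U0_two, ee2, ee2, ps_sl]
  have t2' : Tt B P Q 2 (ps a b l n G) ((u1, u2), (p, q)) = Tt B P Q 2 (sl u1 G) ((0, u2), (p, q)) := by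
    rw [Tt_apply, Tt_apply, U0_two, U0_two]
    have h1 : (((u1, u2), (p, q)) : Si a b l) - ee 2 = ((u1, u2), (p - 1, q)) := by simp [ee]
    have h2 : (((0, u2), (p, q)) : Si 1 b l) - ee 2 = ((0, u2), (p - 1, q)) := by simp [ee]
    rw [h1, h2, ps_sl]
  have t3 : Ts B P Q 3 (ps a b l n G) ((u1, u2), (p, q)) = Ts B P Q 3 (sl u1 G) ((0, u2), (p, q)) := by
    rw [Ts_apply, Ts_apply, U0_three, U0_three, ee3, ee3, ps_sl]
  have t3' : Tt B P Q 3 (ps a b l n G) ((u1, u2), (p, q)) = Tt B P Q 3 (sl u1 G) ((0, u2), (p, q)) := by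
    rw [Tt_apply, Tt_apply, U0_three, U0_three]
    have h1 : (((u1, u2), (p, q)) : Si a b l) - ee 3 = ((u1, u2), (p, q - 1)) := by simp [ee]
    have h2 : (((0, u2), (p, q)) : Si 1 b l) - ee 3 = ((0, u2), (p, q - 1)) := by simp [ee]
    rw [h1, h2, ps_sl]
  rw [t0, t0', z0, z0', t1, t1', t2, t2', t3, t3', ps_sl, sl_apply]
  ring

theorem det_La : LinearMap.det (La B P Q : V a b l n →ₗ[ℝ] _) =
    det (lap a (mx (La B P Q : V 1 b l n →ₗ[ℝ] _))) := by
  have h1 : (La B P Q : V a b l n →ₗ[ℝ] _) = (ps a b l n).toLinearMap ∘ₗ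
      toLin' (lap a (mx (La B P Q : V 1 b l n →ₗ[ℝ] _))) ∘ₗ (ps a b l n).symm.toLinearMap := by
    refine LinearMap.ext fun f => ?_
    have h2 := La_ps B (P := P) (Q := Q) ((ps a b l n).symm f)
    rw [LinearEquiv.apply_symm_apply] at h2
    exact h2
  rw [← LinearMap.det_toLin' (lap a (mx (La B P Q : V 1 b l n →ₗ[ℝ] _))), h1]
  exact LinearMap.det_conj _ _

end

end Pool.Agent.Run7.h630.R2
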