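import Mathlib
import Pool.Agent.Run7.h630.R2.DetL

/-!
# The spectral gap of the covariant Laplacian and the purity of the determinants
-/

open MeasureTheory Matrix Filter Pool.Agent.N991.MK Pool.Agent.N989.MK
open scoped Matrix.Norms.Frobenius Topology
open Pool.Agent.H906R3.YM Pool.Agent.W793.YM Pool.Agent.TH618.YM Pool.Agent.N984.TW
open Pool.Agent.Run7.h871.LG (adc nab ipE gt emE qE)

namespace Pool.Agent.Run7.h630.R2

set_option linter.unusedSectionVars false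
set_option linter.unusedVariables false

noncomputable section

variable {N n : ℕ} [NeZero N] (B : Frame (SU N) n) {a b l : ℕ} [NeZero a] [NeZero b] [NeZero l]
  {P Q : SU N} {k : ℕ}

/-- the restriction to one fibre -/
def fb (u : ZMod a × ZMod b) (f : V a b l n) : V 1 1 l n := fun v => f (u, v.2)

lemma fb_ip (f g : V a b l n) : ipE f g = ∑ u, ipE (fb u f) (fb u g) := by
  unfold ipE
  rw [Fintype.sum_prod_type]
  refine Finset.sum_congr rfl fun u _ => ?_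
  have h : ∀ F : Si 1 1 l → ℝ, ∑ v, F v = ∑ y, F (0, y) := by
    intro F
    rw [Fintype.sum_prod_type, Fintype.sum_eq_single (0 : ZMod 1 × ZMod 1)
      (fun x hx => (hx (Subsingleton.elim _ _)).elim)]
  rw [h]
  rfl

lemma fb_Ad2 (u : ZMod a × ZMod b) (f : V a b l n) :
    fb u (Ad B P Q 2 f) = Ad B P Q 2 (fb u f) := by
  funext v
  obtain ⟨u', p, q⟩ := v
  show Ad B P Q 2 f (u, (p, q)) = _
  rw [Ad_apply, Ad_apply, Pi.sub_apply, Pi.sub_apply, Ts_apply, Ts_apply, U0_two, U0_two, ee2, ee2]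
  rfl

lemma fb_Ad3 (u : ZMod a × ZMod b) (f : V a b l n) :
    fb u (Ad B P Q 3 f) = Ad B P Q 3 (fb u f) := by
  funext v
  obtain ⟨u', p, q⟩ := v
  show Ad B P Q 3 f (u, (p, q)) = _
  rw [Ad_apply, Ad_apply, Pi.sub_apply, Pi.sub_apply, Ts_apply, Ts_apply, U0_three, U0_three, ee3,
    ee3]
  rfl

/-- the gap of the fibre operator -/
lemma fib_gap (l : ℕ) [NeZero l] (hPQ : TwPair N (zeta N ^ k) P Q) : ∃ x0 : ℝ, 0 < x0 ∧
    ∀ f : V 1 1 l n, x0 * ipE f f ≤ ipE (Ad B P Q 2 f) (Ad B P Q 2 f) +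
      ipE (Ad B P Q 3 f) (Ad B P Q 3 f) := by
  refine pos_bound (K := Si 1 1 l) (F := fun f => ipE (Ad B P Q 2 f) (Ad B P Q 2 f) +
      ipE (Ad B P Q 3 f) (Ad B P Q 3 f)) ?_ ?_ ?_ ?_
  · exact (ipE_cont.comp (LinearMap.continuous_of_finiteDimensional _)).add
      (ipE_cont.comp (LinearMap.continuous_of_finiteDimensional _))
  · intro c f
    simp only [map_smul]
    rw [← qE_ip, ← qE_ip, ← qE_ip, ← qE_ip, Pool.Agent.Run7.h871.LG.qE_smul,
      Pool.Agent.Run7.h871.LG.qE_smul]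
    ring
  · intro f
    exact add_nonneg (ipE_self_nonneg _) (ipE_self_nonneg _)
  · intro f hf
    have h1 := ipE_self_nonneg (Ad B P Q 2 f)
    have h2 := ipE_self_nonneg (Ad B P Q 3 f)
    refine fib_ker B hPQ (qE_zero ?_) (qE_zero ?_)
    · rw [qE_ip]; linarith
    · rw [qE_ip]; linarith

/-- the gap of the Laplacian -/
lemma La_gap (l : ℕ) [NeZero l] (hPQ : TwPair N (zeta N ^ k) P Q) : ∃ x0 : ℝ, 0 < x0 ∧
    ∀ (a b : ℕ) [NeZero a] [NeZero b] (f : V a b l n), x0 * ipE f f ≤ ipE f (La B P Q f) := by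
  obtain ⟨x0, hx0, h⟩ := fib_gap B l hPQ
  refine ⟨x0, hx0, fun a b _ _ f => ?_⟩
  rw [ip_La, Fin.sum_univ_four]
  have h1 : x0 * ipE f f ≤ ipE (Ad B P Q 2 f) (Ad B P Q 2 f) +
      ipE (Ad B P Q 3 f) (Ad B P Q 3 f) := by
    rw [fb_ip f f, fb_ip (Ad B P Q 2 f), fb_ip (Ad B P Q 3 f), ← Finset.sum_add_distrib,
      Finset.mul_sum]
    refine Finset.sum_le_sum fun u _ => ?_
    rw [fb_Ad2, fb_Ad3]
    exact h _
  have h2 := ipE_self_nonneg (Ad B P Q 0 f)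
  have h3 := ipE_self_nonneg (Ad B P Q 1 f)
  linarith

lemma eig_ge {E : Type*} [Fintype E] [DecidableEq E] {H : Matrix E E ℝ} (hH : H.IsHermitian)
    {x0 : ℝ} (h : ∀ x : E → ℝ, x0 * (x ⬝ᵥ x) ≤ x ⬝ᵥ (H *ᵥ x)) (e : E) :
    x0 ≤ hH.eigenvalues e := by
  have h1 := h (⇑(hH.eigenvectorBasis e))
  rw [hH.mulVec_eigenvectorBasis, dotProduct_smul, smul_eq_mul] at h1
  have h2 : (⇑(hH.eigenvectorBasis e) : E → ℝ) ⬝ᵥ ⇑(hH.eigenvectorBasis e) = 1 := by
    have h3 := hH.eigenvectorBasis.orthonormal.1 e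
    have h4 : inner ℝ (hH.eigenvectorBasis e) (hH.eigenvectorBasis e) = (1 : ℝ) := by
      rw [real_inner_self_eq_norm_sq, h3]; norm_num
    rw [← h4, EuclideanSpace.inner_eq_star_dotProduct]
    simp
  rw [h2, mul_one, mul_one] at h1
  exact h1

/-- the determinants -/
theorem det_purity (l : ℕ) [NeZero l] (hPQ : TwPair N (zeta N ^ k) P Q) : ∃ x0 : ℝ, 0 < x0 ∧
    ∀ (a a' b : ℕ) [NeZero a] [NeZero a'] [NeZero b], a' = 2 * a →
      0 < LinearMap.det (La B P Q : V a b l n →ₗ[ℝ] _) ∧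
      0 < LinearMap.det (La B P Q : V a' b l n →ₗ[ℝ] _) ∧
      1 - 4 * (b * l ^ 2 * n) * (1 / (1 + x0)) ^ a ≤
        LinearMap.det (La B P Q : V a b l n →ₗ[ℝ] _) ^ 2 /
          LinearMap.det (La B P Q : V a' b l n →ₗ[ℝ] _) := by
  obtain ⟨x0, hx0, h⟩ := La_gap B l hPQ
  refine ⟨x0, hx0, fun a a' b _ _ _ ha => ?_⟩
  have hH : (mx (La B P Q : V 1 b l n →ₗ[ℝ] _)).IsHermitian := mx_herm fun f g => ip_La_symm B f g
  have h1 : ∀ e, x0 ≤ hH.eigenvalues e := by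
    refine fun e => eig_ge hH (fun x => ?_) e
    rw [mx_dot]
    have h2 := h 1 b ((ku (Si 1 b l) n).symm x)
    rw [ipE_ku] at h2
    simpa using h2
  have h2 := purity ha hH hx0 h1
  rw [← det_La, ← det_La] at h2
  have h3 : (Fintype.card (Si 1 b l × Fin n) : ℝ) = b * l ^ 2 * n := by
    simp only [Fintype.card_prod, ZMod.card, Fintype.card_fin]
    push_cast
    ring
  rw [h3] at h2
  exact h2

end

end Pool.Agent.Run7.h630.R2
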