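import Mathlib
import Pool.Agent.Run7.h630.R2.Fib

/-!
# The lower bound of the action
-/

open MeasureTheory Matrix Filter Pool.Agent.N991.MK Pool.Agent.N989.MK
open scoped Matrix.Norms.Frobenius Topology
open Pool.Agent.H906R3.YM Pool.Agent.W793.YM Pool.Agent.TH618.YM Pool.Agent.N984.TW
open Pool.Agent.Run7.h871.LG (adc nab ipE gt emE qE)

namespace Pool.Agent.Run7.h630.R2

set_option linter.unusedSectionVars false
set_option linter.unusedVariables false

noncomputable section

variable {N n : ℕ} [NeZero N] {a b l : ℕ} [NeZero a] [NeZero b] [NeZero l]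
  {P Q : SU N} {k : ℕ}

/-- the least energy of the base plaquettes over one base point -/
def bmin (U : Lk a b l → SU N) (u : ZMod a × ZMod b) : ℝ :=
  Finset.univ.inf' ⟨(0 : Fin N), Finset.mem_univ _⟩ fun n : Fin N => baseE (n : ℕ) U u

/-- the lower bound of the action -/
def SS (k : ℕ) (U : Lk a b l → SU N) : ℝ := nonbase k U + ∑ u : ZMod a × ZMod b, bmin U u

lemma bmin_le (U : Lk a b l → SU N) (u : ZMod a × ZMod b) (n : Fin N) :
    bmin U u ≤ baseE (n : ℕ) U u := Finset.inf'_le _ (Finset.mem_univ n)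

lemma exists_bmin (U : Lk a b l → SU N) (u : ZMod a × ZMod b) :
    ∃ n : Fin N, bmin U u = baseE (n : ℕ) U u := by
  obtain ⟨n, -, hn⟩ := Finset.exists_mem_eq_inf' (s := Finset.univ)
    ⟨(0 : Fin N), Finset.mem_univ _⟩ fun n : Fin N => baseE (n : ℕ) U u
  exact ⟨n, hn⟩

end

end Pool.Agent.Run7.h630.R2
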