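import Mathlib
import Pool.Agent.Run7.h630.R2.Act

/-!
# The data of the twisted lattice: symmetries
-/

open MeasureTheory Matrix Filter Pool.Agent.N991.MK Pool.Agent.N989.MK
open scoped Matrix.Norms.Frobenius Topology
open Pool.Agent.H906R3.YM Pool.Agent.W793.YM Pool.Agent.TH618.YM Pool.Agent.N984.TW
open Pool.Agent.Run7.h871.LG (adc nab ipE gt emE qE)

namespace Pool.Agent.Run7.h630.R2

set_option linter.unusedSectionVars false
set_option linter.unusedVariables false

noncomputable section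

variable {N n : ℕ} [NeZero N] {a b l : ℕ} [NeZero a] [NeZero b] [NeZero l]
  {P Q : SU N} {k : ℕ}

section group

instance rfin (N : ℕ) [NeZero N] : Fintype (rootsOfUnity N ℂ) := Fintype.ofFinite _

lemma rcard (N : ℕ) [NeZero N] : Fintype.card (rootsOfUnity N ℂ) = N := by
  rw [← Nat.card_eq_fintype_card, Complex.card_rootsOfUnity]

lemma cz_cen (z : Zf N a b) (e : Lk a b l) (g : SU N) :
    cz N a b l z e * g = g * cz N a b l z e := by
  show (if e.2 = 0 then zch N (z e.1.1 0) else if e.2 = 1 then zch N (z e.1.1 1) else 1) * g =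
    g * (if e.2 = 0 then zch N (z e.1.1 0) else if e.2 = 1 then zch N (z e.1.1 1) else 1)
  split_ifs
  · exact zch_comm _ _
  · exact zch_comm _ _
  · rw [one_mul, mul_one]

lemma cz_inj : Function.Injective (cz N a b l) := by
  intro z z' h
  funext u i
  have h0 := congrFun h ((u, 0), 0)
  have h1 := congrFun h ((u, 0), 1)
  rw [cz_zero, cz_zero] at h0
  rw [cz_one, cz_one] at h1
  fin_cases i
  · exact zch_inj h0
  · exact zch_inj h1

/-- the gauge transformations constant on the fibres with values in the centre -/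
def gh (N a b l : ℕ) [NeZero N] : ((ZMod a × ZMod b) → rootsOfUnity N ℂ) →* (Si a b l → SU N) where
  toFun ξ := fun x => zch N (ξ x.1)
  map_one' := by funext x; simp
  map_mul' := by intro ξ ξ'; funext x; simp

lemma gh_apply (ξ : (ZMod a × ZMod b) → rootsOfUnity N ℂ) (x : Si a b l) :
    gh N a b l ξ x = zch N (ξ x.1) := rfl

lemma gh_inj : Function.Injective (gh N a b l) := by
  intro ξ ξ' h
  funext u
  exact zch_inj (congrFun h (u, 0))

/-- the group of these gauge transformations -/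
def S00 (N a b l : ℕ) [NeZero N] : Subgroup (Si a b l → SU N) := (gh N a b l).range

instance S00_fin : Finite (S00 N a b l) := by
  unfold S00
  exact Finite.of_surjective _ (gh N a b l).rangeRestrict_surjective

lemma S00_card : Nat.card (S00 N a b l) = N ^ (a * b) := by
  have h1 : Nat.card (S00 N a b l) = Nat.card ((ZMod a × ZMod b) → rootsOfUnity N ℂ) :=
    (Nat.card_congr (MonoidHom.ofInjective (gh_inj (N := N) (a := a) (b := b) (l := l))).toEquiv).symm
  rw [h1, Nat.card_eq_fintype_card, Fintype.card_fun, Fintype.card_prod, ZMod.card, ZMod.card,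
    rcard]

lemma Zf_card : Fintype.card (Zf N a b) = N ^ (2 * (a * b)) := by
  rw [Fintype.card_fun, Fintype.card_fun, Fintype.card_prod, ZMod.card, ZMod.card,
    rcard, Fintype.card_fin, ← pow_mul]

lemma S00_act (g : Si a b l → SU N) (hg : g ∈ S00 N a b l) :
    ∃ z : Zf N a b, ∀ U, cz N a b l z * gt sr tgt g U = U := by
  obtain ⟨ξ, rfl⟩ := hg
  refine ⟨fun u i => if i = 0 then ξ (u + (1, 0)) * (ξ u)⁻¹ else ξ (u + (0, 1)) * (ξ u)⁻¹,
    fun U => ?_⟩
  funext e
  obtain ⟨⟨u, p, q⟩, i⟩ := e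
  show cz N a b l _ ((u, (p, q)), i) * (gh N a b l ξ (u, (p, q)) * U ((u, (p, q)), i) *
    (gh N a b l ξ (((u, (p, q)) : Si a b l) + ee i))⁻¹) = _
  fin_cases i
  · simp only [Fin.zero_eta, Fin.isValue, cz_zero, ee0, gh_apply, if_true]
    rw [map_mul, map_inv, mul_assoc (zch N (ξ u)), ← mul_assoc, inv_mul_cancel_right,
      ← mul_assoc, zch_comm (ξ (u + (1, 0))) (U ((u, (p, q)), 0)), mul_inv_cancel_right]
  · simp only [Fin.mk_one, Fin.isValue, cz_one, ee1, gh_apply, one_ne_zero, if_false]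
    rw [map_mul, map_inv, mul_assoc (zch N (ξ u)), ← mul_assoc, inv_mul_cancel_right,
      ← mul_assoc, zch_comm (ξ (u + (0, 1))) (U ((u, (p, q)), 1)), mul_inv_cancel_right]
  · simp only [Fin.reduceFinMk, Fin.isValue, cz_two, ee2, gh_apply, one_mul]
    rw [zch_comm, mul_inv_cancel_right]
  · simp only [Fin.reduceFinMk, Fin.isValue, cz_three, ee3, gh_apply, one_mul]
    rw [zch_comm, mul_inv_cancel_right]

lemma S00_stab (hPQ : TwPair N (zeta N ^ k) P Q) (z : Zf N a b) (g : Si a b l → SU N)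
    (h : cz N a b l z * gt sr tgt g (U0 P Q) = U0 P Q) : g ∈ S00 N a b l := by
  have h1 : ∀ u : ZMod a × ZMod b, ∃ ξ : rootsOfUnity N ℂ, ∀ p q, g (u, (p, q)) = zch N ξ := by
    intro u
    refine cov_const hPQ.irr (w := fun p q => g (u, (p, q))) (fun p q => ?_) (fun p q => ?_)
    · have h2 := congrFun h ((u, (p, q)), 2)
      rw [Pi.mul_apply, cz_two, one_mul] at h2
      have h3 : g (u, (p, q)) * U0 P Q ((u, (p, q)), 2) *
        (g (((u, (p, q)) : Si a b l) + ee 2))⁻¹ = U0 P Q ((u, (p, q)), 2) := h2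
      rw [ee2, U0_two, mul_inv_eq_iff_eq_mul] at h3
      exact h3
    · have h2 := congrFun h ((u, (p, q)), 3)
      rw [Pi.mul_apply, cz_three, one_mul] at h2
      have h3 : g (u, (p, q)) * U0 P Q ((u, (p, q)), 3) *
        (g (((u, (p, q)) : Si a b l) + ee 3))⁻¹ = U0 P Q ((u, (p, q)), 3) := h2
      rw [ee3, U0_three, mul_inv_eq_iff_eq_mul] at h3
      exact h3
  choose ξ hξ using h1
  refine ⟨ξ, ?_⟩
  funext x
  obtain ⟨u, p, q⟩ := x
  exact (hξ u p q).symm

end group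

section inv

lemma en_conj (w : ℂ) (g h : SU N) : en w (g * h * g⁻¹) = en w h := by
  unfold en
  have h1 : mt g⁻¹ * mt g = 1 := by
    rw [← mt_mul, inv_mul_cancel]; rfl
  have h2 : trace (w • mt (g * h * g⁻¹)) = trace (w • mt h) := by
    rw [trace_smul, trace_smul, mt_mul, mt_mul, trace_mul_comm, ← mul_assoc, h1, one_mul]
  rw [trace_sub, trace_sub, h2]

lemma plq_gt (g : Si a b l → SU N) (U : Lk a b l → SU N) (x : Si a b l) (i j : Fin 4) :
    plq (gt sr tgt g U) x i j = g x * plq U x i j * (g x)⁻¹ := by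
  unfold plq
  show g x * U (x, i) * (g (x + ee i))⁻¹ *
    (g (x + ee i) * U (x + ee i, j) * (g (x + ee i + ee j))⁻¹) *
    (g (x + ee j) * U (x + ee j, i) * (g (x + ee j + ee i))⁻¹)⁻¹ *
    (g x * U (x, j) * (g (x + ee j))⁻¹)⁻¹ = _
  rw [add_right_comm x (ee j) (ee i)]
  group

lemma nonbase_gt (g : Si a b l → SU N) (U : Lk a b l → SU N) :
    nonbase k (gt sr tgt g U) = nonbase k U := by
  unfold nonbase
  simp only [plq_gt, en_conj]

lemma baseE_gt (n : ℕ) (g : Si a b l → SU N) (U : Lk a b l → SU N) (u : ZMod a × ZMod b) :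
    baseE n (gt sr tgt g U) u = baseE n U u := by
  unfold baseE
  simp only [plq_gt, en_conj]

lemma SS_gt (g : Si a b l → SU N) (U : Lk a b l → SU N) : SS k (gt sr tgt g U) = SS k U := by
  unfold SS bmin
  simp only [nonbase_gt, baseE_gt]

lemma wt_gt (β : ℝ) (g : Si a b l → SU N) (U : Lk a b l → SU N) :
    wt k β (gt sr tgt g U) = wt k β U := by
  unfold wt
  simp only [nonbase_gt, baseE_gt]

/-- plaquettes and central elements -/
lemma plq_cen {c0 c1 c2 c3 : SU N} (h0 : ∀ g : SU N, c0 * g = g * c0)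
    (h1 : ∀ g : SU N, c1 * g = g * c1) (h2 : ∀ g : SU N, c2 * g = g * c2)
    (h3 : ∀ g : SU N, c3 * g = g * c3) (A B C D : SU N) :
    (c0 * A) * (c1 * B) * (c2 * C)⁻¹ * (c3 * D)⁻¹ =
      (c0 * c1 * c2⁻¹ * c3⁻¹) * (A * B * C⁻¹ * D⁻¹) := by
  have h2' : ∀ g : SU N, c2⁻¹ * g = g * c2⁻¹ := fun g => by
    rw [inv_mul_eq_iff_eq_mul, ← mul_assoc, h2, mul_inv_cancel_right]
  have h3' : ∀ g : SU N, c3⁻¹ * g = g * c3⁻¹ := fun g => by
    rw [inv_mul_eq_iff_eq_mul, ← mul_assoc, h3, mul_inv_cancel_right]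
  have e1 : (c0 * A) * (c1 * B) = c0 * c1 * (A * B) := by
    calc (c0 * A) * (c1 * B) = c0 * (A * c1) * B := by simp only [mul_assoc]
      _ = c0 * (c1 * A) * B := by rw [h1 A]
      _ = c0 * c1 * (A * B) := by simp only [mul_assoc]
  have e2 : (c2 * C)⁻¹ = c2⁻¹ * C⁻¹ := by rw [_root_.mul_inv_rev, h2']
  have e3 : (c3 * D)⁻¹ = c3⁻¹ * D⁻¹ := by rw [_root_.mul_inv_rev, h3']
  rw [e1, e2, e3]
  calc c0 * c1 * (A * B) * (c2⁻¹ * C⁻¹) * (c3⁻¹ * D⁻¹)
      = c0 * c1 * ((A * B) * c2⁻¹) * (C⁻¹ * c3⁻¹) * D⁻¹ := by simp only [mul_assoc]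
    _ = c0 * c1 * (c2⁻¹ * (A * B)) * (c3⁻¹ * C⁻¹) * D⁻¹ := by rw [h2' (A * B), h3' C⁻¹]
    _ = c0 * c1 * c2⁻¹ * ((A * B) * c3⁻¹) * C⁻¹ * D⁻¹ := by simp only [mul_assoc]
    _ = c0 * c1 * c2⁻¹ * (c3⁻¹ * (A * B)) * C⁻¹ * D⁻¹ := by rw [h3' (A * B)]
    _ = (c0 * c1 * c2⁻¹ * c3⁻¹) * (A * B * C⁻¹ * D⁻¹) := by simp only [mul_assoc]

lemma plq_cz (z : Zf N a b) (U : Lk a b l → SU N) (x : Si a b l) (i j : Fin 4) :
    plq (cz N a b l z * U) x i j =
      (cz N a b l z (x, i) * cz N a b l z (x + ee i, j) * (cz N a b l z (x + ee j, i))⁻¹ *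
        (cz N a b l z (x, j))⁻¹) * plq U x i j := by
  unfold plq
  simp only [Pi.mul_apply]
  exact plq_cen (cz_cen z _) (cz_cen z _) (cz_cen z _) (cz_cen z _) _ _ _ _

lemma nonbase_cz (z : Zf N a b) (U : Lk a b l → SU N) :
    nonbase k (cz N a b l z * U) = nonbase k U := by
  unfold nonbase
  refine Finset.sum_congr rfl fun x _ => ?_
  obtain ⟨u, p, q⟩ := x
  rw [plq_cz, plq_cz, plq_cz, plq_cz, plq_cz, ee0, ee1, ee2, ee3]
  simp only [cz_zero, cz_one, cz_two, cz_three, mul_one, mul_inv_cancel, one_mul, inv_one]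

/-- the holonomy of the central element -/
def hz (z : Zf N a b) (u : ZMod a × ZMod b) : rootsOfUnity N ℂ :=
  z u 0 * z (u + (1, 0)) 1 * (z (u + (0, 1)) 0)⁻¹ * (z u 1)⁻¹

lemma plq_cz01 (z : Zf N a b) (U : Lk a b l → SU N) (u : ZMod a × ZMod b)
    (y : ZMod l × ZMod l) : plq (cz N a b l z * U) (u, y) 0 1 =
      zch N (hz z u) * plq U (u, y) 0 1 := by
  rw [plq_cz, ee0, ee1, cz_zero, cz_one, cz_zero, cz_one]
  unfold hz
  simp only [map_mul, map_inv]

/-- the energy of the base plaquettes with a twist in the centre -/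
def bw (w : rootsOfUnity N ℂ) (U : Lk a b l → SU N) (u : ZMod a × ZMod b) : ℝ :=
  ∑ y : ZMod l × ZMod l, en ((w : ℂˣ) : ℂ) (plq U (u, y) 0 1)

lemma baseE_bw (n : ℕ) (U : Lk a b l → SU N) (u : ZMod a × ZMod b) :
    baseE n U u = bw (zk N n) U u := rfl

lemma bw_cz (w : rootsOfUnity N ℂ) (z : Zf N a b) (U : Lk a b l → SU N) (u : ZMod a × ZMod b) :
    bw w (cz N a b l z * U) u = bw (w * hz z u) U u := by
  unfold bw
  refine Finset.sum_congr rfl fun y _ => ?_
  rw [plq_cz01]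
  unfold en
  rw [mt_mul, mt_zch, smul_mul_assoc, one_mul, smul_smul]
  rfl

/-- the roots of unity -/
def zke (N : ℕ) [NeZero N] : Fin N ≃ rootsOfUnity N ℂ :=
  Equiv.ofBijective (fun n => zk N (n : ℕ)) (by
    rw [Fintype.bijective_iff_injective_and_card]
    refine ⟨fun i j h => ?_, by rw [Fintype.card_fin, rcard]⟩
    have h1 : zeta N ^ (i : ℕ) = zeta N ^ (j : ℕ) := by
      have h2 := congrArg (fun w : rootsOfUnity N ℂ => ((w : ℂˣ) : ℂ)) h
      exact h2
    exact Fin.ext ((Complex.isPrimitiveRoot_exp N (NeZero.ne N)).pow_inj i.2 j.2 h1))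

lemma zke_apply (n : Fin N) : zke N n = zk N (n : ℕ) := rfl

lemma bmin_cz_le (z : Zf N a b) (U : Lk a b l → SU N) (u : ZMod a × ZMod b) :
    bmin (cz N a b l z * U) u ≤ bmin U u := by
  obtain ⟨n, hn⟩ := exists_bmin U u
  rw [hn, baseE_bw]
  have h1 := bmin_le (cz N a b l z * U) u ((zke N).symm (zk N (n : ℕ) * (hz z u)⁻¹))
  rw [baseE_bw, ← zke_apply, Equiv.apply_symm_apply, bw_cz, inv_mul_cancel_right] at h1
  exact h1

lemma bmin_cz (z : Zf N a b) (U : Lk a b l → SU N) (u : ZMod a × ZMod b) :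
    bmin (cz N a b l z * U) u = bmin U u := by
  refine le_antisymm (bmin_cz_le z U u) ?_
  have h1 := bmin_cz_le z⁻¹ (cz N a b l z * U) u
  rw [map_inv, inv_mul_cancel_left] at h1
  exact h1

lemma SS_cz (z : Zf N a b) (U : Lk a b l → SU N) : SS k (cz N a b l z * U) = SS k U := by
  unfold SS
  simp only [nonbase_cz, bmin_cz]

lemma sum_bw (β : ℝ) (V : Lk a b l → SU N) (u : ZMod a × ZMod b) :
    ∑ n : Fin N, Real.exp (-(β * baseE (n : ℕ) V u)) =
      ∑ w : rootsOfUnity N ℂ, Real.exp (-(β * bw w V u)) :=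
  Equiv.sum_comp (zke N) fun w => Real.exp (-(β * bw w V u))

lemma sum_cz (β : ℝ) (z : Zf N a b) (U : Lk a b l → SU N) (u : ZMod a × ZMod b) :
    ∑ n : Fin N, Real.exp (-(β * baseE (n : ℕ) (cz N a b l z * U) u)) =
      ∑ n : Fin N, Real.exp (-(β * baseE (n : ℕ) U u)) := by
  rw [sum_bw, sum_bw, ← Equiv.sum_comp (Equiv.mulRight (hz z u)) fun w => Real.exp (-(β * bw w U u))]
  refine Finset.sum_congr rfl fun w _ => ?_
  rw [bw_cz, Equiv.coe_mulRight]

lemma wt_cz (β : ℝ) (z : Zf N a b) (U : Lk a b l → SU N) :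
    wt k β (cz N a b l z * U) = wt k β U := by
  unfold wt
  simp only [nonbase_cz, sum_cz]

end inv

section cont

lemma en_cont (w : ℂ) : Continuous fun g : SU N => en w g := by
  unfold en
  refine Complex.continuous_re.comp (Continuous.matrix_trace ?_)
  refine continuous_const.sub (Continuous.const_smul ?_ w)
  exact continuous_subtype_val.comp continuous_subtype_val

lemma plq_cont (x : Si a b l) (i j : Fin 4) : Continuous fun U : Lk a b l → SU N => plq U x i j := by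
  unfold plq
  fun_prop

lemma enp_cont (w : ℂ) (x : Si a b l) (i j : Fin 4) :
    Continuous fun U : Lk a b l → SU N => en w (plq U x i j) :=
  (en_cont w).comp (plq_cont x i j)

lemma nonbase_cont : Continuous fun U : Lk a b l → SU N => nonbase k U := by
  unfold nonbase
  refine continuous_finsetSum _ fun x _ => ?_
  have c1 := enp_cont (N := N) 1 x 0 2
  have c2 := enp_cont (N := N) 1 x 0 3
  have c3 := enp_cont (N := N) 1 x 1 2
  have c4 := enp_cont (N := N) 1 x 1 3
  have c5 := enp_cont (N := N) (if x.2 = 0 then zeta N ^ k else 1) x 2 3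
  exact (((c1.add c2).add c3).add c4).add c5

lemma baseE_cont (n : ℕ) (u : ZMod a × ZMod b) :
    Continuous fun U : Lk a b l → SU N => baseE n U u := by
  unfold baseE
  exact continuous_finsetSum _ fun y _ => (en_cont _).comp (plq_cont _ 0 1)

lemma bmin_cont (u : ZMod a × ZMod b) : Continuous fun U : Lk a b l → SU N => bmin U u := by
  unfold bmin
  exact Continuous.finset_inf'_apply _ fun n _ => baseE_cont _ u

lemma SS_cont : Continuous (SS k : (Lk a b l → SU N) → ℝ) := by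
  unfold SS
  exact nonbase_cont.add (continuous_finsetSum _ fun u _ => bmin_cont u)

lemma wt_cont (β : ℝ) : Continuous (wt k β : (Lk a b l → SU N) → ℝ) := by
  unfold wt
  refine (Real.continuous_exp.comp ((continuous_const.mul nonbase_cont).neg)).mul ?_
  refine continuous_finsetProd _ fun u _ => continuous_finsetSum _ fun n _ => ?_
  exact Real.continuous_exp.comp ((continuous_const.mul (baseE_cont _ u)).neg)

lemma baseE_nonneg (n : ℕ) (U : Lk a b l → SU N) (u : ZMod a × ZMod b) : 0 ≤ baseE n U u :=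
  Finset.sum_nonneg fun y _ => en_nonneg (norm_zeta n) _

lemma bmin_nonneg (U : Lk a b l → SU N) (u : ZMod a × ZMod b) : 0 ≤ bmin U u := by
  obtain ⟨n, hn⟩ := exists_bmin U u
  rw [hn]
  exact baseE_nonneg _ U u

lemma nonbase_nonneg (U : Lk a b l → SU N) : 0 ≤ nonbase k U := by
  have h1 : ‖(1 : ℂ)‖ = 1 := by simp
  refine Finset.sum_nonneg fun x _ => ?_
  have h2 : ‖(if x.2 = 0 then zeta N ^ k else (1 : ℂ))‖ = 1 := by
    split_ifs
    · exact norm_zeta k
    · simp
  have e1 := en_nonneg h1 (plq U x 0 2)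
  have e2 := en_nonneg h1 (plq U x 0 3)
  have e3 := en_nonneg h1 (plq U x 1 2)
  have e4 := en_nonneg h1 (plq U x 1 3)
  have e5 := en_nonneg h2 (plq U x 2 3)
  linarith

lemma SS_nonneg (U : Lk a b l → SU N) : 0 ≤ SS k U :=
  add_nonneg (nonbase_nonneg U) (Finset.sum_nonneg fun u _ => bmin_nonneg U u)

lemma wt_pos (β : ℝ) (U : Lk a b l → SU N) : 0 < wt k β U := by
  unfold wt
  refine mul_pos (Real.exp_pos _) (Finset.prod_pos fun u _ => ?_)
  exact Finset.sum_pos (fun n _ => Real.exp_pos _) ⟨0, Finset.mem_univ _⟩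

lemma wt_bound {β : ℝ} (hβ : 0 ≤ β) (U : Lk a b l → SU N) :
    wt k β U ≤ (N : ℝ) ^ (a * b) * Real.exp (-(β * SS k U)) := by
  unfold wt SS
  rw [mul_add, neg_add, Real.exp_add, Finset.mul_sum, ← Finset.sum_neg_distrib, Real.exp_sum,
    mul_left_comm]
  refine mul_le_mul_of_nonneg_left ?_ (Real.exp_pos _).le
  have h1 : ((N : ℝ) ^ (a * b)) = ∏ u : ZMod a × ZMod b, (N : ℝ) := by
    rw [Finset.prod_const, Finset.card_univ, Fintype.card_prod, ZMod.card, ZMod.card]
  rw [h1, ← Finset.prod_mul_distrib]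
  refine Finset.prod_le_prod (fun u _ => Finset.sum_nonneg fun n _ => (Real.exp_pos _).le)
    fun u _ => ?_
  calc ∑ n : Fin N, Real.exp (-(β * baseE (n : ℕ) U u))
      ≤ ∑ n : Fin N, Real.exp (-(β * bmin U u)) := by
        refine Finset.sum_le_sum fun n _ => Real.exp_le_exp.2 ?_
        exact neg_le_neg (mul_le_mul_of_nonneg_left (bmin_le U u n) hβ)
    _ = N * Real.exp (-(β * bmin U u)) := by
        rw [Finset.sum_const, Finset.card_univ, Fintype.card_fin, nsmul_eq_mul]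

lemma SS_zero (hPQ : TwPair N (zeta N ^ k) P Q) (U : Lk a b l → SU N) (h : SS k U = 0) :
    ∃ (z : Zf N a b) (g : Si a b l → SU N), cz N a b l z * gt sr tgt g U = U0 P Q := by
  have h0 : nonbase k U = 0 := by
    have h1 := nonbase_nonneg (k := k) U
    have h2 : 0 ≤ ∑ u : ZMod a × ZMod b, bmin U u := Finset.sum_nonneg fun u _ => bmin_nonneg U u
    unfold SS at h
    linarith
  obtain ⟨γ, z, hγ⟩ := rigid hPQ U h0
  refine ⟨z⁻¹, γ⁻¹, ?_⟩
  funext e
  rw [Pi.mul_apply, map_inv, Pi.inv_apply]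
  show (cz N a b l z e)⁻¹ * (γ⁻¹ e.1 * U e * (γ⁻¹ (e.1 + ee e.2))⁻¹) = _
  rw [hγ e, Pi.inv_apply, Pi.inv_apply]
  group

end cont

end

end Pool.Agent.Run7.h630.R2
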