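import Mathlib
import Pool.Agent.Run7.h630.R2.Dat
import Pool.Agent.Run7.h871.YM.Main
import Pool.Agent.Run7.h871.YM.Quad

/-!
# The partition functions of the twisted lattice at weak coupling
-/

open MeasureTheory Matrix Filter Pool.Agent.N991.MK Pool.Agent.N989.MK
open scoped Matrix.Norms.Frobenius Topology
open Pool.Agent.H906R3.YM Pool.Agent.W793.YM Pool.Agent.TH618.YM Pool.Agent.N984.TW
open Pool.Agent.N109.T3 (nz gs)
open Pool.Agent.Run7.h871.LG (adc nab ipE gt emE qE Dat Wt)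

namespace Pool.Agent.Run7.h630.R2

set_option linter.unusedSectionVars false
set_option linter.unusedVariables false

noncomputable section

variable {N n : ℕ} [NeZero N] (B : Frame (SU N) n) (hG : IsClosed (SU N : Set (UN N)))
  {a b l : ℕ} [NeZero a] [NeZero b] [NeZero l] {P Q : SU N} {k : ℕ}

/-- the expansion of the lower bound of the action -/
def ExpS (a b l : ℕ) [NeZero a] [NeZero b] [NeZero l] (k : ℕ) (P Q : SU N) : Prop :=
  ∀ x0 : V1 a b l n, Tendsto (fun p : ℝ × V1 a b l n => p.1 * SS k (emE B hG p.1 p.2 * U0 P Q))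
    (atTop ×ˢ 𝓝 x0) (𝓝 (qE (Dc B P Q x0) / 2))

/-- the expansion of the weight -/
def ExpW (a b l : ℕ) [NeZero a] [NeZero b] [NeZero l] (k : ℕ) (P Q : SU N) : Prop :=
  ∀ x0 : V1 a b l n, Tendsto (fun p : ℝ × V1 a b l n => wt k p.1 (emE B hG p.1 p.2 * U0 P Q))
    (atTop ×ˢ 𝓝 x0) (𝓝 (Real.exp (-(qE (Dc B P Q x0) / 2))))

lemma mkDat (hPQ : TwPair N (zeta N ^ k) P Q) (h : ExpS B hG a b l k P Q) :
    Dat B hG sr tgt (U0 P Q) (cz N a b l) (S00 N a b l) (Dc B P Q) (dvc B P Q)
      (SS k : (Lk a b l → SU N) → ℝ) where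
  cen := fun z e g => cz_cen z e g
  inj := cz_inj
  act := S00_act
  stab := S00_stab hPQ
  ker := nab_ker B hPQ
  flat := Dc_nab B hPQ
  adj := dvc_adj B
  nondeg := nondeg B hPQ
  cont := SS_cont
  nonneg := SS_nonneg
  invg := SS_gt
  invc := SS_cz
  zero := SS_zero hPQ
  quad := h

lemma mkWt (h : ExpW B hG a b l k P Q) :
    Wt B hG sr tgt (atTop : Filter ℝ) (fun β => max β 0) (fun β => wt k (max β 0))
      (U0 P Q) (cz N a b l) (Dc B P Q) (SS k : (Lk a b l → SU N) → ℝ) where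
  top := tendsto_atTop_mono (fun β => le_max_left β 0) tendsto_id
  cont := fun β => wt_cont _
  nonneg := fun β U => (wt_pos _ U).le
  invg := fun β g U => wt_gt _ g U
  invc := fun β z U => wt_cz _ z U
  bound := ⟨(N : ℝ) ^ (a * b), by positivity, fun β U => wt_bound (le_max_right β 0) U⟩
  lim := fun x0 => by
    have h1 : Tendsto (fun p : ℝ × V1 a b l n => (max p.1 0, p.2)) (atTop ×ˢ 𝓝 x0)
        (atTop ×ˢ 𝓝 x0) := by
      refine Tendsto.prodMk ?_ tendsto_snd
      exact (tendsto_atTop_mono (fun β => le_max_left β 0) tendsto_id).comp tendsto_fst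
    exact (h x0).comp h1

variable [MeasurableSpace (SU N)] [BorelSpace (SU N)] (μ : Measure (SU N)) [IsProbabilityMeasure μ]
  [μ.IsMulLeftInvariant] [μ.IsMulRightInvariant] [μ.IsInvInvariant]

include hG in
lemma Zt_pos (β : ℝ) : 0 < Zt μ l k β a b := by
  have hcomp : CompactSpace (SU N) := isCompact_iff_compactSpace.1 hG.isCompact
  have h00 : SecondCountableTopology (UN N) := TopologicalSpace.Subtype.secondCountableTopology _
  have hsc : SecondCountableTopology (SU N) := TopologicalSpace.Subtype.secondCountableTopology _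
  unfold Zt
  rw [integral_pos_iff_support_of_nonneg (fun U => (wt_pos β U).le)
    (Pool.Agent.Run7.h871.LG.int_contE (wt_cont β))]
  have h3 : Function.support (fun U : Lk a b l → SU N => wt k β U) = Set.univ := by
    ext g
    simp [(wt_pos (k := k) β g).ne']
  rw [h3, measure_univ]
  exact one_pos

lemma int_exp_qE (K : Type) [Fintype K] : ∫ x : K → Fin n → ℝ, Real.exp (-(qE x / 2)) =
    (∫ x, gs (n := n) x) ^ Fintype.card K := Pool.Agent.Run7.h871.LG.int_gE

lemma part_lim (hPQ : TwPair N (zeta N ^ k) P Q) (h1 : ExpS B hG a b l k P Q)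
    (h2 : ExpW B hG a b l k P Q) (hdet : 0 < LinearMap.det (La B P Q : V a b l n →ₗ[ℝ] _)) :
    Tendsto (fun β : ℝ => Zt μ l k β a b * nz μ β ^ Fintype.card (Si a b l) /
      nz μ β ^ Fintype.card (Lk a b l)) atTop
      (𝓝 ((N : ℝ) ^ (a * b) / LinearMap.det (La B P Q : V a b l n →ₗ[ℝ] _))) := by
  have h3 := Pool.Agent.Run7.h871.LG.main (μ := μ) (mkDat B hG hPQ h1) (mkWt B hG h2)
  have h4 : (Fintype.card (Zf N a b) : ℝ) / Nat.card (S00 N a b l) *
        ((∫ x, gs (n := n) x) ^ Fintype.card (Si a b l) /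
          (∫ x, gs (n := n) x) ^ Fintype.card (Lk a b l)) *
        ((∫ x : V1 a b l n, Real.exp (-((qE (Dc B P Q x) + qE (dvc B P Q x)) / 2))) /
          ∫ f : V a b l n, Real.exp (-(qE (dvc B P Q (nab B sr tgt (U0 P Q) f)) / 2))) =
      (N : ℝ) ^ (a * b) / LinearMap.det (La B P Q : V a b l n →ₗ[ℝ] _) := by
    have hΓ : (∫ x, gs (n := n) x) ≠ 0 := Pool.Agent.N839.T3.gs_int_pos.ne'
    have e1 := gauss_V (a := a) (b := b) (l := l) B hPQ hdet.ne'
    have e2 := gauss_E (a := a) (b := b) (l := l) B hPQ hdet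
    rw [int_exp_qE] at e1 e2
    rw [e1, e2, Zf_card, S00_card, abs_of_pos hdet]
    have hN : (N : ℝ) ≠ 0 := by exact_mod_cast NeZero.ne N
    push_cast
    generalize (∫ x, gs (n := n) x) = Γ at hΓ
    generalize LinearMap.det (La B P Q : V a b l n →ₗ[ℝ] _) = D at hdet
    have hD : D ≠ 0 := hdet.ne'
    rw [two_mul, pow_add]
    field_simp
  rw [h4] at h3
  refine h3.congr' ?_
  filter_upwards [eventually_ge_atTop 0] with β hβ
  rw [max_eq_left hβ]
  rfl

/-- the ratio of the partition functions at weak coupling -/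
theorem zt_ratio (l : ℕ) [NeZero l] (hPQ : TwPair N (zeta N ^ k) P Q) (a a' b : ℕ) [NeZero a]
    [NeZero a'] [NeZero b] (ha : a' = 2 * a)
    (h1 : 0 < LinearMap.det (La B P Q : V a b l n →ₗ[ℝ] _))
    (h2 : 0 < LinearMap.det (La B P Q : V a' b l n →ₗ[ℝ] _)) :
    Tendsto (fun β : ℝ => Zt μ l k β a' b / Zt μ l k β a b ^ 2) atTop
      (𝓝 (LinearMap.det (La B P Q : V a b l n →ₗ[ℝ] _) ^ 2 /
        LinearMap.det (La B P Q : V a' b l n →ₗ[ℝ] _))) := by
  have hG := SU_closed N
  have hcomp : CompactSpace (SU N) := isCompact_iff_compactSpace.1 hG.isCompact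
  have h00 : SecondCountableTopology (UN N) := TopologicalSpace.Subtype.secondCountableTopology _
  have hsc : SecondCountableTopology (SU N) := TopologicalSpace.Subtype.secondCountableTopology _
  have t1 := part_lim B (SU_closed N) μ hPQ (Pool.Agent.Run7.h871.LG.quad (B := B) hPQ)
    (Pool.Agent.Run7.h871.LG.wt_lim (B := B) hPQ) h1
  have t2 := part_lim B (SU_closed N) μ hPQ (Pool.Agent.Run7.h871.LG.quad (B := B) hPQ)
    (Pool.Agent.Run7.h871.LG.wt_lim (B := B) hPQ) h2
  have hN : (0 : ℝ) < N := by exact_mod_cast NeZero.pos N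
  have t3 := t2.div (t1.pow 2) (by positivity)
  have c1 : Fintype.card (Si a' b l) = 2 * Fintype.card (Si a b l) := by
    simp only [Fintype.card_prod, ZMod.card, ha]
    ring
  have c2 : Fintype.card (Lk a' b l) = 2 * Fintype.card (Lk a b l) := by
    simp only [Fintype.card_prod, ZMod.card, ha]
    ring
  have e1 : (N : ℝ) ^ (a' * b) / LinearMap.det (La B P Q : V a' b l n →ₗ[ℝ] _) /
      ((N : ℝ) ^ (a * b) / LinearMap.det (La B P Q : V a b l n →ₗ[ℝ] _)) ^ 2 =
      LinearMap.det (La B P Q : V a b l n →ₗ[ℝ] _) ^ 2 /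
        LinearMap.det (La B P Q : V a' b l n →ₗ[ℝ] _) := by
    have h5 : (N : ℝ) ^ (a' * b) = ((N : ℝ) ^ (a * b)) ^ 2 := by
      rw [← pow_mul, ha]; ring_nf
    rw [h5]
    have h6 := h1.ne'
    have h7 := h2.ne'
    field_simp
  rw [e1] at t3
  refine t3.congr fun β => ?_
  have hz : 0 < nz μ β := Pool.Agent.N839.T3.nz_pos β
  show Zt μ l k β a' b * nz μ β ^ Fintype.card (Si a' b l) / nz μ β ^ Fintype.card (Lk a' b l) /
      (Zt μ l k β a b * nz μ β ^ Fintype.card (Si a b l) / nz μ β ^ Fintype.card (Lk a b l)) ^ 2 =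
      Zt μ l k β a' b / Zt μ l k β a b ^ 2
  have hZ : 0 < Zt μ l k β a b := Zt_pos hG μ β
  rw [c1, c2, pow_mul', pow_mul']
  have := hz.ne'
  field_simp

end

end Pool.Agent.Run7.h630.R2
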