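import Mathlib
import Pool.Agent.Run7.h871.YM.Main

/-!
# Laplace's method for gauge invariant functions with a general limit of the weights
-/

open MeasureTheory Filter Matrix Pool.Agent.N991.MK Pool.Agent.N989.MK
open scoped Matrix.Norms.Frobenius Topology ENNReal
open Pool.Agent.H906R3.YM Pool.Agent.W793.YM Pool.Agent.TH618.YM Pool.Agent.N984.TW
open Pool.Agent.N109.T3 (nz gs cvR)
open Pool.Agent.N839.T3
open Pool.Agent.Run7.h871.LG

namespace Pool.Agent.Run7.h630.R2

set_option linter.unusedSectionVars false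
set_option linter.unusedVariables false

noncomputable section

variable {N n : ℕ} {G : Subgroup (UN N)} {B : Frame G n} {hG : IsClosed (G : Set (UN N))}
  {E Λ P : Type*} [Fintype E] [Fintype Λ] [Fintype P] {s t : E → Λ} {U0 : E → G}
  {Zf : Type*} [Group Zf] [Fintype Zf] {c : Zf →* (E → G)}
  {S0 : Subgroup (Λ → G)} [Finite S0] {D : (E → Fin n → ℝ) →ₗ[ℝ] (P → Fin n → ℝ)}
  {dv : (E → Fin n → ℝ) →ₗ[ℝ] (Λ → Fin n → ℝ)} {S : (E → G) → ℝ}

variable (B hG s t) in
/-- The weights `w i` at the inverse temperatures `h i`, with the limit `W`. -/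
structure WtW {ι : Type*} (l : Filter ι) (h : ι → ℝ) (w : ι → (E → G) → ℝ) (U0 : E → G)
    {Zf : Type*} [Group Zf] [Fintype Zf] (c : Zf →* (E → G))
    (W : (E → Fin n → ℝ) → ℝ) (S : (E → G) → ℝ) : Prop where
  top : Tendsto h l atTop
  cont : ∀ i, Continuous (w i)
  nonneg : ∀ i U, 0 ≤ w i U
  invg : ∀ i g U, w i (gt s t g U) = w i U
  invc : ∀ i z U, w i (c z * U) = w i U
  bound : ∃ C : ℝ, 0 ≤ C ∧ ∀ i U, w i U ≤ C * Real.exp (-(h i * S U))
  contW : Continuous W
  nonnegW : ∀ x, 0 ≤ W x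
  invW : ∀ x a, W (x + nab B s t U0 a) = W x
  lim : ∀ x0, Tendsto (fun p : ι × (E → Fin n → ℝ) => w p.1 (emE B hG (h p.1) p.2 * U0))
    (l ×ˢ 𝓝 x0) (𝓝 (W x0))

section meas

variable [MeasurableSpace G] [BorelSpace G] {μ : Measure G} [IsProbabilityMeasure μ]
  [μ.IsMulLeftInvariant] [μ.IsMulRightInvariant] [μ.IsInvInvariant]

/-- the change of the gauge fixing -/
lemma lin_exchW (d : Dat B hG s t U0 c S0 D dv S) {k : ℝ} (hk : 0 < k)
    {W : (E → Fin n → ℝ) → ℝ} (cD : Continuous W) (hW0 : ∀ x, 0 ≤ W x)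
    (hWi : ∀ x a, W (x + nab B s t U0 a) = W x) :
    ∫ x : E → Fin n → ℝ, W x * Real.exp (-(k * qE x)) /
        JJ B s t U0 k x =
      (∫ x : E → Fin n → ℝ, W x * Real.exp (-(qE (dv x) / 2))) /
        ∫ a : Λ → Fin n → ℝ, Real.exp (-(qE (dv (nab B s t U0 a)) / 2)) := by
  have cE : Continuous fun x : E → Fin n → ℝ => Real.exp (-(k * qE x)) := by
    have := qE_cont (n := n) (E := E)
    fun_prop
  have cV : Continuous fun x : E → Fin n → ℝ => Real.exp (-(qE (dv x) / 2)) := by
    have h1 : Continuous fun x : E → Fin n → ℝ => qE (dv x) :=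
      qE_cont.comp dv.continuous_of_finiteDimensional
    fun_prop
  have hΨ0 : ∀ x : E → Fin n → ℝ, ∫⁻ a : Λ → Fin n → ℝ,
      ENNReal.ofReal (Real.exp (-(qE (dv (x + nabL B s t U0 a)) / 2))) =
      ∫⁻ a : Λ → Fin n → ℝ, ENNReal.ofReal (Real.exp (-(qE (dv (nab B s t U0 a)) / 2))) := by
    intro x
    obtain ⟨a0, ha0⟩ := dvn_surj d (dv x)
    have h1 : dv (nab B s t U0 a0) = dv x := ha0
    rw [← lintegral_add_left_eq_self (μ := volume) (fun a : Λ → Fin n → ℝ =>
      ENNReal.ofReal (Real.exp (-(qE (dv (nab B s t U0 a)) / 2)))) a0]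
    refine lintegral_congr fun a => ?_
    rw [nab_add, map_add dv x, map_add dv (nab B s t U0 a0), h1]
    rfl
  have cN : Continuous fun a : Λ → Fin n → ℝ =>
      Real.exp (-(qE (dv (nab B s t U0 a)) / 2)) := cV.comp nab_cont
  -- the constant is finite and positive
  have hfin : ∫⁻ a : Λ → Fin n → ℝ,
      ENNReal.ofReal (Real.exp (-(qE (dv (nab B s t U0 a)) / 2))) ≠ ∞ := by
    have hi : Integrable fun a : Λ → Fin n → ℝ =>
        Real.exp (-(qE (dv (nab B s t U0 a)) / 2)) := by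
      obtain ⟨e, he⟩ : ∃ e : (Λ → Fin n → ℝ) ≃L[ℝ] (Λ → Fin n → ℝ), ∀ a,
          e a = dv (nab B s t U0 a) :=
        ⟨(LinearEquiv.ofBijective (dv.comp (nabL B s t U0)) ⟨dvn_inj d, dvn_surj d⟩
          ).toContinuousLinearEquiv, fun a => rfl⟩
      obtain ⟨K, hK0, hK⟩ : ∃ K : ℝ, 0 < K ∧ ∀ y : Λ → Fin n → ℝ, ‖e.symm y‖ ≤ K * ‖y‖ := by
        refine ⟨‖(e.symm : (Λ → Fin n → ℝ) →L[ℝ] (Λ → Fin n → ℝ))‖ + 1, by positivity,
          fun y => ?_⟩
        refine ((e.symm : (Λ → Fin n → ℝ) →L[ℝ] (Λ → Fin n → ℝ)).le_opNorm y).trans ?_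
        exact mul_le_mul_of_nonneg_right (by linarith) (norm_nonneg _)
      have hn1 : ∀ y : Λ → Fin n → ℝ, ‖y‖ ^ 2 ≤ qE y := by
        intro y
        have h2 : ‖y‖ ≤ Real.sqrt (qE y) := by
          refine (pi_norm_le_iff_of_nonneg (Real.sqrt_nonneg _)).2 fun e => ?_
          refine (norm_le_nE (y e)).trans (nE_le_of_qE (Real.sqrt_nonneg _) ?_ e)
          rw [Real.sq_sqrt (qE_nonneg _)]
        have h3 := pow_le_pow_left₀ (norm_nonneg _) h2 2
        rwa [Real.sq_sqrt (qE_nonneg _)] at h3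
      have hn2 : ∀ y : Λ → Fin n → ℝ, qE y ≤ (Fintype.card Λ * n + 1) * ‖y‖ ^ 2 := by
        intro y
        unfold qE
        have h2 : ∀ e : Λ, nE (y e) ^ 2 ≤ n * ‖y‖ ^ 2 := by
          intro e
          have h3 := nE_le_norm (y e)
          have h4 := norm_le_pi_norm y e
          have h5 : nE (y e) ≤ Real.sqrt n * ‖y‖ :=
            h3.trans (mul_le_mul_of_nonneg_left h4 (Real.sqrt_nonneg _))
          have h6 := pow_le_pow_left₀ (nE_nonneg _) h5 2
          rwa [mul_pow, Real.sq_sqrt (Nat.cast_nonneg n)] at h6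
        refine (Finset.sum_le_sum fun e _ => h2 e).trans ?_
        rw [Finset.sum_const, Finset.card_univ, nsmul_eq_mul]
        nlinarith [sq_nonneg ‖y‖]
      obtain ⟨M, hM⟩ : ∃ M : ℝ, M = (Fintype.card Λ * n + 1) * K ^ 2 := ⟨_, rfl⟩
      have hM0 : 0 < M := by rw [hM]; positivity
      have hlow : ∀ a : Λ → Fin n → ℝ, qE a / M ≤ qE (dv (nab B s t U0 a)) := by
        intro a
        rw [div_le_iff₀ hM0, ← he]
        have h2 := hK (e a)
        rw [ContinuousLinearEquiv.symm_apply_apply] at h2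
        have h3 := pow_le_pow_left₀ (norm_nonneg _) h2 2
        rw [mul_pow] at h3
        calc qE a ≤ (Fintype.card Λ * n + 1) * ‖a‖ ^ 2 := hn2 a
          _ ≤ (Fintype.card Λ * n + 1) * (K ^ 2 * ‖e a‖ ^ 2) :=
              mul_le_mul_of_nonneg_left h3 (by positivity)
          _ ≤ (Fintype.card Λ * n + 1) * (K ^ 2 * qE (e a)) := by
              refine mul_le_mul_of_nonneg_left ?_ (by positivity)
              exact mul_le_mul_of_nonneg_left (hn1 _) (by positivity)
          _ = qE (e a) * M := by rw [hM]; ring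
      refine Integrable.mono' (exp_qE_int (n := n) (E := Λ) (c := 1 / (2 * M)) (by positivity))
        cN.aestronglyMeasurable (Eventually.of_forall fun a => ?_)
      rw [Real.norm_eq_abs, abs_of_pos (Real.exp_pos _)]
      refine Real.exp_le_exp.2 (neg_le_neg ?_)
      have h2 := hlow a
      have e3 : 1 / (2 * M) * qE a = qE a / M / 2 := by field_simp
      rw [e3]
      linarith
    exact (hi.lintegral_lt_top).ne
  have hpos : ∫⁻ a : Λ → Fin n → ℝ,
      ENNReal.ofReal (Real.exp (-(qE (dv (nab B s t U0 a)) / 2))) ≠ 0 := by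
    refine (lintegral_pos_iff_support (cN.measurable.ennreal_ofReal)).2 ?_ |>.ne'
    have h3 : Function.support (fun a : Λ → Fin n → ℝ =>
        ENNReal.ofReal (Real.exp (-(qE (dv (nab B s t U0 a)) / 2)))) = Set.univ := by
      ext a
      simp [Real.exp_pos]
    rw [h3]
    exact isOpen_univ.measure_pos _ Set.univ_nonempty
  have hΦ : ∀ x : E → Fin n → ℝ, ENNReal.ofReal (JJ B s t U0 k x) =
      ∫⁻ a : Λ → Fin n → ℝ, ENNReal.ofReal (Real.exp (-(k * qE (x + nabL B s t U0 a)))) := by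
    intro x
    unfold JJ
    exact ofReal_integral_eq_lintegral_ofReal (JJ_int d hk x)
      (Eventually.of_forall fun a => (Real.exp_pos _).le)
  have key := exch (volume : Measure (E → Fin n → ℝ)) (volume : Measure (Λ → Fin n → ℝ))
    (nabL B s t U0) (W := fun x => ENNReal.ofReal (W x))
    (φ := fun x => ENNReal.ofReal (Real.exp (-(k * qE x))))
    (ψ := fun x => ENNReal.ofReal (Real.exp (-(qE (dv x) / 2))))
    cD.measurable.ennreal_ofReal cE.measurable.ennreal_ofReal cV.measurable.ennreal_ofReal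
    (fun x a => by
      beta_reduce
      exact congrArg ENNReal.ofReal (hWi x a))
    (Φ := fun x => ENNReal.ofReal (JJ B s t U0 k x))
    (Ψ := fun _ => ∫⁻ a : Λ → Fin n → ℝ,
      ENNReal.ofReal (Real.exp (-(qE (dv (nab B s t U0 a)) / 2))))
    hΦ (fun x => (hΨ0 x).symm)
    (fun x => (ENNReal.ofReal_pos.2 (JJ_pos d hk x)).ne') (fun x => ENNReal.ofReal_ne_top)
    (fun _ => hpos) (fun _ => hfin)
  -- back to real integrals
  have mJ : Measurable fun x : E → Fin n → ℝ => JJ B s t U0 k x := by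
    have h1 : (fun x : E → Fin n → ℝ => JJ B s t U0 k x) = fun x =>
        (∫⁻ a : Λ → Fin n → ℝ,
          ENNReal.ofReal (Real.exp (-(k * qE (x + nabL B s t U0 a))))).toReal := by
      funext x
      rw [← hΦ, ENNReal.toReal_ofReal (JJ_pos d hk x).le]
    rw [h1]
    refine Measurable.ennreal_toReal ?_
    refine Measurable.lintegral_prod_right' (f := fun p : (E → Fin n → ℝ) × (Λ → Fin n → ℝ) =>
      ENNReal.ofReal (Real.exp (-(k * qE (p.1 + nabL B s t U0 p.2))))) ?_
    have h2 : Continuous fun p : (E → Fin n → ℝ) × (Λ → Fin n → ℝ) =>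
        p.1 + nabL B s t U0 p.2 :=
      continuous_fst.add ((nabL B s t U0).continuous_of_finiteDimensional.comp continuous_snd)
    exact (cE.comp h2).measurable.ennreal_ofReal
  have m3 : AEStronglyMeasurable (fun x : E → Fin n → ℝ => W x *
      Real.exp (-(k * qE x)) / JJ B s t U0 k x) volume :=
    ((cD.mul cE).measurable.div mJ).aestronglyMeasurable
  have n3 : 0 ≤ᵐ[volume] fun x : E → Fin n → ℝ => W x *
      Real.exp (-(k * qE x)) / JJ B s t U0 k x := Eventually.of_forall fun x => by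
    have := JJ_pos d hk x
    have := hW0 x
    change 0 ≤ W x * Real.exp (-(k * qE x)) / JJ B s t U0 k x
    positivity
  rw [integral_eq_lintegral_of_nonneg_ae n3 m3,
    integral_eq_lintegral_of_nonneg_ae (Eventually.of_forall fun x =>
      mul_nonneg (hW0 x) (Real.exp_pos _).le) (cD.mul cV).aestronglyMeasurable,
    integral_eq_lintegral_of_nonneg_ae (Eventually.of_forall fun x => (Real.exp_pos _).le)
      cN.aestronglyMeasurable, ← ENNReal.toReal_div]
  congr 1
  have e1 : ∀ x : E → Fin n → ℝ, ENNReal.ofReal (W x *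
      Real.exp (-(k * qE x)) / JJ B s t U0 k x) =
      ENNReal.ofReal (W x) * ENNReal.ofReal (Real.exp (-(k * qE x))) /
        ENNReal.ofReal (JJ B s t U0 k x) := by
    intro x
    rw [ENNReal.ofReal_div_of_pos (JJ_pos d hk x), ENNReal.ofReal_mul (hW0 x)]
  obtain ⟨I, hI⟩ : ∃ I : ℝ≥0∞, I = ∫⁻ a : Λ → Fin n → ℝ,
      ENNReal.ofReal (Real.exp (-(qE (dv (nab B s t U0 a)) / 2))) := ⟨_, rfl⟩
  rw [lintegral_congr e1, key, ← hI]
  have mP : Measurable fun x : E → Fin n → ℝ => ENNReal.ofReal (W x) *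
      ENNReal.ofReal (Real.exp (-(qE (dv x) / 2))) :=
    (cD.measurable.ennreal_ofReal).mul (cV.measurable.ennreal_ofReal)
  have e2 : ∫⁻ x : E → Fin n → ℝ, ENNReal.ofReal (W x) *
      ENNReal.ofReal (Real.exp (-(qE (dv x) / 2))) / I =
      (∫⁻ x : E → Fin n → ℝ, ENNReal.ofReal (W x) *
      ENNReal.ofReal (Real.exp (-(qE (dv x) / 2)))) / I := by
    rw [ENNReal.div_eq_inv_mul (b := I), ← lintegral_const_mul _ mP]
    exact lintegral_congr fun x => ENNReal.div_eq_inv_mul
  rw [e2]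
  congr 1
  refine lintegral_congr fun x => ?_
  rw [← ENNReal.ofReal_mul (hW0 x)]

/-- **Laplace's method for gauge invariant functions.** -/
theorem mainW {ι : Type*} {l : Filter ι} [l.IsCountablyGenerated] {h : ι → ℝ}
    {w : ι → (E → G) → ℝ} {W : (E → Fin n → ℝ) → ℝ} (d : Dat B hG s t U0 c S0 D dv S)
    (hw : WtW B hG s t l h w U0 c W S) :
    Tendsto (fun i => (∫ U, w i U ∂(μE μ E)) * nz μ (h i) ^ Fintype.card Λ /
        nz μ (h i) ^ Fintype.card E) l
      (𝓝 ((Fintype.card Zf : ℝ) / Nat.card S0 *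
        ((∫ x, gs (n := n) x) ^ Fintype.card Λ / (∫ x, gs (n := n) x) ^ Fintype.card E) *
        ((∫ x : E → Fin n → ℝ, W x * Real.exp (-(qE (dv x) / 2))) /
          ∫ a : Λ → Fin n → ℝ, Real.exp (-(qE (dv (nab B s t U0 a)) / 2))))) := by
  have hcomp : CompactSpace G := isCompact_iff_compactSpace.1 hG.isCompact
  have h00 : SecondCountableTopology (UN N) := TopologicalSpace.Subtype.secondCountableTopology _
  have hsc : SecondCountableTopology G := TopologicalSpace.Subtype.secondCountableTopology _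
  obtain ⟨k, hk, hcoer⟩ := coer d
  obtain ⟨c2, hc2, hlow⟩ := Ph_lower (μ := μ) (s := s) (t := t) (U0 := U0) (c := c) hk
  obtain ⟨Γ, hΓ⟩ : ∃ Γ, Γ = ∫ x, gs (n := n) x := ⟨_, rfl⟩
  have hΓ0 : 0 < Γ := by rw [hΓ]; exact gs_int_pos
  have hS0 : 0 < (Nat.card S0 : ℝ) := by exact_mod_cast Nat.card_pos
  obtain ⟨f, hf⟩ : ∃ f : ι → (E → G) → ℝ, f = fun i y => nz μ (h i) ^ Fintype.card Λ *
    (w i (y * U0) * (Real.exp (-(k * (h i * qN y))) / Ph μ s t U0 c k (h i) (y * U0))) :=
    ⟨_, rfl⟩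
  obtain ⟨F, hF⟩ : ∃ F : (E → Fin n → ℝ) → ℝ, F = fun x => Γ ^ Fintype.card Λ / Nat.card S0 *
    (W x * Real.exp (-(k * qE x)) / JJ B s t U0 k x) := ⟨_, rfl⟩
  have hcU : Continuous fun y : E → G => y * U0 := continuous_id.mul continuous_const
  have H : SDE B hG l h f F := by
    refine ⟨hw.top, fun i => ?_, fun x => ?_, ?_⟩
    · rw [hf]
      have c1 : Continuous fun y : E → G => w i (y * U0) := (hw.cont i).comp hcU
      have c2 : Continuous fun y : E → G => Ph μ s t U0 c k (h i) (y * U0) :=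
        (Ph_cont k (h i)).comp hcU
      have c3 : Continuous fun y : E → G => Real.exp (-(k * (h i * qN y))) :=
        (exp_cont k (h i)).comp qN_cont
      exact continuous_const.mul (c1.mul (c3.div c2 fun y => (Ph_pos k (h i) _).ne'))
    · have h1 := hw.lim x
      have h2 := Ph_lim (μ := μ) d hk hw.top x
      have hh' : Tendsto (fun p : ι × (E → Fin n → ℝ) => h p.1) (l ×ˢ 𝓝 x) atTop :=
        hw.top.comp tendsto_fst
      have h3 := emE_size (B := B) (hG := hG) hh'
        (X := fun p : ι × (E → Fin n → ℝ) => p.2) (x0 := x) tendsto_snd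
      have h4 := (Real.continuous_exp.tendsto _).comp ((h3.const_mul k).neg)
      have hJ := JJ_pos d hk x
      have h5 : (Nat.card S0 : ℝ) * (JJ B s t U0 k x /
          (∫ x, gs (n := n) x) ^ Fintype.card Λ) ≠ 0 := by
        rw [← hΓ]
        positivity
      have h6 := h1.mul (h4.mul (h2.inv₀ h5))
      have e1 : W x * (Real.exp (-(k * qE x)) * ((Nat.card S0 : ℝ) *
          (JJ B s t U0 k x / (∫ x, gs (n := n) x) ^ Fintype.card Λ))⁻¹) = F x := by
        rw [hF, ← hΓ]
        beta_reduce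
        field_simp
      rw [e1] at h6
      refine h6.congr fun p => ?_
      rw [hf]
      beta_reduce
      have hz := (nz_pos (μ := μ) (h p.1)).ne'
      have hP := (Ph_pos (μ := μ) (s := s) (t := t) (U0 := U0) (c := c) k (h p.1)
        (emE B hG (h p.1) p.2 * U0)).ne'
      simp only [Function.comp]
      field_simp
    · obtain ⟨C, hC, hb⟩ := hw.bound
      refine ⟨C / c2, k, by positivity, hk, ?_⟩
      filter_upwards [hw.top.eventually_gt_atTop 0] with i h0 y
      obtain ⟨z, g, hzg⟩ := exists_mn d (y * U0)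
      obtain ⟨V, hV⟩ : ∃ V, V = c z * gt s t g (y * U0) := ⟨_, rfl⟩
      rw [← hV] at hzg
      have h1 : w i (y * U0) = w i V := by rw [hV, hw.invc, hw.invg]
      have h2 : Ph μ s t U0 c k (h i) (y * U0) = Ph μ s t U0 c k (h i) V := by
        rw [hV, Ph_inv d.cen]
      have h3 := hlow (h i) h0 V hzg
      have h4 := hcoer V hzg
      have h5 : w i V ≤ C * Real.exp (-(k * (h i * qd U0 V))) := by
        refine (hb i V).trans (mul_le_mul_of_nonneg_left (Real.exp_le_exp.2 (neg_le_neg ?_)) hC)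
        have := mul_le_mul_of_nonneg_left h4 h0.le
        linarith
      have hz := nz_pos (μ := μ) (h i)
      have hP := Ph_pos (μ := μ) (s := s) (t := t) (U0 := U0) (c := c) k (h i) V
      have he := Real.exp_pos (-(k * (h i * qd U0 V)))
      rw [hf]
      beta_reduce
      rw [h1, h2, abs_of_nonneg (by
        have := hw.nonneg i V
        positivity)]
      rw [show nz μ (h i) ^ Fintype.card Λ * (w i V * (Real.exp (-(k * (h i * qN y))) /
        Ph μ s t U0 c k (h i) V)) = (nz μ (h i) ^ Fintype.card Λ * w i V *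
          Real.exp (-(k * (h i * qN y)))) / Ph μ s t U0 c k (h i) V by ring]
      rw [div_le_iff₀ hP]
      calc nz μ (h i) ^ Fintype.card Λ * w i V * Real.exp (-(k * (h i * qN y))) ≤
          nz μ (h i) ^ Fintype.card Λ * (C * Real.exp (-(k * (h i * qd U0 V)))) *
            Real.exp (-(k * (h i * qN y))) := by
            gcongr
        _ = C / c2 * Real.exp (-(k * (h i * qN y))) * (c2 * nz μ (h i) ^ Fintype.card Λ *
            Real.exp (-(k * (h i * qd U0 V)))) := by
            field_simp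
        _ ≤ _ := by gcongr
  have h1 := (H.int_lim (μ := μ)).const_mul (Fintype.card Zf : ℝ)
  have e1 : ∫ x, F x = Γ ^ Fintype.card Λ / Nat.card S0 *
      ((∫ x : E → Fin n → ℝ, W x * Real.exp (-(qE (dv x) / 2))) /
          ∫ a : Λ → Fin n → ℝ, Real.exp (-(qE (dv (nab B s t U0 a)) / 2))) := by
    rw [hF, integral_const_mul, lin_exchW d hk hw.contW hw.nonnegW hw.invW]
  rw [e1, ← hΓ] at h1
  rw [← hΓ]
  have e2 : (Fintype.card Zf : ℝ) / Nat.card S0 *
        (Γ ^ Fintype.card Λ / Γ ^ Fintype.card E) *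
        ((∫ x : E → Fin n → ℝ, W x * Real.exp (-(qE (dv x) / 2))) /
          ∫ a : Λ → Fin n → ℝ, Real.exp (-(qE (dv (nab B s t U0 a)) / 2))) =
      (Fintype.card Zf : ℝ) * (Γ ^ Fintype.card Λ / Nat.card S0 *
      ((∫ x : E → Fin n → ℝ, W x * Real.exp (-(qE (dv x) / 2))) /
          ∫ a : Λ → Fin n → ℝ, Real.exp (-(qE (dv (nab B s t U0 a)) / 2))) /
            Γ ^ Fintype.card E) := by ring
  rw [e2]
  refine h1.congr fun i => ?_
  have h2 := fp_id (μ := μ) (s := s) (t := t) (U0 := U0) d.cen k (h i) (hw.cont i) (hw.invg i)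
    (hw.invc i)
  have h3 : ∫ y, f i y ∂(μE μ E) = nz μ (h i) ^ Fintype.card Λ *
      ∫ U, w i U * (Real.exp (-(k * (h i * qd U0 U))) / Ph μ s t U0 c k (h i) U) ∂(μE μ E) := by
    rw [← integral_mul_right_eq_self (μ := μE μ E)
      (fun U => w i U * (Real.exp (-(k * (h i * qd U0 U))) / Ph μ s t U0 c k (h i) U)) U0,
      ← integral_const_mul, hf]
    refine integral_congr_ae (Eventually.of_forall fun y => ?_)
    beta_reduce
    unfold qd
    rw [mul_inv_cancel_right]
  rw [h2, h3]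
  ring

end meas

end

end Pool.Agent.Run7.h630.R2
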