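import Mathlib
import Pool.Agent.Run7.h630.R2.Pur
import Pool.Agent.Run7.h630.R2.MainW

/-!
# Expectations of bounded observables at weak coupling
-/

open MeasureTheory Matrix Filter Pool.Agent.N991.MK Pool.Agent.N989.MK
open scoped Matrix.Norms.Frobenius Topology
open Pool.Agent.H906R3.YM Pool.Agent.W793.YM Pool.Agent.TH618.YM Pool.Agent.N984.TW
open Pool.Agent.N109.T3 (nz gs)
open Pool.Agent.Run7.h871.LG (adc nab ipE gt emE qE Dat Wt)

namespace Pool.Agent.Run7.h630.R2

set_option linter.unusedSectionVars false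
set_option linter.unusedVariables false

noncomputable section

variable {N n : ℕ} [NeZero N] (B : Frame (SU N) n)
  {a b l : ℕ} [NeZero a] [NeZero b] [NeZero l] {P Q : SU N} {k : ℕ}

/-- bounded observables with a limit at weak coupling -/
structure Obs (P Q : SU N) (H : ℝ → (Lk a b l → SU N) → ℝ) (g : V1 a b l n → ℝ) : Prop where
  cont : ∀ β, Continuous (H β)
  bd : ∀ β U, |H β U| ≤ 1
  invg : ∀ β γ U, H β (gt sr tgt γ U) = H β U
  invc : ∀ β z U, H β (cz N a b l z * U) = H β U
  contg : Continuous g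
  bdg : ∀ x, |g x| ≤ 1
  invG : ∀ x f, g (x + nab B sr tgt (U0 P Q) f) = g x
  lim : ∀ x0, Tendsto (fun p : ℝ × V1 a b l n =>
    H p.1 (emE B (SU_closed N) p.1 p.2 * U0 P Q)) (atTop ×ˢ 𝓝 x0) (𝓝 (g x0))

/-- the Gaussian weight -/
def gw (P Q : SU N) (x : V1 a b l n) : ℝ := Real.exp (-((qE (Dc B P Q x) + qE (dvc B P Q x)) / 2))

lemma gw_pos (x : V1 a b l n) : 0 < gw B P Q x := Real.exp_pos _

lemma gw_int_pos (hPQ : TwPair N (zeta N ^ k) P Q)
    (hdet : 0 < LinearMap.det (La B P Q : V a b l n →ₗ[ℝ] _)) :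
    0 < ∫ x : V1 a b l n, gw B P Q x := by
  have h1 := gauss_E (a := a) (b := b) (l := l) B hPQ hdet
  rw [int_exp_qE] at h1
  have hΓ : 0 < (∫ x, gs (n := n) x) := Pool.Agent.N839.T3.gs_int_pos
  unfold gw
  rw [h1]
  positivity

lemma gw_int (hPQ : TwPair N (zeta N ^ k) P Q)
    (hdet : 0 < LinearMap.det (La B P Q : V a b l n →ₗ[ℝ] _)) :
    Integrable (fun x : V1 a b l n => gw B P Q x) := by
  by_contra h
  have h1 := gw_int_pos (a := a) (b := b) (l := l) B hPQ hdet
  rw [integral_undef h] at h1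
  exact lt_irrefl _ h1

/-- the Gaussian expectation -/
def gE1 (P Q : SU N) (g : V1 a b l n → ℝ) : ℝ :=
  (∫ x, g x * gw B P Q x) / ∫ x : V1 a b l n, gw B P Q x

variable [MeasurableSpace (SU N)] [BorelSpace (SU N)] (μ : Measure (SU N)) [IsProbabilityMeasure μ]

/-- the expectation of an observable -/
def Et (k : ℕ) (β : ℝ) (H : (Lk a b l → SU N) → ℝ) : ℝ :=
  (∫ U, H U * wt k β U ∂(Measure.pi fun _ => μ)) / Zt μ l k β a b

variable [μ.IsMulLeftInvariant] [μ.IsMulRightInvariant] [μ.IsInvInvariant]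

lemma mkWtW (hPQ : TwPair N (zeta N ^ k) P Q) {H : ℝ → (Lk a b l → SU N) → ℝ}
    {g : V1 a b l n → ℝ} (h : Obs B P Q H g) :
    WtW B (SU_closed N) sr tgt (atTop : Filter ℝ) (fun β => max β 0)
      (fun β U => (1 + H (max β 0) U) * wt k (max β 0) U)
      (U0 P Q) (cz N a b l) (fun x => (1 + g x) * Real.exp (-(qE (Dc B P Q x) / 2)))
      (SS k : (Lk a b l → SU N) → ℝ) where
  top := tendsto_atTop_mono (fun β => le_max_left β 0) tendsto_id
  cont := fun β => (continuous_const.add (h.cont _)).mul (wt_cont _)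
  nonneg := fun β U => mul_nonneg (by linarith [(abs_le.1 (h.bd (max β 0) U)).1]) (wt_pos _ U).le
  invg := fun β g U => by rw [wt_gt, h.invg]
  invc := fun β z U => by rw [wt_cz, h.invc]
  bound := ⟨2 * (N : ℝ) ^ (a * b), by positivity, fun β U => by
    have h1 := wt_bound (k := k) (le_max_right β 0) U
    have h2 := (abs_le.1 (h.bd (max β 0) U)).2
    have h3 := wt_pos (k := k) (max β 0) U
    nlinarith⟩
  contW := by
    have h1 : Continuous fun x : V1 a b l n => qE (Dc B P Q x) :=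
      Pool.Agent.Run7.h871.LG.qE_cont.comp (Dc B P Q).continuous_of_finiteDimensional
    exact (continuous_const.add h.contg).mul
      (Real.continuous_exp.comp ((h1.div_const 2).neg))
  nonnegW := fun x => mul_nonneg (by linarith [(abs_le.1 (h.bdg x)).1]) (Real.exp_pos _).le
  invW := fun x f => by
    rw [h.invG, map_add, Dc_nab B hPQ, add_zero]
  lim := fun x0 => by
    have h1 : Tendsto (fun p : ℝ × V1 a b l n => (max p.1 0, p.2)) (atTop ×ˢ 𝓝 x0)
        (atTop ×ˢ 𝓝 x0) := by
      refine Tendsto.prodMk ?_ tendsto_snd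
      exact (tendsto_atTop_mono (fun β => le_max_left β 0) tendsto_id).comp tendsto_fst
    exact (((h.lim x0).const_add 1).mul
      (Pool.Agent.Run7.h871.LG.wt_lim (B := B) hPQ x0)).comp h1

lemma obs_lim1 (hPQ : TwPair N (zeta N ^ k) P Q) (hdet : 0 < LinearMap.det (La B P Q : V a b l n →ₗ[ℝ] _))
    {H : ℝ → (Lk a b l → SU N) → ℝ} {g : V1 a b l n → ℝ} (h : Obs B P Q H g) :
    Tendsto (fun β : ℝ => (∫ U, (1 + H β U) * wt k β U ∂(Measure.pi fun _ => μ)) /
      Zt μ l k β a b) atTop (𝓝 (1 + gE1 B P Q g)) := by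
  have hG := SU_closed N
  have hcomp : CompactSpace (SU N) := isCompact_iff_compactSpace.1 hG.isCompact
  have h00 : SecondCountableTopology (UN N) := TopologicalSpace.Subtype.secondCountableTopology _
  have hsc : SecondCountableTopology (SU N) := TopologicalSpace.Subtype.secondCountableTopology _
  have hquad := Pool.Agent.Run7.h871.LG.quad (a := a) (b := b) (l := l) (B := B) hPQ
  have h1 := mainW (μ := μ) (mkDat B (SU_closed N) hPQ hquad) (mkWtW B hPQ h)
  have h2 := Pool.Agent.Run7.h871.LG.main (μ := μ) (mkDat B (SU_closed N) hPQ hquad)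
    (mkWt B (SU_closed N) (Pool.Agent.Run7.h871.LG.wt_lim (B := B) hPQ))
  have hp := gw_int_pos (a := a) (b := b) (l := l) B hPQ hdet
  have hi := gw_int (a := a) (b := b) (l := l) B hPQ hdet
  have hgi : Integrable fun x : V1 a b l n => g x * gw B P Q x :=
    hi.bdd_mul h.contg.aestronglyMeasurable (Eventually.of_forall fun x => by
      rw [Real.norm_eq_abs]; exact h.bdg x)
  have e1 : ∫ x : V1 a b l n, (1 + g x) * Real.exp (-(qE (Dc B P Q x) / 2)) *
      Real.exp (-(qE (dvc B P Q x) / 2)) =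
      (∫ x : V1 a b l n, gw B P Q x) + ∫ x, g x * gw B P Q x := by
    rw [← integral_add hi hgi]
    refine integral_congr_ae (Eventually.of_forall fun x => ?_)
    beta_reduce
    unfold gw
    rw [mul_assoc, ← Real.exp_add, add_mul, one_mul]
    congr 3 <;> ring
  have hN : (0 : ℝ) < N := by exact_mod_cast NeZero.pos N
  have hΓ : 0 < (∫ x, gs (n := n) x) := Pool.Agent.N839.T3.gs_int_pos
  have hV := gauss_V (a := a) (b := b) (l := l) B hPQ hdet.ne'
  rw [int_exp_qE] at hV
  have hVp : 0 < ∫ f : V a b l n,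
      Real.exp (-(qE (dvc B P Q (nab B sr tgt (U0 P Q) f)) / 2)) := by
    rw [hV, abs_of_pos hdet]
    positivity
  rw [e1] at h1
  have hK : 0 < (Fintype.card (Zf N a b) : ℝ) / Nat.card (S00 N a b l) *
        ((∫ x, gs (n := n) x) ^ Fintype.card (Si a b l) /
          (∫ x, gs (n := n) x) ^ Fintype.card (Lk a b l)) := by
    rw [Zf_card, S00_card]
    push_cast
    have h6 : (0 : ℝ) < (N : ℝ) ^ (2 * (a * b)) := by positivity
    have h7 : (0 : ℝ) < (N : ℝ) ^ (a * b) := by positivity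
    exact mul_pos (div_pos h6 h7) (div_pos (pow_pos hΓ _) (pow_pos hΓ _))
  have h3 := h1.div h2 (by
    refine (mul_pos hK (div_pos hp hVp)).ne')
  have e2 : (Fintype.card (Zf N a b) : ℝ) / Nat.card (S00 N a b l) *
        ((∫ x, gs (n := n) x) ^ Fintype.card (Si a b l) /
          (∫ x, gs (n := n) x) ^ Fintype.card (Lk a b l)) *
        (((∫ x : V1 a b l n, gw B P Q x) + ∫ x, g x * gw B P Q x) /
          ∫ f : V a b l n, Real.exp (-(qE (dvc B P Q (nab B sr tgt (U0 P Q) f)) / 2))) /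
      ((Fintype.card (Zf N a b) : ℝ) / Nat.card (S00 N a b l) *
        ((∫ x, gs (n := n) x) ^ Fintype.card (Si a b l) /
          (∫ x, gs (n := n) x) ^ Fintype.card (Lk a b l)) *
        ((∫ x : V1 a b l n, Real.exp (-((qE (Dc B P Q x) + qE (dvc B P Q x)) / 2))) /
          ∫ f : V a b l n, Real.exp (-(qE (dvc B P Q (nab B sr tgt (U0 P Q) f)) / 2)))) =
      1 + gE1 B P Q g := by
    have e3 : ∫ x : V1 a b l n, Real.exp (-((qE (Dc B P Q x) + qE (dvc B P Q x)) / 2)) =
      ∫ x : V1 a b l n, gw B P Q x := rfl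
    rw [e3]
    unfold gE1
    generalize (∫ x : V1 a b l n, gw B P Q x) = I at hp
    generalize (∫ f : V a b l n,
      Real.exp (-(qE (dvc B P Q (nab B sr tgt (U0 P Q) f)) / 2))) = J at hVp
    generalize (Fintype.card (Zf N a b) : ℝ) / Nat.card (S00 N a b l) *
        ((∫ x, gs (n := n) x) ^ Fintype.card (Si a b l) /
          (∫ x, gs (n := n) x) ^ Fintype.card (Lk a b l)) = K at hK
    have a1 := hp.ne'
    have a2 := hVp.ne'
    have a3 := hK.ne'
    field_simp
  rw [e2] at h3
  refine h3.congr' ?_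
  filter_upwards [eventually_ge_atTop 0] with β hβ
  have hz : 0 < nz μ β := Pool.Agent.N839.T3.nz_pos β
  have hZ : 0 < Zt μ l k β a b := Zt_pos hG μ β
  show (∫ U, (1 + H (max β 0) U) * wt k (max β 0) U ∂(Measure.pi fun _ => μ)) *
    nz μ (max β 0) ^ Fintype.card (Si a b l) / nz μ (max β 0) ^ Fintype.card (Lk a b l) /
      ((∫ U, wt k (max β 0) U ∂(Measure.pi fun _ => μ)) *
    nz μ (max β 0) ^ Fintype.card (Si a b l) / nz μ (max β 0) ^ Fintype.card (Lk a b l)) = _
  rw [max_eq_left hβ]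
  have e4 : ∫ U, wt k β U ∂(Measure.pi fun _ => μ) = Zt μ l k β a b := rfl
  rw [e4]
  have := hz.ne'
  field_simp

/-- **the limit of the expectation of a bounded observable** -/
theorem obs_lim (hPQ : TwPair N (zeta N ^ k) P Q) (hdet : 0 < LinearMap.det (La B P Q : V a b l n →ₗ[ℝ] _))
    {H : ℝ → (Lk a b l → SU N) → ℝ} {g : V1 a b l n → ℝ} (h : Obs B P Q H g) :
    Tendsto (fun β : ℝ => Et μ k β (H β)) atTop (𝓝 (gE1 B P Q g)) := by
  have hG := SU_closed N
  have hcomp : CompactSpace (SU N) := isCompact_iff_compactSpace.1 hG.isCompact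
  have h00 : SecondCountableTopology (UN N) := TopologicalSpace.Subtype.secondCountableTopology _
  have hsc : SecondCountableTopology (SU N) := TopologicalSpace.Subtype.secondCountableTopology _
  have h1 := (obs_lim1 B μ hPQ hdet h).sub_const 1
  rw [add_sub_cancel_left] at h1
  refine h1.congr fun β => ?_
  have hZ : 0 < Zt μ l k β a b := Zt_pos hG μ β
  have e1 : ∫ U, (1 + H β U) * wt k β U ∂(Measure.pi fun _ => μ) =
      Zt μ l k β a b + ∫ U, H β U * wt k β U ∂(Measure.pi fun _ => μ) := by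
    have i1 : Integrable (fun U : Lk a b l → SU N => wt k β U) (Measure.pi fun _ => μ) :=
      Pool.Agent.Run7.h871.LG.int_contE (wt_cont β)
    have i2 : Integrable (fun U : Lk a b l → SU N => H β U * wt k β U) (Measure.pi fun _ => μ) :=
      Pool.Agent.Run7.h871.LG.int_contE ((h.cont β).mul (wt_cont β))
    unfold Zt
    rw [← integral_add i1 i2]
    refine integral_congr_ae (Eventually.of_forall fun U => ?_)
    beta_reduce
    ring
  rw [e1]
  unfold Et
  field_simp
  ring

end

end Pool.Agent.Run7.h630.R2
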