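import Mathlib
import Pool.Agent.Run7.h630.R2.Obs

/-!
# The characteristic function of the Gaussian measure of the twisted lattice
-/

open MeasureTheory Matrix Filter Pool.Agent.N991.MK Pool.Agent.N989.MK
open scoped Matrix.Norms.Frobenius Topology
open Pool.Agent.H906R3.YM Pool.Agent.W793.YM Pool.Agent.TH618.YM Pool.Agent.N984.TW
open Pool.Agent.N109.T3 (nz gs)
open Pool.Agent.Run7.h871.LG (adc nab ipE gt emE qE Dat Wt)

namespace Pool.Agent.Run7.h630.R2

set_option linter.unusedSectionVars false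
set_option linter.unusedVariables false

noncomputable section

section std

variable {K : Type*} [Fintype K] {n : ℕ}

lemma std_c1 (z : Fin n → ℝ) : ∫ x : Fin n → ℝ, Complex.exp (-(1 / 2 : ℂ) * ∑ a, (x a : ℂ) ^ 2 +
      ∑ a, (Complex.I * z a) * x a) =
    Complex.exp (-(∑ a, (z a : ℂ) ^ 2) / 2) * (Real.pi / (1 / 2 : ℂ)) ^ ((n : ℂ) / 2) := by
  rw [GaussianFourier.integral_cexp_neg_mul_sum_add (by norm_num) (fun a => Complex.I * z a)]
  rw [Fintype.card_fin, mul_comm]
  congr 2
  simp only [mul_pow, Complex.I_sq]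
  rw [← Finset.mul_sum]
  ring

lemma std_c (z : K → Fin n → ℝ) : ∫ x : K → Fin n → ℝ,
      Complex.exp (-(qE x : ℂ) / 2 + Complex.I * (ipE z x : ℝ)) =
    Complex.exp (-(qE z : ℂ) / 2) * ((Real.pi / (1 / 2 : ℂ)) ^ ((n : ℂ) / 2)) ^ Fintype.card K := by
  have h1 : ∀ x : K → Fin n → ℝ, Complex.exp (-(qE x : ℂ) / 2 + Complex.I * (ipE z x : ℝ)) =
      ∏ k, Complex.exp (-(1 / 2 : ℂ) * ∑ a, (x k a : ℂ) ^ 2 +
      ∑ a, (Complex.I * z k a) * x k a) := by
    intro x
    rw [← Complex.exp_sum, Finset.sum_add_distrib, ← Finset.mul_sum, qE_ip]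
    congr 1
    unfold ipE
    push_cast
    congr 1
    · simp only [sq]
      ring
    · rw [Finset.mul_sum]
      refine Finset.sum_congr rfl fun k _ => ?_
      rw [Finset.mul_sum]
      refine Finset.sum_congr rfl fun a _ => ?_
      ring
  have h2 := integral_fintype_prod_eq_prod (ι := K) (μ := fun _ => (volume : Measure (Fin n → ℝ)))
    (fun k (x : Fin n → ℝ) =>
      Complex.exp (-(1 / 2 : ℂ) * ∑ a, (x a : ℂ) ^ 2 + ∑ a, (Complex.I * z k a) * x a))
  rw [integral_congr_ae (Eventually.of_forall h1)]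
  refine h2.trans ?_
  simp only [std_c1]
  rw [Finset.prod_mul_distrib, Finset.prod_const, Finset.card_univ, ← Complex.exp_sum]
  congr 2
  rw [qE_ip]
  unfold ipE
  push_cast
  rw [← Finset.sum_div, Finset.sum_neg_distrib]
  simp only [sq]

lemma std_chf (z : K → Fin n → ℝ) : ∫ x : K → Fin n → ℝ,
      Real.cos (ipE z x) * Real.exp (-(qE x / 2)) =
    Real.exp (-(qE z / 2)) * ∫ x : K → Fin n → ℝ, Real.exp (-(qE x / 2)) := by
  have h1 := std_c z
  have h2 := std_c (0 : K → Fin n → ℝ)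
  have e0 : qE (0 : K → Fin n → ℝ) = 0 := by rw [qE_ip]; simp [ipE]
  have e1 : ∀ x : K → Fin n → ℝ, ipE 0 x = 0 := fun x => by simp [ipE]
  simp only [e0, e1, Complex.ofReal_zero, mul_zero, add_zero, neg_zero, zero_div, Complex.exp_zero,
    one_mul] at h2
  rw [← h2] at h1
  have hi : Integrable fun x : K → Fin n → ℝ => Real.exp (-(1 / 2 * qE x)) :=
    Pool.Agent.Run7.h871.LG.exp_qE_int (n := n) (E := K) (c := 1 / 2) (by norm_num)
  have hm : Continuous fun x : K → Fin n → ℝ =>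
      Complex.exp (-(qE x : ℂ) / 2 + Complex.I * (ipE z x : ℝ)) := by
    have c1 : Continuous fun x : K → Fin n → ℝ => qE x := Pool.Agent.Run7.h871.LG.qE_cont
    have c2 : Continuous fun x : K → Fin n → ℝ => ipE z x := by unfold ipE; fun_prop
    fun_prop
  have hI : Integrable fun x : K → Fin n → ℝ =>
      Complex.exp (-(qE x : ℂ) / 2 + Complex.I * (ipE z x : ℝ)) := by
    refine Integrable.mono' hi hm.aestronglyMeasurable (Eventually.of_forall fun x => ?_)
    rw [Complex.norm_exp]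
    refine le_of_eq ?_
    congr 1
    simp
    ring
  have h3 := congrArg Complex.re h1
  have h4 : (∫ x : K → Fin n → ℝ,
      Complex.exp (-(qE x : ℂ) / 2 + Complex.I * (ipE z x : ℝ))).re =
      ∫ x : K → Fin n → ℝ, Real.cos (ipE z x) * Real.exp (-(qE x / 2)) := by
    have := integral_re hI
    rw [← RCLike.re_eq_complex_re, ← this]
    refine integral_congr_ae (Eventually.of_forall fun x => ?_)
    beta_reduce
    rw [RCLike.re_eq_complex_re, Complex.exp_re]
    simp
    rw [mul_comm]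
    congr 2
    ring
  have h5 : ∫ x : K → Fin n → ℝ, Complex.exp (-(qE x : ℂ) / 2) =
      ((∫ x : K → Fin n → ℝ, Real.exp (-(qE x / 2)) : ℝ) : ℂ) := by
    rw [← integral_complex_ofReal]
    refine integral_congr_ae (Eventually.of_forall fun x => ?_)
    beta_reduce
    push_cast
    congr 1
    ring
  rw [h4, h5] at h3
  rw [h3]
  have h6 : Complex.exp (-(qE z : ℂ) / 2) = ((Real.exp (-(qE z / 2)) : ℝ) : ℂ) := by
    push_cast
    congr 1
    ring
  rw [h6, ← Complex.ofReal_mul, Complex.ofReal_re]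

end std

variable {N n : ℕ} [NeZero N] (B : Frame (SU N) n)
  {a b l : ℕ} [NeZero a] [NeZero b] [NeZero l] {P Q : SU N} {k : ℕ}

/-- the square root of the quadratic form -/
lemma exists_T (hPQ : TwPair N (zeta N ^ k) P Q)
    (hdet : 0 < LinearMap.det (La B P Q : V a b l n →ₗ[ℝ] _)) :
    ∃ T : V1 a b l n →ₗ[ℝ] V1 a b l n,
      (∀ x, qE (Dc B P Q x) + qE (dvc B P Q x) = qE (T x)) ∧ LinearMap.det T ≠ 0 ∧
      ∀ x y, ipE (T x) (T y) = ∑ i, ipE (La B P Q (cm i x)) (cm i y) := by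
  obtain ⟨R, hR1, hR2⟩ := exists_root (T := (La B P Q : V a b l n →ₗ[ℝ] _))
    (fun f g => ip_La_symm B f g) (fun f => by
      rw [ip_La]; exact Finset.sum_nonneg fun i _ => ipE_self_nonneg _)
  obtain ⟨T, hT⟩ : ∃ T : V1 a b l n →ₗ[ℝ] V1 a b l n, T = (k4 a b l n).symm.toLinearMap ∘ₗ
    (LinearMap.pi fun i => R ∘ₗ LinearMap.proj i) ∘ₗ (k4 a b l n).toLinearMap := ⟨_, rfl⟩
  have hTa : ∀ x i, cm i (T x) = R (cm i x) := by
    intro x i
    rw [hT]
    rfl
  have h1 : ∀ x, qE (T x) = ∑ i, ipE (La B P Q (cm i x)) (cm i x) := by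
    intro x
    rw [qE_ip, ip_split]
    refine Finset.sum_congr rfl fun i _ => ?_
    rw [hTa, ← qE_ip, hR1, ip_La_symm]
  have h2 : LinearMap.det T = LinearMap.det R ^ 4 := by
    have := LinearMap.det_conj (LinearMap.pi fun i : Fin 4 => R ∘ₗ LinearMap.proj i)
      (k4 a b l n).symm
    rw [LinearMap.det_pi, Finset.prod_const, Finset.card_univ, Fintype.card_fin] at this
    rw [hT]
    exact this
  have h3 : LinearMap.det T = LinearMap.det (La B P Q : V a b l n →ₗ[ℝ] _) ^ 2 := by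
    rw [h2, ← hR2, ← pow_mul]
  refine ⟨T, fun x => ?_, by rw [h3]; positivity, fun x y => ?_⟩
  · rw [energy B hPQ, h1]
    exact Finset.sum_congr rfl fun i _ => ip_La_symm B _ _
  · have h4 := h1 (x + y)
    have h5 := h1 x
    have h6 := h1 y
    rw [qE_ip] at h4 h5 h6
    rw [map_add, ipE_add_left, ipE_add_right, ipE_add_right, ipE_comm (T y) (T x)] at h4
    have h7 : ∑ i, ipE (La B P Q (cm i (x + y))) (cm i (x + y)) =
        ∑ i, ipE (La B P Q (cm i x)) (cm i x) + ∑ i, ipE (La B P Q (cm i y)) (cm i y) +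
          2 * ∑ i, ipE (La B P Q (cm i x)) (cm i y) := by
      rw [Finset.mul_sum, ← Finset.sum_add_distrib, ← Finset.sum_add_distrib]
      refine Finset.sum_congr rfl fun i _ => ?_
      rw [map_add, map_add, ipE_add_left, ipE_add_right, ipE_add_right,
        ← ip_La_symm B (cm i y) (cm i x), ipE_comm (cm i y) (La B P Q (cm i x))]
      ring
    rw [h7] at h4
    linarith

/-- **the characteristic function** -/
theorem chf (hPQ : TwPair N (zeta N ^ k) P Q)
    (hdet : 0 < LinearMap.det (La B P Q : V a b l n →ₗ[ℝ] _)) {v y : V1 a b l n}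
    (hy : ∀ i, La B P Q (cm i y) = cm i v) :
    gE1 B P Q (fun x => Real.cos (ipE v x)) = Real.exp (-(ipE v y / 2)) := by
  obtain ⟨T, h1, h2, h3⟩ := exists_T B hPQ hdet
  have h4 : ∀ x, ipE (T y) (T x) = ipE v x := by
    intro x
    rw [h3, ip_split]
    exact Finset.sum_congr rfl fun i _ => by rw [hy]
  have h5 : qE (T y) = ipE v y := by rw [qE_ip, h4]
  have c1 : Continuous fun x : V1 a b l n => Real.exp (-(qE x / 2)) :=
    Real.continuous_exp.comp (Pool.Agent.Run7.h871.LG.qE_cont.div_const 2).neg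
  have c2 : Continuous fun x : V1 a b l n => Real.cos (ipE (T y) x) * Real.exp (-(qE x / 2)) := by
    refine (Real.continuous_cos.comp ?_).mul c1
    unfold ipE
    fun_prop
  have e1 := int_lin' (K := Lk a b l) T h2 (F := fun x => Real.exp (-(qE x / 2))) c1
  have e2 := int_lin' (K := Lk a b l) T h2
    (F := fun x => Real.cos (ipE (T y) x) * Real.exp (-(qE x / 2))) c2
  have hp := gw_int_pos (a := a) (b := b) (l := l) B hPQ hdet
  unfold gE1
  unfold gw at hp ⊢
  simp only [h1] at hp ⊢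
  rw [e1] at hp ⊢
  simp only [h4] at e2
  rw [e2, std_chf, h5]
  have h6 : |LinearMap.det T|⁻¹ ≠ 0 := inv_ne_zero (abs_ne_zero.2 h2)
  have h7 : (∫ x : Lk a b l → Fin n → ℝ, Real.exp (-(qE x / 2))) ≠ 0 := by
    intro h
    rw [h, mul_zero] at hp
    exact lt_irrefl _ hp
  field_simp

end

end Pool.Agent.Run7.h630.R2
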