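import Mathlib
import Pool.Agent.Run7.h630.R2.Chf

/-!
# The fibre loops
-/

open MeasureTheory Matrix Filter Pool.Agent.N991.MK Pool.Agent.N989.MK
open scoped Matrix.Norms.Frobenius Topology
open Pool.Agent.H906R3.YM Pool.Agent.W793.YM Pool.Agent.TH618.YM Pool.Agent.N984.TW
open Pool.Agent.N109.T3 (nz gs)
open Pool.Agent.Run7.h871.LG (adc nab ipE gt emE qE Dat Wt)

namespace Pool.Agent.Run7.h630.R2

set_option linter.unusedSectionVars false
set_option linter.unusedVariables false

noncomputable section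

variable {N n : ℕ} [NeZero N] {a b l : ℕ} [NeZero a] [NeZero b] [NeZero l]

/-- the product of the links in the direction `2` along the fibre -/
def hp (U : Lk a b l → SU N) (u : ZMod a × ZMod b) (q : ZMod l) : ℕ → SU N
  | 0 => 1
  | j + 1 => hp U u q j * U ((u, (1 + (j : ZMod l), q)), 2)

/-- the fibre loop -/
def hol (U : Lk a b l → SU N) (u : ZMod a × ZMod b) (q : ZMod l) : SU N := hp U u q l

/-- the phases -/
def ph (z : ℂ) (θ : ℝ) (q : ZMod l) : ℂ := z * Complex.exp (Complex.I * θ * ((q - 1).val : ℕ))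

/-- the observable -/
def Xo (z : ℂ) (θ : ℝ) (c : ℕ) (U : Lk a b l → SU N) (u : ZMod a × ZMod b) : ℝ :=
  ∑ q : ZMod l, (ph z θ q * trace (mt (hol U u q ^ c))).re

lemma hp_gt (g : Si a b l → SU N) (U : Lk a b l → SU N) (u : ZMod a × ZMod b) (q : ZMod l)
    (j : ℕ) : hp (gt sr tgt g U) u q j =
      g (u, (1, q)) * hp U u q j * (g (u, (1 + (j : ZMod l), q)))⁻¹ := by
  induction j with
  | zero => simp [hp]
  | succ j ih =>
    have e1 : gt sr tgt g U ((u, (1 + (j : ZMod l), q)), 2) =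
        g (u, (1 + (j : ZMod l), q)) * U ((u, (1 + (j : ZMod l), q)), 2) *
          (g (u, (1 + (j : ZMod l) + 1, q)))⁻¹ := by
      show g (u, (1 + (j : ZMod l), q)) * U ((u, (1 + (j : ZMod l), q)), 2) *
          (g (((u, (1 + (j : ZMod l), q)) : Si a b l) + ee 2))⁻¹ = _
      rw [ee2]
    rw [hp, ih, e1, hp]
    push_cast
    rw [← add_assoc]
    group

lemma hol_gt (g : Si a b l → SU N) (U : Lk a b l → SU N) (u : ZMod a × ZMod b) (q : ZMod l) :
    hol (gt sr tgt g U) u q = g (u, (1, q)) * hol U u q * (g (u, (1, q)))⁻¹ := by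
  unfold hol
  rw [hp_gt]
  simp

lemma Xo_gt (z : ℂ) (θ : ℝ) (c : ℕ) (g : Si a b l → SU N) (U : Lk a b l → SU N)
    (u : ZMod a × ZMod b) : Xo z θ c (gt sr tgt g U) u = Xo z θ c U u := by
  unfold Xo
  refine Finset.sum_congr rfl fun q _ => ?_
  rw [hol_gt, conj_pow]
  have h1 : mt (g (u, (1, q)))⁻¹ * mt (g (u, (1, q))) = 1 := by
    rw [← mt_mul, inv_mul_cancel]; rfl
  rw [mt_mul, mt_mul, trace_mul_comm, ← mul_assoc, h1, one_mul]

lemma hp_cz (z : Zf N a b) (U : Lk a b l → SU N) (u : ZMod a × ZMod b) (q : ZMod l)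
    (j : ℕ) : hp (cz N a b l z * U) u q j = hp U u q j := by
  induction j with
  | zero => rfl
  | succ j ih => rw [hp, hp, ih, Pi.mul_apply, cz_two, one_mul]

lemma Xo_cz (z' : ℂ) (θ : ℝ) (c : ℕ) (z : Zf N a b) (U : Lk a b l → SU N)
    (u : ZMod a × ZMod b) : Xo z' θ c (cz N a b l z * U) u = Xo z' θ c U u := by
  unfold Xo hol
  simp only [hp_cz]

lemma hp_cont (u : ZMod a × ZMod b) (q : ZMod l) (j : ℕ) :
    Continuous fun U : Lk a b l → SU N => hp U u q j := by
  induction j with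
  | zero => exact continuous_const
  | succ j ih =>
    simp only [hp]
    exact ih.mul (continuous_apply _)

lemma mt_cont : Continuous fun g : SU N => mt g :=
  continuous_subtype_val.comp continuous_subtype_val

lemma Xo_cont (z : ℂ) (θ : ℝ) (c : ℕ) (u : ZMod a × ZMod b) :
    Continuous fun U : Lk a b l → SU N => Xo z θ c U u := by
  unfold Xo
  refine continuous_finsetSum _ fun q _ => ?_
  have h1 : Continuous fun U : Lk a b l → SU N => mt (hol U u q ^ c) :=
    mt_cont.comp ((hp_cont u q l).pow c)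
  exact Complex.continuous_re.comp (continuous_const.mul h1.matrix_trace)

/-! ### first order expansions -/

section fo

variable {κ : Type*} {L : Filter κ} {H : κ → ℝ}

/-- the first order expansion -/
def FO (L : Filter κ) (H : κ → ℝ) (g : κ → SU N) (A : SU N) (D : Mat N) : Prop :=
  Tendsto (fun k => Real.sqrt (H k) • (mt (g k) - mt A)) L (𝓝 D)

lemma FO.conv (hH : Tendsto H L atTop) {g : κ → SU N} {A : SU N} {D : Mat N}
    (h : FO L H g A D) : Tendsto (fun k => mt (g k)) L (𝓝 (mt A)) := by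
  have h1 := (Pool.Agent.N839.T3.inv_sqrt_zero hH).smul h
  rw [zero_smul] at h1
  have h2 : Tendsto (fun k => mt (g k) - mt A) L (𝓝 0) := by
    refine h1.congr' ?_
    filter_upwards [hH.eventually_gt_atTop 0] with k hk
    rw [smul_smul, inv_mul_cancel₀ (Real.sqrt_pos.2 hk).ne', one_smul]
  have h3 := h2.add_const (mt A)
  rw [zero_add] at h3
  exact h3.congr fun k => by abel

lemma FO.mul (hH : Tendsto H L atTop) {g g' : κ → SU N} {A A' : SU N} {D D' : Mat N}
    (h : FO L H g A D) (h' : FO L H g' A' D') :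
    FO L H (fun k => g k * g' k) (A * A') (D * mt A' + mt A * D') := by
  have h1 := (Tendsto.mul h (h'.conv hH)).add (Tendsto.const_mul (mt A) h')
  refine h1.congr fun k => ?_
  rw [mt_mul, mt_mul, smul_mul_assoc, mul_smul_comm, ← smul_add]
  congr 1
  noncomm_ring

lemma FO.const (A : SU N) : FO L H (fun _ => A) A 0 := by
  unfold FO
  simp only [sub_self, smul_zero]
  exact tendsto_const_nhds

/-- the derivative of the power -/
def pw (A D : Mat N) : ℕ → Mat N
  | 0 => 0
  | c + 1 => pw A D c * A + A ^ c * D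

lemma mt_pow' (g : SU N) (j : ℕ) : mt (g ^ j) = mt g ^ j := by
  induction j with
  | zero => rw [pow_zero, pow_zero]; rfl
  | succ j ih => rw [pow_succ, mt_mul, ih, pow_succ]

lemma FO.pow (hH : Tendsto H L atTop) {g : κ → SU N} {A : SU N} {D : Mat N}
    (h : FO L H g A D) (c : ℕ) : FO L H (fun k => g k ^ c) (A ^ c) (pw (mt A) D c) := by
  induction c with
  | zero =>
    simp only [pow_zero]
    exact FO.const 1
  | succ c ih =>
    have h1 := ih.mul hH h
    simp only [pow_succ, pw]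
    rw [mt_pow'] at h1
    exact h1

lemma trace_pw (A S : Mat N) (c : ℕ) (m : ℕ) :
    trace (A ^ m * pw A (S * A) c) = c * trace (A ^ (m + c) * S) := by
  induction c generalizing m with
  | zero => simp [pw]
  | succ c ih =>
    rw [pw, mul_add, trace_add]
    have e1 : trace (A ^ m * (pw A (S * A) c * A)) = trace (A ^ (m + 1) * pw A (S * A) c) := by
      rw [← mul_assoc, trace_mul_comm, ← mul_assoc, ← pow_succ']
    have e2 : trace (A ^ m * (A ^ c * (S * A))) = trace (A ^ (m + c + 1) * S) := by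
      rw [← mul_assoc, ← pow_add, ← mul_assoc, trace_mul_comm, ← mul_assoc, ← pow_succ']
    rw [e1, e2, ih (m + 1)]
    push_cast
    rw [add_mul, one_mul]
    congr 2
    rw [add_right_comm, add_assoc]

end fo

section exp

variable (B : Frame (SU N) n) {P Q : SU N} {k : ℕ}
  {κ : Type*} {L : Filter κ} {H : κ → ℝ} {X : κ → V1 a b l n} {x0 : V1 a b l n}

lemma hp_U0 (u : ZMod a × ZMod b) (q : ZMod l) {j : ℕ} (hj : j < l) :
    hp (U0 P Q) u q j = 1 := by
  induction j with
  | zero => rfl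
  | succ j ih =>
    rw [hp, ih (by omega), one_mul, U0_two, if_neg]
    intro h
    have h2 : ((1 + j : ℕ) : ZMod l) = 0 := by push_cast; exact h
    rw [ZMod.natCast_eq_zero_iff] at h2
    have := Nat.le_of_dvd (by omega) h2
    omega

lemma hol_U0 (u : ZMod a × ZMod b) (q : ZMod l) : hol (U0 P Q) u q = P := by
  obtain ⟨m, rfl⟩ : ∃ m, l = m + 1 := ⟨l - 1, by have := NeZero.pos l; omega⟩
  unfold hol
  have h1 : hp (U0 P Q) u q (m + 1) =
      hp (U0 P Q) u q m * U0 P Q ((u, (1 + (m : ZMod (m + 1)), q)), 2) := rfl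
  rw [h1, hp_U0 u q (by omega), one_mul, U0_two, if_pos]
  have h2 : ((m + 1 : ℕ) : ZMod (m + 1)) = 0 := ZMod.natCast_self (m + 1)
  push_cast at h2
  show (1 + (m : ZMod (m + 1))) = 0
  rw [add_comm (1 : ZMod (m + 1))]
  exact h2

lemma link_FO (hH : Tendsto H L atTop) (hX : Tendsto X L (𝓝 x0)) (e : Lk a b l) :
    FO L H (fun κ => (emE B (SU_closed N) (H κ) (X κ) * U0 P Q : Lk a b l → SU N) e) (U0 P Q e)
      (LX B (x0 e) * mt (U0 P Q e)) := by
  have h1 := Pool.Agent.N839.T3.em_mt (B := B) (hG := SU_closed N) hH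
    ((continuous_apply e).continuousAt.tendsto.comp hX)
  have h2 := h1.mul_const (mt (U0 P Q e))
  refine h2.congr fun k => ?_
  rw [smul_mul_assoc, sub_mul, one_mul]
  rfl

lemma hp_FO (hH : Tendsto H L atTop) (hX : Tendsto X L (𝓝 x0)) (u : ZMod a × ZMod b)
    (q : ZMod l) {j : ℕ} (hj : j ≤ l) :
    FO L H (fun κ => hp (emE B (SU_closed N) (H κ) (X κ) * U0 P Q) u q j) (hp (U0 P Q) u q j)
      ((∑ i ∈ Finset.range j, LX B (x0 ((u, (1 + (i : ZMod l), q)), 2))) *
        mt (hp (U0 P Q) u q j)) := by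
  induction j with
  | zero =>
    simp only [Finset.range_zero, Finset.sum_empty, zero_mul]
    exact FO.const _
  | succ j ih =>
    have h1 := (ih (by omega)).mul hH
      (link_FO B (P := P) (Q := Q) hH hX ((u, (1 + (j : ZMod l), q)), 2))
    have h2 := hp_U0 (P := P) (Q := Q) u q (j := j) (by omega)
    simp only [hp]
    rw [h2] at h1 ⊢
    rw [Finset.sum_range_succ]
    have e1 : mt (1 : SU N) = 1 := rfl
    rw [e1, mul_one, one_mul, one_mul, ← add_mul] at h1
    rw [one_mul]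
    exact h1

lemma sum_val (F : ZMod l → Mat N) :
    ∑ i ∈ Finset.range l, F (1 + (i : ZMod l)) = ∑ p : ZMod l, F p := by
  rw [← Equiv.sum_comp (Equiv.addLeft (1 : ZMod l)) F]
  refine (Finset.sum_bij (fun (x : ZMod l) _ => x.val)
      (fun x _ => Finset.mem_range.2 (ZMod.val_lt x))
      (fun x _ y _ h => ZMod.val_injective l h)
      (fun i hi => ⟨(i : ZMod l), Finset.mem_univ _,
        ZMod.val_natCast_of_lt (Finset.mem_range.1 hi)⟩)
      (fun x _ => ?_)).symm
  rw [ZMod.natCast_zmod_val]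
  rfl

lemma hol_FO (hH : Tendsto H L atTop) (hX : Tendsto X L (𝓝 x0)) (u : ZMod a × ZMod b)
    (q : ZMod l) :
    FO L H (fun κ => hol (emE B (SU_closed N) (H κ) (X κ) * U0 P Q) u q) P
      ((∑ p : ZMod l, LX B (x0 ((u, (p, q)), 2))) * mt P) := by
  have h1 := hp_FO B (P := P) (Q := Q) hH hX u q (le_refl l)
  rw [sum_val (fun p => LX B (x0 ((u, (p, q)), 2)))] at h1
  have h2 : hp (U0 P Q : Lk a b l → SU N) u q l = P := hol_U0 u q
  rw [h2] at h1
  exact h1

/-- the coordinates of a matrix -/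
def kap (M : Mat N) : Fin n → ℝ := fun α => (trace (M * B.X α)).re

lemma kap_LX (M : Mat N) (x : Fin n → ℝ) : (trace (M * LX B x)).re = ∑ α, kap B M α * x α := by
  unfold LX kap
  rw [Finset.mul_sum, trace_sum, Complex.re_sum]
  refine Finset.sum_congr rfl fun α _ => ?_
  rw [mul_smul_comm, trace_smul, Complex.real_smul, Complex.re_ofReal_mul, mul_comm]

variable (P) in
/-- the fibre function -/
def hh (z : ℂ) (θ : ℝ) (c : ℕ) (q : ZMod l) : Fin n → ℝ :=
  kap B ((ph z θ q * c) • mt P ^ c)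

variable (P) in
/-- the one form of the observable -/
def vv (z : ℂ) (θ : ℝ) (c : ℕ) (f : ZMod a × ZMod b → ℝ) : V1 a b l n := fun e α =>
  if e.2 = 2 then f e.1.1 * hh B P z θ c e.1.2.2 α else 0

lemma ip_vv (z : ℂ) (θ : ℝ) (c : ℕ) (f : ZMod a × ZMod b → ℝ) (x : V1 a b l n) :
    ipE (vv B P z θ c f) x = ∑ u, f u * ∑ q : ZMod l, ∑ p : ZMod l,
      ∑ α, hh B P z θ c q α * x ((u, (p, q)), 2) α := by
  unfold ipE
  rw [Fintype.sum_prod_type, Fintype.sum_prod_type]
  refine Finset.sum_congr rfl fun u _ => ?_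
  rw [Fintype.sum_prod_type, Finset.sum_comm, Finset.mul_sum]
  refine Finset.sum_congr rfl fun q _ => ?_
  rw [Finset.mul_sum]
  refine Finset.sum_congr rfl fun p _ => ?_
  rw [Finset.sum_eq_single (2 : Fin 4)]
  · rw [Finset.mul_sum]
    refine Finset.sum_congr rfl fun α _ => ?_
    show (if (2 : Fin 4) = 2 then _ else _) * _ = _
    rw [if_pos rfl, mul_assoc]
  · intro i _ hi
    refine Finset.sum_eq_zero fun α _ => ?_
    show (if i = 2 then _ else _) * _ = _
    rw [if_neg hi, zero_mul]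
  · intro h; exact absurd (Finset.mem_univ _) h

/-- the expansion of the observable -/
lemma Xo_lim (hH : Tendsto H L atTop) (hX : Tendsto X L (𝓝 x0)) {c : ℕ}
    (htr : trace (mt P ^ c) = 0) (z : ℂ) (θ : ℝ) (u : ZMod a × ZMod b) :
    Tendsto (fun κ => Real.sqrt (H κ) * Xo z θ c (emE B (SU_closed N) (H κ) (X κ) * U0 P Q) u) L
      (𝓝 (∑ q : ZMod l, ∑ p : ZMod l, ∑ α, hh B P z θ c q α * x0 ((u, (p, q)), 2) α)) := by
  unfold Xo
  simp only [Finset.mul_sum]
  refine tendsto_finsetSum _ fun q _ => ?_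
  have h1 := (hol_FO B (P := P) (Q := Q) hH hX u q).pow hH c
  have h2 : Tendsto (fun κ => (ph z θ q * trace (Real.sqrt (H κ) •
      (mt (hol (emE B (SU_closed N) (H κ) (X κ) * U0 P Q) u q ^ c) - mt (P ^ c)))).re) L
      (𝓝 (ph z θ q * trace (pw (mt P) ((∑ p : ZMod l, LX B (x0 ((u, (p, q)), 2))) * mt P) c)).re) := by
    refine (Complex.continuous_re.tendsto _).comp (Tendsto.const_mul _ ?_)
    exact ((continuous_id.matrix_trace).tendsto _).comp h1
  have h3 := trace_pw (mt P) (∑ p : ZMod l, LX B (x0 ((u, (p, q)), 2))) c 0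
  rw [pow_zero, one_mul, zero_add] at h3
  have h4 : (ph z θ q * trace (pw (mt P) ((∑ p : ZMod l, LX B (x0 ((u, (p, q)), 2))) * mt P) c)).re =
      ∑ p : ZMod l, ∑ α, hh B P z θ c q α * x0 ((u, (p, q)), 2) α := by
    rw [h3, Finset.mul_sum, trace_sum, Finset.mul_sum, Finset.mul_sum, Complex.re_sum]
    refine Finset.sum_congr rfl fun p _ => ?_
    unfold hh
    rw [← kap_LX, smul_mul_assoc, trace_smul, smul_eq_mul, mul_assoc]
  rw [h4] at h2
  refine h2.congr fun κ => ?_
  rw [trace_smul, trace_sub, mt_pow' P, htr, sub_zero, Complex.real_smul, mul_left_comm,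
    Complex.re_ofReal_mul]

end exp

end

end Pool.Agent.Run7.h630.R2
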