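import Mathlib
import Pool.Agent.Run7.h630.R2.Loop

/-!
# Skew matrices with trace zero belong to the Lie algebra of `SU(N)`
-/

open MeasureTheory Matrix Filter Pool.Agent.N991.MK Pool.Agent.N989.MK
open scoped Matrix.Norms.Frobenius Topology ComplexOrder
open Pool.Agent.H906R3.YM Pool.Agent.W793.YM Pool.Agent.TH618.YM Pool.Agent.N984.TW
open Pool.Agent.N109.T3 (nz gs)
open Pool.Agent.Run7.h871.LG (adc nab ipE gt emE qE Dat Wt)

namespace Pool.Agent.Run7.h630.R2

set_option linter.unusedSectionVars false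
set_option linter.unusedVariables false

noncomputable section

variable {N n : ℕ} [NeZero N]

lemma det_exp_herm {H : Mat N} (hH : H.IsHermitian) (t : ℝ) :
    det (NormedSpace.exp ((Complex.I * t) • H)) = Complex.exp (Complex.I * t * trace H) := by
  obtain ⟨V, hV⟩ : ∃ V : Mat N, V = (hH.eigenvectorUnitary : Mat N) := ⟨_, rfl⟩
  have hu1 : V * star V = 1 := by
    rw [hV]; exact Matrix.mem_unitaryGroup_iff.1 hH.eigenvectorUnitary.2
  have hu2 : star V * V = 1 := by
    rw [hV]; exact Matrix.mem_unitaryGroup_iff'.1 hH.eigenvectorUnitary.2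
  have h1 : H = V * diagonal (fun i => ((hH.eigenvalues i : ℝ) : ℂ)) * star V := by
    have := hH.spectral_theorem
    rw [hV]
    conv_lhs => rw [this]
    simp [Unitary.conjStarAlgAut_apply]
    rfl
  have hinv : V⁻¹ = star V := Matrix.inv_eq_right_inv hu1
  have hun : IsUnit V := by
    rw [Matrix.isUnit_iff_isUnit_det]
    have := congrArg det hu1
    rw [det_mul, det_one] at this
    exact IsUnit.of_mul_eq_one _ this
  have h2 : (Complex.I * t) • H =
      V * diagonal (fun i => Complex.I * t * (hH.eigenvalues i : ℝ)) * V⁻¹ := by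
    rw [hinv]
    conv_lhs => rw [h1]
    rw [← smul_mul_assoc, ← mul_smul_comm, ← diagonal_smul]
    rfl
  have h3 : trace H = ∑ i, ((hH.eigenvalues i : ℝ) : ℂ) := by
    conv_lhs => rw [h1]
    rw [trace_mul_comm, ← mul_assoc, hu2, one_mul, trace_diagonal]
  have h4 : NormedSpace.exp ((Complex.I * t) • H) =
      V * diagonal (fun i => Complex.exp (Complex.I * t * (hH.eigenvalues i : ℝ))) * V⁻¹ := by
    rw [h2, Matrix.exp_conj V _ hun, Matrix.exp_diagonal]
    congr 3
    funext i
    rw [Pi.coe_exp, Complex.exp_eq_exp_ℂ]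
  rw [h4, Matrix.det_conj hun, det_diagonal, h3, Finset.mul_sum, Complex.exp_sum]

lemma su_mem (B : Frame (SU N) n) {Y : Mat N} (hY : Yᴴ = -Y) (htr : trace Y = 0) :
    Y ∈ Submodule.span ℝ (Set.range B.X) := by
  refine B.full Y fun t => ?_
  obtain ⟨H, hH⟩ : ∃ H : Mat N, H = -Complex.I • Y := ⟨_, rfl⟩
  have hHe : H.IsHermitian := by
    unfold Matrix.IsHermitian
    rw [hH, conjTranspose_smul, hY]
    simp
  have hYH : t • Y = (Complex.I * t) • H := by
    rw [hH, smul_smul]
    have : Complex.I * t * -Complex.I = (t : ℂ) := by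
      rw [mul_comm (Complex.I) (t : ℂ), mul_assoc, mul_neg, Complex.I_mul_I, neg_neg, mul_one]
    rw [this]
    ext i j
    simp
  have htrH : trace H = 0 := by rw [hH, trace_smul, htr, smul_zero]
  have hsk : t • Y ∈ skewAdjoint (Mat N) := by
    rw [skewAdjoint.mem_iff, star_eq_conjTranspose, conjTranspose_smul, hY, star_trivial, smul_neg]
  have hun : NormedSpace.exp (t • Y) ∈ UN N :=
    NormedSpace.exp_mem_unitary_of_mem_skewAdjoint hsk
  refine ⟨⟨⟨NormedSpace.exp (t • Y), hun⟩, ?_⟩, rfl⟩
  show det (NormedSpace.exp (t • Y)) = 1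
  rw [hYH, det_exp_herm hHe t, htrH, mul_zero, Complex.exp_zero]

/-- a matrix with trace zero orthogonal to the Lie algebra vanishes -/
lemma kap_zero (B : Frame (SU N) n) {M : Mat N} (htr : trace M = 0) (h1 : kap B M = 0)
    (h2 : kap B (Complex.I • M) = 0) : M = 0 := by
  have h3 : ∀ Y ∈ Submodule.span ℝ (Set.range B.X), trace (M * Y) = 0 := by
    intro Y hY
    induction hY using Submodule.span_induction with
    | mem Y hY =>
      obtain ⟨α, rfl⟩ := hY
      have e1 := congrFun h1 α
      have e2 := congrFun h2 α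
      unfold kap at e1 e2
      rw [smul_mul_assoc, trace_smul, smul_eq_mul] at e2
      refine Complex.ext e1 ?_
      simpa using e2
    | zero => simp
    | add Y Y' _ _ h1 h2 => rw [mul_add, trace_add, h1, h2, add_zero]
    | smul c Y _ h1 => rw [mul_smul_comm, trace_smul, h1, smul_zero]
  have hs1 : M - Mᴴ ∈ Submodule.span ℝ (Set.range B.X) := by
    refine su_mem B ?_ ?_
    · rw [conjTranspose_sub, conjTranspose_conjTranspose]; abel
    · rw [trace_sub, trace_conjTranspose, htr]; simp
  have hs2 : Complex.I • (M + Mᴴ) ∈ Submodule.span ℝ (Set.range B.X) := by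
    refine su_mem B ?_ ?_
    · rw [conjTranspose_smul, conjTranspose_add, conjTranspose_conjTranspose]
      simp [add_comm]
    · rw [trace_smul, trace_add, trace_conjTranspose, htr]; simp
  have e1 := h3 _ hs1
  have e2 := h3 _ hs2
  rw [mul_sub, trace_sub] at e1
  rw [mul_smul_comm, trace_smul, mul_add, trace_add, smul_eq_mul] at e2
  have e3 : trace (M * M) + trace (M * Mᴴ) = 0 := by
    rcases mul_eq_zero.1 e2 with h | h
    · exact absurd h Complex.I_ne_zero
    · exact h
  have e4 : trace (M * Mᴴ) = 0 := by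
    have : trace (M * M) = trace (M * Mᴴ) := sub_eq_zero.1 e1
    rw [this, ← two_mul] at e3
    rcases mul_eq_zero.1 e3 with h | h
    · exact absurd h two_ne_zero
    · exact h
  exact (Matrix.trace_mul_conjTranspose_self_eq_zero_iff).1 e4

end

end Pool.Agent.Run7.h630.R2
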