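import Mathlib
import Pool.Agent.Run7.h630.R2.Skew

/-!
# The lowest eigenfunctions of the fibre operator
-/

open MeasureTheory Matrix Filter Pool.Agent.N991.MK Pool.Agent.N989.MK
open scoped Matrix.Norms.Frobenius Topology
open Pool.Agent.H906R3.YM Pool.Agent.W793.YM Pool.Agent.TH618.YM Pool.Agent.N984.TW
open Pool.Agent.N109.T3 (nz gs)
open Pool.Agent.Run7.h871.LG (adc nab ipE gt emE qE Dat Wt)

namespace Pool.Agent.Run7.h630.R2

set_option linter.unusedSectionVars false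
set_option linter.unusedVariables false

noncomputable section

variable {N n : ℕ} [NeZero N] (B : Frame (SU N) n) {a b l : ℕ} [NeZero a] [NeZero b] [NeZero l]
  {P Q : SU N} {k : ℕ}

lemma kap_pc (M : Mat N) : kap B M = pc B (-M) := by
  funext α
  unfold kap pc
  rw [ip_apply, B.skewX, neg_mul_neg, trace_mul_comm]

lemma pc_conj (g : SU N) (M : Mat N) : adc B g (pc B M) = pc B (mt g * M * (mt g)ᴴ) := by
  funext α
  show ip (B.X α) (mt g * LX B (pc B M) * (mt g)ᴴ) = ip (B.X α) (mt g * M * (mt g)ᴴ)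
  have h0 : ∀ A : Mat N, ip (B.X α) (mt g * A * (mt g)ᴴ) =
      ip ((mt g)ᴴ * B.X α * mt g) A := by
    intro A
    rw [ip_apply, ip_apply, conjTranspose_mul, conjTranspose_mul, conjTranspose_conjTranspose]
    rw [← mul_assoc, trace_mul_comm]
    simp only [mul_assoc]
  rw [h0, h0]
  have h1 : (mt g)ᴴ * B.X α * mt g ∈ Submodule.span ℝ (Set.range B.X) := by
    have h2 := conj_span B g⁻¹ (Submodule.subset_span ⟨α, rfl⟩ :
      B.X α ∈ Submodule.span ℝ (Set.range B.X))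
    rw [mt_inv, conjTranspose_conjTranspose] at h2
    exact h2
  have h3 : ∀ Y ∈ Submodule.span ℝ (Set.range B.X), ip Y (LX B (pc B M)) = ip Y M := by
    intro Y hY
    induction hY using Submodule.span_induction with
    | mem Y hY =>
      obtain ⟨β, rfl⟩ := hY
      have : pc B (LX B (pc B M)) = pc B M := pc_LX B _
      exact congrFun this β
    | zero => simp [ip_apply]
    | add Y Y' _ _ h1 h2 =>
      rw [ip_apply, ip_apply] at h1 h2 ⊢
      rw [conjTranspose_add, add_mul, add_mul, trace_add, trace_add, Complex.add_re,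
        Complex.add_re, h1, h2]
    | smul c Y _ h1 =>
      rw [ip_apply, ip_apply] at h1 ⊢
      rw [conjTranspose_smul, smul_mul_assoc, smul_mul_assoc, trace_smul, trace_smul,
        Complex.smul_re, Complex.smul_re, h1]
  exact h3 _ h1

lemma adc_kap (g : SU N) (M : Mat N) : adc B g (kap B M) = kap B (mt g * M * (mt g)ᴴ) := by
  rw [kap_pc, kap_pc, pc_conj, mul_neg, neg_mul]

lemma kap_add (M M' : Mat N) : kap B (M + M') = kap B M + kap B M' := by
  funext α
  unfold kap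
  rw [Pi.add_apply, add_mul, trace_add, Complex.add_re]

lemma kap_smul (c : ℝ) (M : Mat N) : kap B ((c : ℂ) • M) = c • kap B M := by
  funext α
  unfold kap
  rw [Pi.smul_apply, smul_mul_assoc, trace_smul, smul_eq_mul, Complex.re_ofReal_mul, smul_eq_mul]

lemma mtP_conj (P : SU N) (w : ℂ) (c : ℕ) :
    mt P * (w • mt P ^ c) * (mt P)ᴴ = w • mt P ^ c := by
  have h1 : mt P * (mt P)ᴴ = 1 := rhoG_unit P
  rw [mul_smul_comm, smul_mul_assoc, ← pow_succ', pow_succ, mul_assoc, h1, mul_one]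

lemma mtQ_conj (hPQ : TwPair N (zeta N ^ k) P Q) (w : ℂ) (c : ℕ) :
    mt Q * (w • mt P ^ c) * (mt Q)ᴴ = (w * (zeta N ^ k) ^ c) • mt P ^ c := by
  have h1 : mt Q * (mt Q)ᴴ = 1 := rhoG_unit Q
  have h2 : mt Q * mt P ^ c = ((zeta N ^ k) ^ c) • (mt P ^ c * mt Q) := by
    induction c with
    | zero => simp
    | succ c ih =>
      rw [pow_succ, ← mul_assoc, ih, smul_mul_assoc, mul_assoc, hPQ.comm, mul_smul_comm, smul_smul,
        ← pow_succ, mul_assoc]
  rw [mul_smul_comm, smul_mul_assoc, h2, smul_mul_assoc, mul_assoc, h1, mul_one, smul_smul]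

lemma trP (hPQ : TwPair N (zeta N ^ k) P Q) {c : ℕ} (hc : (zeta N ^ k) ^ c ≠ 1) :
    trace (mt P ^ c) = 0 := by
  have h1 := mtQ_conj hPQ 1 c
  rw [one_smul, one_mul] at h1
  have h2 := congrArg trace h1
  have h3 : (mt Q)ᴴ * mt Q = 1 := rhoG_unit' Q
  rw [trace_mul_comm, ← mul_assoc, h3, one_mul, trace_smul, smul_eq_mul] at h2
  have h4 : (1 - (zeta N ^ k) ^ c) * trace (mt P ^ c) = 0 := by
    rw [sub_mul, one_mul, ← h2, sub_self]
  rcases mul_eq_zero.1 h4 with h | h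
  · exact absurd (sub_eq_zero.1 h).symm hc
  · exact h

variable (P) in
/-- the family of the fibre functions -/
def hw (c : ℕ) (w : ℂ) : Fin n → ℝ := kap B (w • mt P ^ c)

lemma hh_hw (z : ℂ) (θ : ℝ) (c : ℕ) (q : ZMod l) :
    hh B P z θ c q = hw B P c (ph z θ q * c) := rfl

/-- the shift of the phases -/
lemma ph_shift (hPQ : TwPair N (zeta N ^ k) P Q) {c : ℕ} {θ : ℝ}
    (hθ : Complex.exp (Complex.I * θ * l) = (zeta N ^ k) ^ c) (z w : ℂ) (q : ZMod l) :
    adc B (if q = 0 then Q else 1) (hw B P c (w * ph z θ (q + 1))) =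
      hw B P c (w * Complex.exp (Complex.I * θ) * ph z θ q) := by
  unfold ph
  rw [add_sub_cancel_right]
  by_cases hq : q = 0
  · subst hq
    rw [if_pos rfl]
    unfold hw
    rw [adc_kap, mtQ_conj hPQ, ← hθ, ZMod.val_zero]
    congr 2
    obtain ⟨m, rfl⟩ : ∃ m, l = m + 1 := ⟨l - 1, by have := NeZero.pos l; omega⟩
    have h1 : ((0 - 1 : ZMod (m + 1))).val = m := by
      rw [zero_sub, ZMod.val_neg_one]
    rw [h1]
    have h2 : Complex.exp (Complex.I * θ * ((m + 1 : ℕ) : ℂ)) =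
        Complex.exp (Complex.I * θ) * Complex.exp (Complex.I * θ * (m : ℕ)) := by
      rw [← Complex.exp_add]
      congr 1
      push_cast
      ring
    rw [h2]
    simp
    ring
  · rw [if_neg hq, adc_one]
    congr 1
    have h1 : q.val = (q - 1).val + 1 := by
      have h2 : q = (((q - 1).val + 1 : ℕ) : ZMod l) := by
        push_cast
        rw [ZMod.natCast_zmod_val]
        ring
      have h3 : (q - 1).val + 1 < l := by
        have h4 := ZMod.val_lt (q - 1)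
        rcases Nat.lt_or_ge ((q - 1).val + 1) l with h | h
        · exact h
        · exfalso
          apply hq
          have h5 : (q - 1).val + 1 = l := by omega
          rw [h2, h5, ZMod.natCast_self]
      conv_lhs => rw [h2]
      exact ZMod.val_natCast_of_lt h3
    rw [h1]
    have h2 : Complex.exp (Complex.I * θ * (((q - 1).val + 1 : ℕ) : ℂ)) =
        Complex.exp (Complex.I * θ) * Complex.exp (Complex.I * θ * ((q - 1).val : ℕ)) := by
      rw [← Complex.exp_add]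
      congr 1
      push_cast
      ring
    rw [h2]
    ring

lemma adc_P_hw (c : ℕ) (w : ℂ) : adc B P (hw B P c w) = hw B P c w := by
  unfold hw
  rw [adc_kap, mtP_conj]

variable (P) in
/-- functions on the base times the fibre function -/
def tens (z : ℂ) (θ : ℝ) (c : ℕ) (f : ZMod a × ZMod b → ℝ) : V a b l n :=
  fun v => f v.1 • hh B P z θ c v.2.2

lemma cm_vv (z : ℂ) (θ : ℝ) (c : ℕ) (f : ZMod a × ZMod b → ℝ) :
    cm 2 (vv B P z θ c f : V1 a b l n) = tens B P z θ c f := by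
  funext v α
  show (if (2 : Fin 4) = 2 then f v.1 * hh B P z θ c v.2.2 α else 0) = _
  rw [if_pos rfl]
  rfl

lemma cm_vv' (z : ℂ) (θ : ℝ) (c : ℕ) (f : ZMod a × ZMod b → ℝ) {i : Fin 4} (hi : i ≠ 2) :
    cm i (vv B P z θ c f : V1 a b l n) = 0 := by
  funext v α
  show (if i = 2 then f v.1 * hh B P z θ c v.2.2 α else 0) = _
  rw [if_neg hi]
  rfl

lemma Ts0_tens (z : ℂ) (θ : ℝ) (c : ℕ) (f : ZMod a × ZMod b → ℝ) :
    Ts B P Q 0 (tens B P z θ c f : V a b l n) = tens B P z θ c fun u => f (u + (1, 0)) := by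
  funext v
  obtain ⟨u, y⟩ := v
  rw [Ts_apply, ee0, U0_zero, adc_one]
  rfl

lemma Tt0_tens (z : ℂ) (θ : ℝ) (c : ℕ) (f : ZMod a × ZMod b → ℝ) :
    Tt B P Q 0 (tens B P z θ c f : V a b l n) = tens B P z θ c fun u => f (u - (1, 0)) := by
  have h1 := Ts0_tens B (P := P) (Q := Q) (l := l) z θ c fun u => f (u - (1, 0))
  have h2 := Tt_Ts B P Q 0 (tens B P z θ c (fun u => f (u - (1, 0))) : V a b l n)
  rw [h1] at h2
  simp only [add_sub_cancel_right] at h2
  exact h2

lemma Ts1_tens (z : ℂ) (θ : ℝ) (c : ℕ) (f : ZMod a × ZMod b → ℝ) :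
    Ts B P Q 1 (tens B P z θ c f : V a b l n) = tens B P z θ c fun u => f (u + (0, 1)) := by
  funext v
  obtain ⟨u, y⟩ := v
  rw [Ts_apply, ee1, U0_one, adc_one]
  rfl

lemma Tt1_tens (z : ℂ) (θ : ℝ) (c : ℕ) (f : ZMod a × ZMod b → ℝ) :
    Tt B P Q 1 (tens B P z θ c f : V a b l n) = tens B P z θ c fun u => f (u - (0, 1)) := by
  have h1 := Ts1_tens B (P := P) (Q := Q) (l := l) z θ c fun u => f (u - (0, 1))
  have h2 := Tt_Ts B P Q 1 (tens B P z θ c (fun u => f (u - (0, 1))) : V a b l n)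
  rw [h1] at h2
  simp only [add_sub_cancel_right] at h2
  exact h2

lemma Ts2_tens (z : ℂ) (θ : ℝ) (c : ℕ) (f : ZMod a × ZMod b → ℝ) :
    Ts B P Q 2 (tens B P z θ c f : V a b l n) = tens B P z θ c f := by
  funext v
  obtain ⟨u, p, q⟩ := v
  rw [Ts_apply, ee2, U0_two]
  show adc B (if p = 0 then P else 1) (f u • hh B P z θ c q) = f u • hh B P z θ c q
  rw [adc_smul]
  split_ifs
  · rw [hh_hw, adc_P_hw]
  · rw [adc_one]

lemma Tt2_tens (z : ℂ) (θ : ℝ) (c : ℕ) (f : ZMod a × ZMod b → ℝ) :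
    Tt B P Q 2 (tens B P z θ c f : V a b l n) = tens B P z θ c f := by
  have h2 := Tt_Ts B P Q 2 (tens B P z θ c f : V a b l n)
  rwa [Ts2_tens] at h2

/-- the fibre function with a further phase -/
def tw (P : SU N) (z : ℂ) (θ : ℝ) (c : ℕ) (w : ℂ) (f : ZMod a × ZMod b → ℝ) : V a b l n :=
  fun v => f v.1 • hw B P c (w * ph z θ v.2.2)

lemma tens_tw (z : ℂ) (θ : ℝ) (c : ℕ) (f : ZMod a × ZMod b → ℝ) :
    (tens B P z θ c f : V a b l n) = tw B P z θ c c f := by
  funext v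
  show f v.1 • hh B P z θ c v.2.2 = f v.1 • hw B P c (c * ph z θ v.2.2)
  rw [hh_hw, mul_comm]

lemma Ts3_tw (hPQ : TwPair N (zeta N ^ k) P Q) {c : ℕ} {θ : ℝ}
    (hθ : Complex.exp (Complex.I * θ * l) = (zeta N ^ k) ^ c) (z w : ℂ)
    (f : ZMod a × ZMod b → ℝ) :
    Ts B P Q 3 (tw B P z θ c w f : V a b l n) =
      tw B P z θ c (w * Complex.exp (Complex.I * θ)) f := by
  funext v
  obtain ⟨u, p, q⟩ := v
  rw [Ts_apply, ee3, U0_three]
  show adc B (if q = 0 then Q else 1) (f u • hw B P c (w * ph z θ (q + 1))) =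
    f u • hw B P c (w * Complex.exp (Complex.I * θ) * ph z θ q)
  rw [adc_smul, ph_shift B hPQ hθ]

lemma Tt3_tw (hPQ : TwPair N (zeta N ^ k) P Q) {c : ℕ} {θ : ℝ}
    (hθ : Complex.exp (Complex.I * θ * l) = (zeta N ^ k) ^ c) (z w : ℂ)
    (f : ZMod a × ZMod b → ℝ) :
    Tt B P Q 3 (tw B P z θ c w f : V a b l n) =
      tw B P z θ c (w * Complex.exp (-(Complex.I * θ))) f := by
  have h1 := Ts3_tw B (a := a) (b := b) (l := l) hPQ hθ z (w * Complex.exp (-(Complex.I * θ))) f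
  have h2 : w * Complex.exp (-(Complex.I * θ)) * Complex.exp (Complex.I * θ) = w := by
    rw [mul_assoc, ← Complex.exp_add, neg_add_cancel, Complex.exp_zero, mul_one]
  rw [h2] at h1
  rw [← h1, Tt_Ts]

lemma hw_add (c : ℕ) (w w' : ℂ) : hw B P c (w + w') = hw B P c w + hw B P c w' := by
  unfold hw
  rw [add_smul, kap_add]

lemma hw_smul (c : ℕ) (r : ℝ) (w : ℂ) : hw B P c (r * w) = r • hw B P c w := by
  unfold hw
  rw [mul_smul, kap_smul]

lemma T3_sum (hPQ : TwPair N (zeta N ^ k) P Q) {c : ℕ} {θ : ℝ}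
    (hθ : Complex.exp (Complex.I * θ * l) = (zeta N ^ k) ^ c) (z : ℂ)
    (f : ZMod a × ZMod b → ℝ) :
    Ts B P Q 3 (tens B P z θ c f : V a b l n) + Tt B P Q 3 (tens B P z θ c f) =
      (2 * Real.cos θ) • tens B P z θ c f := by
  rw [tens_tw, Ts3_tw B hPQ hθ, Tt3_tw B hPQ hθ]
  funext v
  show f v.1 • hw B P c (c * Complex.exp (Complex.I * θ) * ph z θ v.2.2) +
    f v.1 • hw B P c (c * Complex.exp (-(Complex.I * θ)) * ph z θ v.2.2) =
    (2 * Real.cos θ) • (f v.1 • hw B P c (c * ph z θ v.2.2))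
  rw [← smul_add, ← hw_add, smul_comm (2 * Real.cos θ)]
  congr 1
  rw [← hw_smul]
  congr 1
  have h1 : Complex.exp (Complex.I * θ) + Complex.exp (-(Complex.I * θ)) =
      ((2 * Real.cos θ : ℝ) : ℂ) := by
    push_cast
    rw [Complex.two_cos]
    congr 2 <;> ring
  rw [← h1]
  ring

/-- the operator on the base -/
def Kb (x0 : ℝ) (f : ZMod a × ZMod b → ℝ) : ZMod a × ZMod b → ℝ := fun u =>
  (4 + x0) * f u - f (u + (1, 0)) - f (u - (1, 0)) - f (u + (0, 1)) - f (u - (0, 1))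

/-- the Laplacian of the products -/
lemma La_tens (hPQ : TwPair N (zeta N ^ k) P Q) {c : ℕ} {θ : ℝ}
    (hθ : Complex.exp (Complex.I * θ * l) = (zeta N ^ k) ^ c) (z : ℂ)
    (f : ZMod a × ZMod b → ℝ) :
    La B P Q (tens B P z θ c f : V a b l n) =
      tens B P z θ c (Kb (2 - 2 * Real.cos θ) f) := by
  rw [La_apply', Fin.sum_univ_four]
  have h3 := T3_sum B (a := a) (b := b) (l := l) hPQ hθ z f
  have h4 : (2 : ℝ) • (tens B P z θ c f : V a b l n) - Ts B P Q 3 (tens B P z θ c f) -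
      Tt B P Q 3 (tens B P z θ c f) = (2 - 2 * Real.cos θ) • tens B P z θ c f := by
    rw [sub_sub, h3, ← sub_smul]
  rw [h4, Ts0_tens, Tt0_tens, Ts1_tens, Tt1_tens, Ts2_tens, Tt2_tens]
  funext v α
  simp only [Pi.add_apply, Pi.sub_apply, Pi.smul_apply, smul_eq_mul, tens, Kb]
  ring

lemma dvc_vv (hPQ : TwPair N (zeta N ^ k) P Q) (z : ℂ) (θ : ℝ) (c : ℕ)
    (f : ZMod a × ZMod b → ℝ) : dvc B P Q (vv B P z θ c f : V1 a b l n) = 0 := by
  rw [dvc_apply, Fin.sum_univ_four, cm_vv, cm_vv' B z θ c f (i := 0) (by decide),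
    cm_vv' B z θ c f (i := 1) (by decide), cm_vv' B z θ c f (i := 3) (by decide), map_zero,
    map_zero, map_zero, As_apply, Tt2_tens, sub_self]
  simp

/-- the solution of the linear equation -/
lemma La_vv (hPQ : TwPair N (zeta N ^ k) P Q) {c : ℕ} {θ : ℝ}
    (hθ : Complex.exp (Complex.I * θ * l) = (zeta N ^ k) ^ c) (z : ℂ)
    {f g : ZMod a × ZMod b → ℝ} (hg : Kb (2 - 2 * Real.cos θ) g = f) (i : Fin 4) :
    La B P Q (cm i (vv B P z θ c g : V1 a b l n)) = cm i (vv B P z θ c f) := by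
  by_cases hi : i = 2
  · subst hi
    rw [cm_vv, cm_vv, La_tens B hPQ hθ, hg]
  · rw [cm_vv' B z θ c g hi, cm_vv' B z θ c f hi, map_zero]

variable (P) in
/-- the square of the norm of the fibre function -/
def h2 (l : ℕ) [NeZero l] (z : ℂ) (θ : ℝ) (c : ℕ) : ℝ :=
  ∑ q : ZMod l, ∑ p : ZMod l, ∑ α, hh B P z θ c q α * hh B P z θ c q α

lemma ip_vv2 (z : ℂ) (θ : ℝ) (c : ℕ) (f g : ZMod a × ZMod b → ℝ) :
    ipE (vv B P z θ c f : V1 a b l n) (vv B P z θ c g) = h2 B P l z θ c * ∑ u, f u * g u := by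
  rw [ip_vv, Finset.mul_sum]
  refine Finset.sum_congr rfl fun u _ => ?_
  unfold h2
  rw [Finset.sum_mul, Finset.mul_sum]
  refine Finset.sum_congr rfl fun q _ => ?_
  rw [Finset.sum_mul, Finset.mul_sum]
  refine Finset.sum_congr rfl fun p _ => ?_
  rw [Finset.sum_mul, Finset.mul_sum]
  refine Finset.sum_congr rfl fun α _ => ?_
  show f u * (hh B P z θ c q α * (if (2 : Fin 4) = 2 then g u * hh B P z θ c q α else 0)) = _
  rw [if_pos rfl]
  ring

/-- the norm is positive for one of the phases -/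
lemma h2_pos (hPQ : TwPair N (zeta N ^ k) P Q) {c : ℕ} (hc0 : c ≠ 0)
    (hc : (zeta N ^ k) ^ c ≠ 1) (l : ℕ) [NeZero l] (θ : ℝ) :
    ∃ z : ℂ, 0 < h2 B P l z θ c := by
  have hnn : ∀ z, 0 ≤ h2 B P l z θ c := fun z => Finset.sum_nonneg fun q _ =>
    Finset.sum_nonneg fun p _ => Finset.sum_nonneg fun α _ => mul_self_nonneg _
  by_contra hcon
  push Not at hcon
  have hz : ∀ z, hh B P z θ c (1 : ZMod l) = 0 := by
    intro z
    have h1 : h2 B P l z θ c = 0 := le_antisymm (hcon z) (hnn z)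
    unfold h2 at h1
    have h3 := (Finset.sum_eq_zero_iff_of_nonneg fun q _ =>
      Finset.sum_nonneg fun p _ => Finset.sum_nonneg fun α _ =>
        mul_self_nonneg (hh B P z θ c q α)).1 h1 1 (Finset.mem_univ _)
    have h4 := (Finset.sum_eq_zero_iff_of_nonneg fun p _ =>
      Finset.sum_nonneg fun α _ => mul_self_nonneg (hh B P z θ c (1 : ZMod l) α)).1 h3
        (0 : ZMod l) (Finset.mem_univ _)
    funext α
    have h5 := (Finset.sum_eq_zero_iff_of_nonneg fun α _ =>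
      mul_self_nonneg (hh B P z θ c (1 : ZMod l) α)).1 h4 α (Finset.mem_univ _)
    exact mul_self_eq_zero.1 h5
  have e1 : ∀ z : ℂ, hh B P z θ c (1 : ZMod l) = kap B ((z * c) • mt P ^ c) := by
    intro z
    rw [hh_hw]
    unfold hw ph
    rw [sub_self, ZMod.val_zero]
    simp
  have e2 := hz 1
  have e3 := hz Complex.I
  rw [e1, one_mul] at e2
  rw [e1, mul_smul] at e3
  have h5 : trace ((c : ℂ) • mt P ^ c) = 0 := by
    rw [trace_smul, trP hPQ hc, smul_zero]
  have h6 := kap_zero B h5 e2 e3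
  have h7 : (c : ℂ) ≠ 0 := by exact_mod_cast hc0
  have h8 : mt P ^ c = 0 := by
    rcases smul_eq_zero.1 h6 with h | h
    · exact absurd h h7
    · exact h
  have h9 : mt (P ^ c) * (mt (P ^ c))ᴴ = 1 := rhoG_unit (P ^ c)
  rw [mt_pow', h8, zero_mul] at h9
  have h10 := congrFun (congrFun h9 0) 0
  simp at h10

end

end Pool.Agent.Run7.h630.R2
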