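import Mathlib
import Pool.Agent.Run7.h630.R2.Eig

/-!
# Green's functions on the base torus
-/

open Matrix Filter
open scoped Topology

namespace Pool.Agent.Run7.h630.R2

set_option linter.unusedSectionVars false
set_option linter.unusedVariables false

noncomputable section

variable {a b : ℕ} [NeZero a] [NeZero b] {x0 : ℝ}

/-- the operator on a circle -/
def K1 (x0 : ℝ) (g : ZMod a → ℝ) : ZMod a → ℝ := fun t => (2 + x0) * g t - g (t + 1) - g (t - 1)

/-- the minimum principle on a circle -/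
lemma K1_min (hx : 0 < x0) {g : ZMod a → ℝ} (h : ∀ t, 0 ≤ K1 x0 g t) (t : ZMod a) : 0 ≤ g t := by
  obtain ⟨t0, ht0⟩ := Finite.exists_min g
  have h1 := h t0
  unfold K1 at h1
  have h2 := ht0 (t0 + 1)
  have h3 := ht0 (t0 - 1)
  have h4 : 0 ≤ g t0 := by
    have : 0 ≤ x0 * g t0 := by linarith
    exact nonneg_of_mul_nonneg_right this hx
  exact h4.trans (ht0 t)

/-- the minimum principle on the torus -/
lemma Kb_min (hx : 0 < x0) {g : ZMod a × ZMod b → ℝ} (h : ∀ t, 0 ≤ Kb x0 g t)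
    (t : ZMod a × ZMod b) : 0 ≤ g t := by
  obtain ⟨t0, ht0⟩ := Finite.exists_min g
  have h1 := h t0
  unfold Kb at h1
  have h2 := ht0 (t0 + (1, 0))
  have h3 := ht0 (t0 - (1, 0))
  have h5 := ht0 (t0 + (0, 1))
  have h6 := ht0 (t0 - (0, 1))
  have h4 : 0 ≤ g t0 := by
    have : 0 ≤ x0 * g t0 := by linarith
    exact nonneg_of_mul_nonneg_right this hx
  exact h4.trans (ht0 t)

lemma K1_sub (f g : ZMod a → ℝ) (t : ZMod a) : K1 x0 (fun t => f t - g t) t = K1 x0 f t - K1 x0 g t := by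
  unfold K1; ring

lemma K1_cmul (c : ℝ) (g : ZMod a → ℝ) (t : ZMod a) : K1 x0 (fun t => c * g t) t = c * K1 x0 g t := by
  unfold K1; ring

lemma K1_le (hx : 0 < x0) {f g : ZMod a → ℝ} (h : ∀ t, K1 x0 f t ≤ K1 x0 g t) (t : ZMod a) :
    f t ≤ g t := by
  have h1 := K1_min hx (g := fun t => g t - f t) (fun t => by
    rw [K1_sub]; linarith [h t]) t
  linarith

lemma K1_inj (hx : 0 < x0) {f g : ZMod a → ℝ} (h : ∀ t, K1 x0 f t = K1 x0 g t) : f = g := by
  funext t
  exact le_antisymm (K1_le hx (fun t => (h t).le) t) (K1_le hx (fun t => (h t).ge) t)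

/-- the operator on the torus as a linear map -/
def KbL (x0 : ℝ) : (ZMod a × ZMod b → ℝ) →ₗ[ℝ] (ZMod a × ZMod b → ℝ) where
  toFun := Kb x0
  map_add' := by intro f g; funext u; unfold Kb; simp only [Pi.add_apply]; ring
  map_smul' := by
    intro c f; funext u; unfold Kb; simp only [Pi.smul_apply, smul_eq_mul, RingHom.id_apply]; ring

lemma Kb_surj (hx : 0 < x0) (f : ZMod a × ZMod b → ℝ) : ∃ g, Kb x0 g = f := by
  have h1 : Function.Injective (KbL (a := a) (b := b) x0) := by
    rw [← LinearMap.ker_eq_bot, LinearMap.ker_eq_bot']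
    intro g hg
    have h2 : ∀ u, Kb x0 g u = 0 := fun u => congrFun hg u
    have h3 := Kb_min hx (g := g) fun u => (h2 u).ge
    have h4 := Kb_min hx (g := fun u => -g u) fun u => by
      have : Kb x0 (fun u => -g u) u = -Kb x0 g u := by unfold Kb; ring
      rw [this, h2 u, neg_zero]
    funext u
    exact le_antisymm (by simpa using h4 u) (h3 u)
  exact LinearMap.injective_iff_surjective.1 h1 f

lemma sum_shift1 {M : Type*} [AddCommMonoid M] (F : ZMod b → M) :
    ∑ y, F (y + 1) = ∑ y, F y := Equiv.sum_comp (Equiv.addRight (1 : ZMod b)) F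

lemma sum_shift2 {M : Type*} [AddCommMonoid M] (F : ZMod b → M) :
    ∑ y, F (y - 1) = ∑ y, F y := Equiv.sum_comp (Equiv.subRight (1 : ZMod b)) F

/-- the sum over the second coordinate -/
lemma Kb_sum2 (g : ZMod a × ZMod b → ℝ) (t : ZMod a) :
    ∑ y, Kb x0 g (t, y) = K1 x0 (fun t => ∑ y, g (t, y)) t := by
  unfold Kb K1
  simp only [Finset.sum_sub_distrib, ← Finset.mul_sum]
  have h1 : ∑ y : ZMod b, g ((t, y) + (0, 1)) = ∑ y, g (t, y) := by
    rw [← sum_shift1 (fun y => g (t, y))]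
    refine Finset.sum_congr rfl fun y _ => ?_
    rw [Prod.mk_add_mk, add_zero]
  have h2 : ∑ y : ZMod b, g ((t, y) - (0, 1)) = ∑ y, g (t, y) := by
    rw [← sum_shift2 (fun y => g (t, y))]
    refine Finset.sum_congr rfl fun y _ => ?_
    rw [Prod.mk_sub_mk, sub_zero]
  have h3 : ∑ y : ZMod b, g ((t, y) + (1, 0)) = ∑ y, g (t + 1, y) := by
    refine Finset.sum_congr rfl fun y _ => ?_
    rw [Prod.mk_add_mk, add_zero]
  have h4 : ∑ y : ZMod b, g ((t, y) - (1, 0)) = ∑ y, g (t - 1, y) := by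
    refine Finset.sum_congr rfl fun y _ => ?_
    rw [Prod.mk_sub_mk, sub_zero]
  rw [h1, h2, h3, h4]
  ring

/-- the sum over the first coordinate -/
lemma Kb_sum1 (g : ZMod a × ZMod b → ℝ) (y : ZMod b) :
    ∑ t, Kb x0 g (t, y) = K1 x0 (fun y => ∑ t, g (t, y)) y := by
  unfold Kb K1
  simp only [Finset.sum_sub_distrib, ← Finset.mul_sum]
  have h1 : ∑ t : ZMod a, g ((t, y) + (0, 1)) = ∑ t, g (t, y + 1) := by
    refine Finset.sum_congr rfl fun t _ => ?_
    rw [Prod.mk_add_mk, add_zero]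
  have h2 : ∑ t : ZMod a, g ((t, y) - (0, 1)) = ∑ t, g (t, y - 1) := by
    refine Finset.sum_congr rfl fun t _ => ?_
    rw [Prod.mk_sub_mk, sub_zero]
  have h3 : ∑ t : ZMod a, g ((t, y) + (1, 0)) = ∑ t, g (t, y) := by
    rw [← sum_shift1 (fun t => g (t, y))]
    refine Finset.sum_congr rfl fun t _ => ?_
    rw [Prod.mk_add_mk, add_zero]
  have h4 : ∑ t : ZMod a, g ((t, y) - (1, 0)) = ∑ t, g (t, y) := by
    rw [← sum_shift2 (fun t => g (t, y))]
    refine Finset.sum_congr rfl fun t _ => ?_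
    rw [Prod.mk_sub_mk, sub_zero]
  rw [h1, h2, h3, h4]
  ring

/-! ### one circle -/

lemma val_add_one (t : ZMod a) : (t + 1).val = if t.val + 1 = a then 0 else t.val + 1 := by
  have h0 := ZMod.val_lt t
  have h1 : t + 1 = ((t.val + 1 : ℕ) : ZMod a) := by
    push_cast
    rw [ZMod.natCast_zmod_val]
  split_ifs with h
  · rw [h1, h, ZMod.natCast_self, ZMod.val_zero]
  · rw [h1, ZMod.val_natCast_of_lt (by omega)]

lemma val_sub_one (t : ZMod a) : (t - 1).val = if t.val = 0 then a - 1 else t.val - 1 := by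
  have h0 := ZMod.val_lt t
  split_ifs with h
  · have h1 : t - 1 = ((a - 1 : ℕ) : ZMod a) := by
      rw [Nat.cast_sub (by omega), ZMod.natCast_self, (ZMod.val_eq_zero t).1 h]
      simp
    rw [h1, ZMod.val_natCast_of_lt (by omega)]
  · have h1 : t - 1 = ((t.val - 1 : ℕ) : ZMod a) := by
      rw [Nat.cast_sub (by omega), ZMod.natCast_zmod_val]
      simp
    rw [h1, ZMod.val_natCast_of_lt (by omega)]

/-- the explicit Green's function -/
def gg (a : ℕ) [NeZero a] (r : ℝ) (t : ZMod a) : ℝ :=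
  (r ^ t.val + r ^ (a - t.val)) / ((1 / r - r) * (1 - r ^ a))

lemma K1_gg (ha : 2 ≤ a) {r : ℝ} (hr0 : 0 < r) (hr1 : r < 1) (hr : r + 1 / r = 2 + x0)
    (t : ZMod a) : K1 x0 (gg a r) t = if t = 0 then 1 else 0 := by
  have hD1 : 1 / r - r ≠ 0 := by
    have : 1 < 1 / r := by rw [lt_div_iff₀ hr0]; linarith
    linarith
  have hD2 : 1 - r ^ a ≠ 0 := by
    have : r ^ a < 1 := pow_lt_one₀ hr0.le hr1 (by omega)
    linarith
  have h0 := ZMod.val_lt t
  unfold K1 gg
  rw [← hr, val_add_one, val_sub_one]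
  by_cases ht : t = 0
  · subst ht
    simp only [ZMod.val_zero, zero_add, if_true]
    rw [if_neg (by omega)]
    obtain ⟨m, rfl⟩ : ∃ m, a = m + 2 := ⟨a - 2, by omega⟩
    simp only [Nat.sub_zero, pow_zero, pow_one]
    rw [show m + 2 - 1 = m + 1 by omega, show m + 2 - (m + 1) = 1 by omega]
    rw [mul_div_assoc', ← sub_div, ← sub_div, div_eq_one_iff_eq (mul_ne_zero hD1 hD2)]
    field_simp
    ring
  · have hv : t.val ≠ 0 := fun h => ht ((ZMod.val_eq_zero t).1 h)
    rw [if_neg hv, if_neg ht]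
    obtain ⟨v, hvv⟩ : ∃ v, t.val = v + 1 := ⟨t.val - 1, by omega⟩
    rw [hvv] at h0 ⊢
    obtain ⟨m, hm⟩ : ∃ m, a = v + 1 + 1 + m := ⟨a - (v + 2), by omega⟩
    have e1 : a - (v + 1) = m + 1 := by omega
    have e2 : a - v = m + 2 := by omega
    by_cases hlast : v + 1 + 1 = a
    · have hm0 : m = 0 := by omega
      subst hm0
      rw [if_pos hlast, show v + 1 - 1 = v by omega, e1, e2]
      rw [mul_div_assoc', ← sub_div, ← sub_div, div_eq_zero_iff]
      left
      rw [Nat.sub_zero, ← hlast]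
      field_simp
      ring
    · rw [if_neg hlast, show v + 1 - 1 = v by omega, e1, e2, show a - (v + 1 + 1) = m by omega]
      rw [mul_div_assoc', ← sub_div, ← sub_div, div_eq_zero_iff]
      left
      field_simp
      ring

/-! ### windows -/

/-- the supersolution -/
def hs (r : ℝ) (w : ℕ) (y : ZMod b) : ℝ := r ^ (min y.val w + 1) + r ^ (w - min y.val w)

lemma hs_le {r : ℝ} (hr0 : 0 < r) (hr1 : r < 1) (w : ℕ) (y : ZMod b) :
    hs r w y ≤ 1 + r ^ (w + 1) := by
  unfold hs
  obtain ⟨j, hj⟩ : ∃ j, j = min y.val w := ⟨_, rfl⟩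
  have hjw : j ≤ w := by rw [hj]; exact min_le_right _ _
  rw [← hj]
  have h1 : r ^ (j + 1) ≤ 1 := pow_le_one₀ hr0.le hr1.le
  have h2 : r ^ (w - j) ≤ 1 := pow_le_one₀ hr0.le hr1.le
  have h3 : r ^ (w + 1) = r ^ (j + 1) * r ^ (w - j) := by
    rw [← pow_add]; congr 1; omega
  rw [h3]
  nlinarith

lemma K1_hs (hx : 0 < x0) {r : ℝ} (hr0 : 0 < r) (hr1 : r < 1) (hr : r + 1 / r = 2 + x0) {w : ℕ}
    (hwb : w < b) (y : ZMod b) : x0 * (if y.val < w then 0 else 1) ≤ K1 x0 (hs r w) y := by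
  have h0 := ZMod.val_lt y
  split_ifs with h
  · rw [mul_zero]
    refine le_of_eq ?_
    unfold K1 hs
    rw [← hr, val_add_one, val_sub_one, if_neg (show ¬ (y.val + 1 = b) by omega)]
    obtain ⟨v, hv⟩ : ∃ v, v = y.val := ⟨_, rfl⟩
    rw [← hv] at h h0 ⊢
    rw [min_eq_left h.le, min_eq_left (show v + 1 ≤ w by omega)]
    obtain ⟨m, rfl⟩ : ∃ m, w = v + 1 + m := ⟨w - (v + 1), by omega⟩
    rw [show v + 1 + m - v = m + 1 by omega, show v + 1 + m - (v + 1) = m by omega]
    by_cases hv0 : v = 0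
    · rw [if_pos hv0, min_eq_right (show v + 1 + m ≤ b - 1 by omega), Nat.sub_self]
      subst hv0
      field_simp
      ring
    · rw [if_neg hv0, min_eq_left (show v - 1 ≤ v + 1 + m by omega)]
      obtain ⟨u, rfl⟩ : ∃ u, v = u + 1 := ⟨v - 1, by omega⟩
      rw [show u + 1 - 1 = u by omega, show u + 1 + 1 + m - u = m + 2 by omega]
      field_simp
      ring
  · rw [mul_one]
    have e1 : hs r w y = 1 + r ^ (w + 1) := by
      unfold hs
      rw [min_eq_right (show w ≤ y.val by omega), Nat.sub_self, pow_zero, add_comm]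
    have e2 := hs_le hr0 hr1 w (y + 1)
    have e3 := hs_le hr0 hr1 w (y - 1)
    unfold K1
    rw [e1]
    have h4 : 0 < r ^ (w + 1) := by positivity
    nlinarith

/-- the sum of a function of the value -/
lemma sum_zmod_val (F : ℕ → ℝ) : ∑ y : ZMod b, F y.val = ∑ i ∈ Finset.range b, F i := by
  refine Finset.sum_bij (fun (x : ZMod b) _ => x.val)
      (fun x _ => Finset.mem_range.2 (ZMod.val_lt x))
      (fun x _ y _ h => ZMod.val_injective b h)
      (fun i hi => ⟨(i : ZMod b), Finset.mem_univ _,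
        ZMod.val_natCast_of_lt (Finset.mem_range.1 hi)⟩)
      (fun x _ => rfl)

/-- the mass outside of the window -/
lemma out_window (hx : 0 < x0) {r : ℝ} (hr0 : 0 < r) (hr1 : r < 1) (hr : r + 1 / r = 2 + x0)
    {w : ℕ} (hwb : w < b) {ψ : ZMod b → ℝ} (hψ : ∀ y, K1 x0 ψ y = if y.val < w then 1 else 0) :
    ∑ y : ZMod b, (if y.val < w then 0 else ψ y) ≤ 2 / (x0 * (1 - r)) := by
  have hr1' : 0 < 1 - r := by linarith
  -- the comparison
  have h1 : ∀ y, 1 / x0 - ψ y ≤ 1 / x0 * hs r w y := by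
    refine K1_le (x0 := x0) hx fun y => ?_
    rw [K1_sub, hψ, K1_cmul]
    have e1 : K1 x0 (fun _ : ZMod b => 1 / x0) y = 1 := by
      unfold K1
      field_simp
      ring
    rw [e1]
    have h2 := K1_hs hx hr0 hr1 hr hwb y
    have h3 := mul_le_mul_of_nonneg_left h2 (show 0 ≤ 1 / x0 by positivity)
    rw [← mul_assoc, one_div_mul_cancel hx.ne', one_mul] at h3
    refine le_trans (le_of_eq ?_) h3
    split_ifs <;> simp
  -- the total mass
  have h2 : ∑ y, ψ y = w / x0 := by
    have e1 : ∑ y, K1 x0 ψ y = x0 * ∑ y, ψ y := by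
      unfold K1
      rw [Finset.sum_sub_distrib, Finset.sum_sub_distrib, sum_shift1, sum_shift2, ← Finset.mul_sum]
      ring
    have e2 : ∑ y, K1 x0 ψ y = w := by
      simp only [hψ]
      rw [sum_zmod_val (fun i => if i < w then (1 : ℝ) else 0), Finset.sum_ite,
        Finset.sum_const_zero, add_zero, Finset.sum_const, nsmul_eq_mul, mul_one]
      congr 1
      have : Finset.filter (fun i => i < w) (Finset.range b) = Finset.range w := by
        ext i
        simp only [Finset.mem_filter, Finset.mem_range]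
        omega
      rw [this, Finset.card_range]
    rw [e2] at e1
    rw [eq_div_iff hx.ne', mul_comm]
    exact e1.symm
  have h3 : ∑ y : ZMod b, (if y.val < w then 0 else ψ y) =
      ∑ y, ψ y - ∑ y : ZMod b, (if y.val < w then ψ y else 0) := by
    rw [← Finset.sum_sub_distrib]
    refine Finset.sum_congr rfl fun y _ => ?_
    split_ifs <;> ring
  have h4 : ∑ y : ZMod b, (if y.val < w then (1 / x0 - 1 / x0 * hs r w y) else 0) ≤
      ∑ y : ZMod b, (if y.val < w then ψ y else 0) := by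
    refine Finset.sum_le_sum fun y _ => ?_
    split_ifs
    · linarith [h1 y]
    · exact le_rfl
  have h5 : ∑ y : ZMod b, (if y.val < w then (1 / x0 - 1 / x0 * hs r w y) else 0) =
      ∑ i ∈ Finset.range w, (1 / x0 - 1 / x0 * (r ^ (i + 1) + r ^ (w - i))) := by
    have e1 := sum_zmod_val (b := b) (fun i => if i < w then
      (1 / x0 - 1 / x0 * (r ^ (min i w + 1) + r ^ (w - min i w))) else 0)
    have e2 : ∑ y : ZMod b, (if y.val < w then (1 / x0 - 1 / x0 * hs r w y) else 0) =
      ∑ i ∈ Finset.range b, (if i < w then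
      (1 / x0 - 1 / x0 * (r ^ (min i w + 1) + r ^ (w - min i w))) else 0) := e1
    rw [e2, ← Finset.sum_filter]
    have : Finset.filter (fun i => i < w) (Finset.range b) = Finset.range w := by
      ext i
      simp only [Finset.mem_filter, Finset.mem_range]
      omega
    rw [this]
    refine Finset.sum_congr rfl fun i hi => ?_
    rw [min_eq_left (Finset.mem_range.1 hi).le]
  have h6 : ∑ i ∈ Finset.range w, (r ^ (i + 1) + r ^ (w - i)) ≤ 2 / (1 - r) := by
    rw [Finset.sum_add_distrib]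
    have g1 : ∑ i ∈ Finset.range w, r ^ (i + 1) ≤ 1 / (1 - r) := by
      have g2 : ∑ i ∈ Finset.range w, r ^ (i + 1) = r * ∑ i ∈ Finset.range w, r ^ i := by
        rw [Finset.mul_sum]
        exact Finset.sum_congr rfl fun i _ => by rw [pow_succ']
      have g3 : (∑ i ∈ Finset.range w, r ^ i) * (1 - r) = 1 - r ^ w := by
        have := geom_sum_mul_neg r w
        exact this
      have g4 : 0 < r ^ w := by positivity
      rw [g2, le_div_iff₀ hr1', mul_assoc, g3]
      nlinarith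
    have g2 : ∑ i ∈ Finset.range w, r ^ (w - i) = ∑ i ∈ Finset.range w, r ^ (i + 1) := by
      rw [← Finset.sum_range_reflect]
      refine Finset.sum_congr rfl fun i hi => ?_
      congr 1
      have := Finset.mem_range.1 hi
      omega
    rw [g2]
    calc _ ≤ 1 / (1 - r) + 1 / (1 - r) := add_le_add g1 g1
      _ = _ := by ring
  rw [h5, Finset.sum_sub_distrib, Finset.sum_const, Finset.card_range, nsmul_eq_mul,
    ← Finset.mul_sum] at h4
  rw [h3, h2]
  have h7 := mul_le_mul_of_nonneg_left h6 (show 0 ≤ 1 / x0 by positivity)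
  have e9 : (2 : ℝ) / (x0 * (1 - r)) = 1 / x0 * (2 / (1 - r)) := by
    field_simp
  rw [e9]
  have e10 : (w : ℝ) / x0 = w * (1 / x0) := by ring
  rw [e10]
  linarith

end

end Pool.Agent.Run7.h630.R2
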