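import Mathlib
import Pool.Agent.Run7.h630.R2.Grn

/-!
# The covariance of the windows
-/

open Matrix Filter
open scoped Topology

namespace Pool.Agent.Run7.h630.R2

set_option linter.unusedSectionVars false
set_option linter.unusedVariables false

noncomputable section

variable {a b : ℕ} [NeZero a] [NeZero b] {x0 : ℝ}

/-- the operator is symmetric -/
lemma Kb_symm (f g : ZMod a × ZMod b → ℝ) : ∑ u, f u * Kb x0 g u = ∑ u, Kb x0 f u * g u := by
  have h1 : ∀ (v : ZMod a × ZMod b) (f g : ZMod a × ZMod b → ℝ),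
      ∑ u, f u * g (u + v) = ∑ u, f (u - v) * g u := by
    intro v f g
    rw [← Equiv.sum_comp (Equiv.addRight v) (fun u => f (u - v) * g u)]
    simp
  have h2 : ∀ (v : ZMod a × ZMod b) (f g : ZMod a × ZMod b → ℝ),
      ∑ u, f u * g (u - v) = ∑ u, f (u + v) * g u := by
    intro v f g
    have := h1 (-v) f g
    simpa [sub_eq_add_neg] using this
  unfold Kb
  have e1 : ∀ u, f u * ((4 + x0) * g u - g (u + (1, 0)) - g (u - (1, 0)) - g (u + (0, 1)) -
      g (u - (0, 1))) = (4 + x0) * (f u * g u) - f u * g (u + (1, 0)) - f u * g (u - (1, 0)) -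
      f u * g (u + (0, 1)) - f u * g (u - (0, 1)) := fun u => by ring
  have e2 : ∀ u, ((4 + x0) * f u - f (u + (1, 0)) - f (u - (1, 0)) - f (u + (0, 1)) -
      f (u - (0, 1))) * g u = (4 + x0) * (f u * g u) - f (u + (1, 0)) * g u -
      f (u - (1, 0)) * g u - f (u + (0, 1)) * g u - f (u - (0, 1)) * g u := fun u => by ring
  simp only [e1, e2, Finset.sum_sub_distrib]
  rw [h1 (1, 0), h2 (1, 0), h1 (0, 1), h2 (0, 1)]
  ring

/-- translations -/
lemma Kb_shift (g : ZMod a × ZMod b → ℝ) (v u : ZMod a × ZMod b) :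
    Kb x0 (fun u => g (u - v)) u = Kb x0 g (u - v) := by
  unfold Kb
  have e1 : u + (1, 0) - v = u - v + (1, 0) := by abel
  have e2 : u - (1, 0) - v = u - v - (1, 0) := by abel
  have e3 : u + (0, 1) - v = u - v + (0, 1) := by abel
  have e4 : u - (0, 1) - v = u - v - (0, 1) := by abel
  simp only [e1, e2, e3, e4]

/-- the window at the time `τ` -/
def fw (w : ℕ) (τ : ZMod a) (u : ZMod a × ZMod b) : ℝ :=
  if u.1 = τ ∧ u.2.val < w then 1 / Real.sqrt w else 0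

lemma fw_shift (w : ℕ) (τ : ZMod a) (u : ZMod a × ZMod b) : fw w τ u = fw w 0 (u - (τ, 0)) := by
  unfold fw
  have h1 : (u - (τ, 0)).1 = 0 ↔ u.1 = τ := by
    rw [Prod.fst_sub, sub_eq_zero]
  have h2 : (u - (τ, 0)).2 = u.2 := by
    rw [Prod.snd_sub, sub_zero]
  simp only [h1, h2]

/-- the solution for the window -/
def Gw (x0 : ℝ) (w : ℕ) : ZMod a × ZMod b → ℝ :=
  if h : 0 < x0 then (Kb_surj h (fw (a := a) (b := b) w 0)).choose else 0

lemma Gw_spec (hx : 0 < x0) (w : ℕ) : Kb x0 (Gw (a := a) (b := b) x0 w) = fw w 0 := by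
  unfold Gw
  rw [dif_pos hx]
  exact (Kb_surj hx (fw (a := a) (b := b) w 0)).choose_spec

/-- the solution for the window at the time `τ` -/
def Gt (x0 : ℝ) (w : ℕ) (τ : ZMod a) (u : ZMod a × ZMod b) : ℝ := Gw x0 w (u - (τ, 0))

lemma Gt_spec (hx : 0 < x0) (w : ℕ) (τ : ZMod a) :
    Kb x0 (Gt (a := a) (b := b) x0 w τ) = fw w τ := by
  funext u
  have h1 := Kb_shift (x0 := x0) (Gw (a := a) (b := b) x0 w) (τ, 0) u
  rw [fw_shift, ← Gw_spec hx w]
  exact h1

/-- the covariance -/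
def Cv (a b : ℕ) [NeZero a] [NeZero b] (x0 : ℝ) (w : ℕ) (τ : ZMod a) : ℝ :=
  ∑ u : ZMod a × ZMod b, fw w τ u * Gw x0 w u

lemma Cv_symm (hx : 0 < x0) (w : ℕ) (τ : ZMod a) :
    ∑ u : ZMod a × ZMod b, fw w 0 u * Gt x0 w τ u = Cv a b x0 w τ := by
  have h1 := Kb_symm (x0 := x0) (Gt (a := a) (b := b) x0 w τ) (Gw x0 w)
  rw [Gt_spec hx, Gw_spec hx] at h1
  unfold Cv
  rw [← h1]
  exact Finset.sum_congr rfl fun u _ => mul_comm _ _

lemma Cv_tt (hx : 0 < x0) (w : ℕ) (τ : ZMod a) :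
    ∑ u : ZMod a × ZMod b, fw w τ u * Gt x0 w τ u = Cv a b x0 w 0 := by
  unfold Cv
  rw [← Equiv.sum_comp (Equiv.subRight ((τ, 0) : ZMod a × ZMod b))
    (fun u => fw w 0 u * Gw x0 w u)]
  refine Finset.sum_congr rfl fun u _ => ?_
  rw [fw_shift]
  rfl

/-- the quadratic form of the sums and the differences -/
lemma Cv_pm (hx : 0 < x0) (w : ℕ) (τ : ZMod a) (σ : ℝ) (hσ : σ * σ = 1) :
    ∑ u : ZMod a × ZMod b, (fw w 0 u + σ * fw w τ u) * (Gt x0 w 0 u + σ * Gt x0 w τ u) =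
      2 * (Cv a b x0 w 0 + σ * Cv a b x0 w τ) := by
  have h1 := Cv_symm (b := b) hx w τ
  have h2 := Cv_tt (b := b) hx w τ
  have h3 := Cv_tt (b := b) hx w (0 : ZMod a)
  have h4 : ∑ u : ZMod a × ZMod b, fw w τ u * Gt x0 w 0 u = Cv a b x0 w τ := by
    unfold Cv Gt
    refine Finset.sum_congr rfl fun u _ => ?_
    have : u - ((0 : ZMod a), (0 : ZMod b)) = u := by
      rw [show ((0 : ZMod a), (0 : ZMod b)) = (0 : ZMod a × ZMod b) from rfl, sub_zero]
    rw [this]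
  have e1 : ∀ u : ZMod a × ZMod b, (fw w 0 u + σ * fw w τ u) * (Gt x0 w 0 u + σ * Gt x0 w τ u) =
      fw w 0 u * Gt x0 w 0 u + σ * (fw w 0 u * Gt x0 w τ u) + σ * (fw w τ u * Gt x0 w 0 u) +
        (σ * σ) * (fw w τ u * Gt x0 w τ u) := fun u => by ring
  simp only [e1, Finset.sum_add_distrib, ← Finset.mul_sum, hσ]
  rw [h1, h2, h3, h4]
  ring

/-- the bounds of the covariance -/
lemma Cv_bounds (hx : 0 < x0) (ha : 2 ≤ a) {r : ℝ} (hr0 : 0 < r) (hr1 : r < 1)
    (hr : r + 1 / r = 2 + x0) {w : ℕ} (hw : 1 ≤ w) (hwb : w < b) (τ : ZMod a) :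
    gg a r τ - 2 / (x0 * (1 - r)) / w ≤ Cv a b x0 w τ ∧ Cv a b x0 w τ ≤ gg a r τ ∧
      0 ≤ Cv a b x0 w τ := by
  have hw0 : (0 : ℝ) < w := by exact_mod_cast hw
  have hsq : 0 < Real.sqrt w := Real.sqrt_pos.2 hw0
  have hss : Real.sqrt w * Real.sqrt w = w := Real.mul_self_sqrt hw0.le
  -- the unnormalised solution
  obtain ⟨ψ, hψ⟩ : ∃ ψ : ZMod a × ZMod b → ℝ, ψ = fun u => Real.sqrt w * Gw x0 w u := ⟨_, rfl⟩
  have hG : ∀ u, Kb x0 (Gw (a := a) (b := b) x0 w) u = fw w 0 u := fun u =>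
    congrFun (Gw_spec hx w) u
  have hK : ∀ u, Kb x0 ψ u = if u.1 = 0 ∧ u.2.val < w then 1 else 0 := by
    intro u
    have e1 : Kb x0 ψ u = Real.sqrt w * Kb x0 (Gw x0 w) u := by
      rw [hψ]; unfold Kb; ring
    rw [e1, hG]
    unfold fw
    split_ifs
    · rw [mul_one_div_cancel hsq.ne']
    · rw [mul_zero]
  have hψ0 : ∀ u, 0 ≤ ψ u := Kb_min hx fun u => by
    rw [hK]; split_ifs <;> norm_num
  -- the covariance
  have hC : Cv a b x0 w τ = 1 / w * ∑ y : ZMod b, if y.val < w then ψ (τ, y) else 0 := by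
    unfold Cv
    rw [Fintype.sum_prod_type, Fintype.sum_eq_single τ]
    · rw [Finset.mul_sum]
      refine Finset.sum_congr rfl fun y _ => ?_
      unfold fw
      simp only [true_and]
      split_ifs
      · rw [hψ]
        beta_reduce
        have : 1 / (w : ℝ) * (Real.sqrt w * Gw x0 w (τ, y)) =
          (Real.sqrt w / w) * Gw x0 w (τ, y) := by ring
        rw [this]
        congr 1
        rw [div_eq_div_iff hsq.ne' hw0.ne', one_mul, hss]
      · simp
    · intro t ht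
      refine Finset.sum_eq_zero fun y _ => ?_
      unfold fw
      rw [if_neg (fun h => ht h.1), zero_mul]
  -- the sum over the second coordinate
  have hs2 : (fun t => ∑ y, ψ (t, y)) = fun t => w * gg a r t := by
    refine K1_inj hx fun t => ?_
    rw [← Kb_sum2, K1_cmul, K1_gg ha hr0 hr1 hr]
    simp only [hK]
    by_cases ht : t = 0
    · simp only [ht, true_and, if_true, mul_one]
      rw [sum_zmod_val (fun i => if i < w then (1 : ℝ) else 0), Finset.sum_ite,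
        Finset.sum_const_zero, add_zero, Finset.sum_const, nsmul_eq_mul, mul_one]
      congr 1
      have : Finset.filter (fun i => i < w) (Finset.range b) = Finset.range w := by
        ext i
        simp only [Finset.mem_filter, Finset.mem_range]
        omega
      rw [this, Finset.card_range]
    · simp [ht]
  have hs2' := congrFun hs2 τ
  -- the sum over the first coordinate
  have hs1 : ∀ y, K1 x0 (fun y => ∑ t, ψ (t, y)) y = if y.val < w then 1 else 0 := by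
    intro y
    rw [← Kb_sum1]
    simp only [hK]
    rw [Fintype.sum_eq_single (0 : ZMod a)]
    · simp
    · intro t ht
      simp [ht]
  have hout := out_window hx hr0 hr1 hr hwb hs1
  have hle : ∑ y : ZMod b, (if y.val < w then 0 else ψ (τ, y)) ≤
      ∑ y : ZMod b, (if y.val < w then 0 else ∑ t, ψ (t, y)) := by
    refine Finset.sum_le_sum fun y _ => ?_
    split_ifs
    · exact le_rfl
    · exact Finset.single_le_sum (f := fun t => ψ (t, y)) (fun t _ => hψ0 (t, y))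
        (Finset.mem_univ τ)
  have hsplit : ∑ y : ZMod b, (if y.val < w then ψ (τ, y) else 0) = ∑ y, ψ (τ, y) -
      ∑ y : ZMod b, (if y.val < w then 0 else ψ (τ, y)) := by
    rw [← Finset.sum_sub_distrib]
    refine Finset.sum_congr rfl fun y _ => ?_
    split_ifs <;> ring
  have hnn : 0 ≤ ∑ y : ZMod b, (if y.val < w then 0 else ψ (τ, y)) := by
    refine Finset.sum_nonneg fun y _ => ?_
    split_ifs
    · exact le_rfl
    · exact hψ0 _
  have hnn2 : 0 ≤ ∑ y : ZMod b, (if y.val < w then ψ (τ, y) else 0) := by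
    refine Finset.sum_nonneg fun y _ => ?_
    split_ifs
    · exact hψ0 _
    · exact le_rfl
  refine ⟨?_, ?_, ?_⟩
  · rw [hC, hsplit, hs2']
    have e1 : 1 / (w : ℝ) * (w * gg a r τ - ∑ y : ZMod b, (if y.val < w then 0 else ψ (τ, y))) =
        gg a r τ - (∑ y : ZMod b, (if y.val < w then 0 else ψ (τ, y))) / w := by
      field_simp
    rw [e1]
    exact sub_le_sub_left (div_le_div_of_nonneg_right (hle.trans hout) hw0.le) _
  · rw [hC, hsplit, hs2']
    have e1 : 1 / (w : ℝ) * (w * gg a r τ - ∑ y : ZMod b, (if y.val < w then 0 else ψ (τ, y))) =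
        gg a r τ - (∑ y : ZMod b, (if y.val < w then 0 else ψ (τ, y))) / w := by
      field_simp
    rw [e1]
    have := div_nonneg hnn hw0.le
    linarith
  · rw [hC]
    positivity

/-! ### the choice of the parameters -/

lemma gg_lim {r : ℝ} (hr0 : 0 < r) (hr1 : r < 1) (j : ℕ) {η : ℝ} (hη : 0 < η) :
    ∃ a1 : ℕ, ∀ a : ℕ, a1 ≤ a → ∀ [NeZero a], |gg a r ((j : ℕ) : ZMod a) - r ^ j / (1 / r - r)| ≤ η := by
  have h1 : Tendsto (fun a : ℕ => (r ^ j + r ^ a / r ^ j) / ((1 / r - r) * (1 - r ^ a))) atTop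
      (𝓝 ((r ^ j + 0 / r ^ j) / ((1 / r - r) * (1 - 0)))) := by
    have h2 : Tendsto (fun a : ℕ => r ^ a) atTop (𝓝 0) :=
      tendsto_pow_atTop_nhds_zero_of_lt_one hr0.le hr1
    have hD1 : 1 / r - r ≠ 0 := by
      have : 1 < 1 / r := by rw [lt_div_iff₀ hr0]; linarith
      linarith
    exact ((h2.div_const _).const_add _).div ((h2.const_sub 1).const_mul _) (by
      rw [sub_zero, mul_one]; exact hD1)
  rw [zero_div, add_zero, sub_zero, mul_one] at h1
  obtain ⟨a1, ha1⟩ := eventually_atTop.1 (Metric.tendsto_nhds.1 h1 η hη)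
  refine ⟨max a1 (j + 1), fun a ha _ => ?_⟩
  have h3 := ha1 a ((le_max_left _ _).trans ha)
  have h4 : j < a := by have := (le_max_right a1 (j + 1)).trans ha; omega
  rw [Real.dist_eq] at h3
  have e1 : gg a r ((j : ℕ) : ZMod a) = (r ^ j + r ^ a / r ^ j) / ((1 / r - r) * (1 - r ^ a)) := by
    unfold gg
    rw [ZMod.val_natCast_of_lt h4]
    congr 2
    rw [eq_div_iff (by positivity), ← pow_add]
    congr 1
    omega
  rw [e1]
  exact h3.le

lemma sinh_le_mul {x : ℝ} (hx : 0 ≤ x) : Real.sinh x ≤ x * Real.cosh x := by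
  have h1 : MonotoneOn (fun x : ℝ => x * Real.cosh x - Real.sinh x) (Set.Ici 0) := by
    refine monotoneOn_of_deriv_nonneg (convex_Ici 0) ?_ ?_ ?_
    · exact (continuous_id.mul Real.continuous_cosh).sub Real.continuous_sinh |>.continuousOn
    · exact ((differentiable_id.mul Real.differentiable_cosh).sub
        Real.differentiable_sinh).differentiableOn
    · intro y hy
      rw [interior_Ici, Set.mem_Ioi] at hy
      have h2 : HasDerivAt (fun x : ℝ => x * Real.cosh x - Real.sinh x)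
          (1 * Real.cosh y + y * Real.sinh y - Real.cosh y) y :=
        ((hasDerivAt_id y).mul (Real.hasDerivAt_cosh y)).sub (Real.hasDerivAt_sinh y)
      rw [h2.deriv]
      have := Real.sinh_pos_iff.2 hy
      nlinarith
  have h2 := h1 (Set.self_mem_Ici) (Set.mem_Ici.2 hx) hx
  simp only [zero_mul, Real.sinh_zero, sub_zero] at h2
  linarith

/-- the choice of the window and of the strength -/
lemma choice {r : ℝ} (hr0 : 0 < r) (hr1 : r < 1) {h K ρ : ℝ} (hh : 0 < h) (hK : 0 ≤ K)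
    (hρ0 : 0 < ρ) (hρ : ρ < r ^ 2) : ∃ (w : ℕ) (s c0 : ℝ) (a1 : ℕ), 1 ≤ w ∧ 0 < s ∧ 0 < c0 ∧
      ∀ a : ℕ, a1 ≤ a → ∀ [NeZero a], ∀ C0 C2 C4 : ℝ,
        gg a r ((2 : ℕ) : ZMod a) - K / w ≤ C2 → C2 ≤ gg a r ((2 : ℕ) : ZMod a) →
        gg a r ((4 : ℕ) : ZMod a) - K / w ≤ C4 → 0 ≤ C0 → C0 ≤ gg a r ((0 : ℕ) : ZMod a) →
        ρ * (Real.exp (-(s ^ 2 * h * C0)) * Real.sinh (s ^ 2 * h * C2)) ≤
          Real.exp (-(s ^ 2 * h * C0)) * Real.sinh (s ^ 2 * h * C4) ∧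
        c0 ≤ Real.exp (-(s ^ 2 * h * C0)) * Real.sinh (s ^ 2 * h * C2) := by
  obtain ⟨D, hD⟩ : ∃ D, D = 1 / r - r := ⟨_, rfl⟩
  have hD0 : 0 < D := by
    have : 1 < 1 / r := by rw [lt_div_iff₀ hr0]; linarith
    linarith
  have hr2 : 0 < r ^ 2 := by positivity
  have hr21 : r ^ 2 < 1 := pow_lt_one₀ hr0.le hr1 two_ne_zero
  obtain ⟨ε, hε⟩ : ∃ ε, ε = (r ^ 2 - ρ) / 2 := ⟨_, rfl⟩
  have hε0 : 0 < ε := by rw [hε]; linarith
  have hε1 : ε < 1 := by rw [hε]; linarith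
  -- the errors
  obtain ⟨η, hη⟩ : ∃ η, η = ε * (r ^ 2 / D) / 6 := ⟨_, rfl⟩
  have hη0 : 0 < η := by rw [hη]; positivity
  obtain ⟨a2, ha2⟩ := gg_lim hr0 hr1 2 hη0
  obtain ⟨a4, ha4⟩ := gg_lim hr0 hr1 4 hη0
  obtain ⟨a0, ha0⟩ := gg_lim hr0 hr1 0 (show 0 < 1 / D by positivity)
  obtain ⟨w, hw⟩ : ∃ w : ℕ, 1 ≤ w ∧ K / w ≤ η := by
    obtain ⟨w, hw⟩ := exists_nat_ge (K / η)
    refine ⟨w + 1, by omega, ?_⟩
    push_cast
    rw [div_le_iff₀ (by positivity)]
    rw [div_le_iff₀ hη0] at hw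
    nlinarith
  -- the strength
  obtain ⟨δ, hδ⟩ : ∃ δ, δ = ε / r ^ 2 := ⟨_, rfl⟩
  have hδ0 : 0 < δ := by rw [hδ]; positivity
  obtain ⟨x1, hx1, hcosh⟩ : ∃ x1 : ℝ, 0 < x1 ∧ ∀ x, 0 ≤ x → x ≤ x1 → Real.cosh x ≤ 1 + δ := by
    have h1 : Tendsto Real.cosh (𝓝 0) (𝓝 (Real.cosh 0)) := Real.continuous_cosh.tendsto 0
    rw [Real.cosh_zero] at h1
    obtain ⟨x1, hx1, h2⟩ := Metric.tendsto_nhds_nhds.1 h1 δ hδ0
    refine ⟨x1 / 2, by positivity, fun x hx hx' => ?_⟩
    have h3 := h2 (x := x) (by rw [Real.dist_eq, sub_zero, abs_of_nonneg hx]; linarith)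
    rw [Real.dist_eq] at h3
    linarith [(abs_lt.1 h3).2]
  obtain ⟨s, hs⟩ : ∃ s, s = Real.sqrt (x1 * D / (2 * h)) := ⟨_, rfl⟩
  have hs0 : 0 < s := by rw [hs]; positivity
  have hs2 : s ^ 2 * h = x1 * D / 2 := by
    rw [hs, Real.sq_sqrt (by positivity)]
    field_simp
  obtain ⟨σ, hσ⟩ : ∃ σ, σ = s ^ 2 * h := ⟨_, rfl⟩
  have hσ0 : 0 < σ := by rw [hσ]; positivity
  refine ⟨w, s, Real.exp (-(σ * (2 / D))) * (σ * (r ^ 2 / D / 2)), max a0 (max a2 a4), hw.1, hs0,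
    by positivity, fun a ha _ C0 C2 C4 h1 h2 h3 h4 h5 => ?_⟩
  have b0 := ha0 a ((le_max_left _ _).trans ha)
  have b2 := ha2 a (((le_max_left _ _).trans (le_max_right _ _)).trans ha)
  have b4 := ha4 a (((le_max_right _ _).trans (le_max_right _ _)).trans ha)
  rw [← hD] at b0 b2 b4
  rw [← hσ]
  have hw2 := hw.2
  rw [pow_zero] at b0
  obtain ⟨b0l, b0u⟩ := abs_le.1 b0
  obtain ⟨b2l, b2u⟩ := abs_le.1 b2
  obtain ⟨b4l, b4u⟩ := abs_le.1 b4
  have hηr : η ≤ r ^ 2 / D / 6 := by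
    rw [hη]
    have : 0 < r ^ 2 / D := by positivity
    nlinarith
  have hrD : 0 < r ^ 2 / D := by positivity
  have hC2l : r ^ 2 / D / 2 ≤ C2 := by linarith
  have hC2u : C2 ≤ r ^ 2 / D + η := h2.trans (by linarith)
  have hC4l : r ^ 4 / D - 2 * η ≤ C4 := by linarith
  have hC0u : C0 ≤ 2 / D := by
    have : (2 : ℝ) / D = 1 / D + 1 / D := by ring
    exact h5.trans (by linarith)
  have hC2p : 0 < C2 := by linarith
  have hC2u2 : σ * C2 ≤ x1 := by
    have h6 : C2 ≤ 2 / D := by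
      have h7 : r ^ 2 / D ≤ 1 / D := div_le_div_of_nonneg_right hr21.le hD0.le
      have : (2 : ℝ) / D = 1 / D + 1 / D := by ring
      linarith
    calc σ * C2 ≤ σ * (2 / D) := mul_le_mul_of_nonneg_left h6 hσ0.le
      _ = x1 := by rw [hσ, hs2]; field_simp
  have he : 0 < Real.exp (-(σ * C0)) := Real.exp_pos _
  have hsh2 : Real.sinh (σ * C2) ≤ σ * C2 * (1 + δ) := by
    refine (sinh_le_mul (by positivity)).trans ?_
    exact mul_le_mul_of_nonneg_left (hcosh _ (by positivity) hC2u2) (by positivity)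
  have hsh2' : σ * C2 ≤ Real.sinh (σ * C2) := Real.self_le_sinh_iff.2 (by positivity)
  have hC4p : 0 ≤ C4 := by
    have h8 : r ^ 4 / D = r ^ 2 * (r ^ 2 / D) := by ring
    have h9 : η ≤ (r ^ 2 * (r ^ 2 / D)) / 12 := by
      rw [hη]
      have : ε ≤ r ^ 2 / 2 := by rw [hε]; linarith
      nlinarith
    have h10 : 0 < r ^ 2 * (r ^ 2 / D) := by positivity
    linarith
  have hsh4 : σ * C4 ≤ Real.sinh (σ * C4) := Real.self_le_sinh_iff.2 (by positivity)
  refine ⟨?_, ?_⟩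
  · have key : ρ * (C2 * (1 + δ)) ≤ C4 := by
      have h6 : ρ * (1 + δ) ≤ r ^ 2 - ε := by
        have h7 : ρ * δ ≤ ε := by
          rw [hδ, mul_div_assoc', div_le_iff₀ hr2]
          nlinarith
        have h8 : ρ = r ^ 2 - 2 * ε := by rw [hε]; ring
        nlinarith
      have h7 : ρ * (C2 * (1 + δ)) ≤ (r ^ 2 - ε) * C2 := by
        calc ρ * (C2 * (1 + δ)) = ρ * (1 + δ) * C2 := by ring
          _ ≤ (r ^ 2 - ε) * C2 := mul_le_mul_of_nonneg_right h6 hC2p.le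
      have h8 : r ^ 4 / D = r ^ 2 * (r ^ 2 / D) := by ring
      have h9 : 0 < r ^ 2 - ε := by rw [hε]; linarith
      have h10 : (r ^ 2 - ε) * C2 ≤ (r ^ 2 - ε) * (r ^ 2 / D + η) :=
        mul_le_mul_of_nonneg_left hC2u h9.le
      have h11 : 6 * η = ε * (r ^ 2 / D) := by rw [hη]; ring
      nlinarith
    calc ρ * (Real.exp (-(σ * C0)) * Real.sinh (σ * C2)) ≤
        ρ * (Real.exp (-(σ * C0)) * (σ * C2 * (1 + δ))) := by gcongr
      _ = Real.exp (-(σ * C0)) * (σ * (ρ * (C2 * (1 + δ)))) := by ring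
      _ ≤ Real.exp (-(σ * C0)) * (σ * C4) := by gcongr
      _ ≤ _ := by gcongr
  · have h6 : Real.exp (-(σ * (2 / D))) ≤ Real.exp (-(σ * C0)) := by
      apply Real.exp_le_exp.2
      have := mul_le_mul_of_nonneg_left hC0u hσ0.le
      linarith
    calc _ ≤ Real.exp (-(σ * C0)) * (σ * C2) := by gcongr
      _ ≤ _ := by gcongr

end

end Pool.Agent.Run7.h630.R2
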