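import Mathlib
import Pool.Agent.Run7.h630.R2.Cov
import Pool.Agent.Run7.h897.TW.Fib2

/-!
# The correlations of the fibre loops at weak coupling
-/

open MeasureTheory Matrix Filter Pool.Agent.N991.MK Pool.Agent.N989.MK
open scoped Matrix.Norms.Frobenius Topology
open Pool.Agent.H906R3.YM Pool.Agent.W793.YM Pool.Agent.TH618.YM Pool.Agent.N984.TW
open Pool.Agent.N109.T3 (nz gs)
open Pool.Agent.Run7.h871.LG (adc nab ipE gt emE qE Dat Wt)

namespace Pool.Agent.Run7.h630.R2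

set_option linter.unusedSectionVars false
set_option linter.unusedVariables false

noncomputable section

variable {N n : ℕ} [NeZero N] {a b l : ℕ} [NeZero a] [NeZero b] [NeZero l]

/-- the window observable -/
def Xw (z : ℂ) (θ : ℝ) (c w : ℕ) (U : Lk a b l → SU N) (τ : ZMod a) : ℝ :=
  (∑ i ∈ Finset.range w, Xo z θ c U (τ, (i : ZMod b))) / Real.sqrt w

/-- the bounded window observable -/
def Fo (z : ℂ) (θ : ℝ) (c w : ℕ) (s β : ℝ) (U : Lk a b l → SU N) (τ : ZMod a) : ℝ :=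
  Real.sin (s * (Real.sqrt β * Xw z θ c w U τ))

lemma fw_sum {w : ℕ} (hwb : w ≤ b) (τ : ZMod a) (F : ZMod a × ZMod b → ℝ) :
    ∑ u, fw w τ u * F u = (∑ i ∈ Finset.range w, F (τ, (i : ZMod b))) / Real.sqrt w := by
  rw [Fintype.sum_prod_type, Fintype.sum_eq_single τ]
  · rw [Finset.sum_div]
    have h1 : ∑ y : ZMod b, fw w τ (τ, y) * F (τ, y) =
        ∑ i ∈ Finset.range b, if i < w then F (τ, (i : ZMod b)) / Real.sqrt w else 0 := by
      rw [← sum_zmod_val (b := b) (fun i => if i < w then F (τ, (i : ZMod b)) / Real.sqrt w else 0)]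
      refine Finset.sum_congr rfl fun y _ => ?_
      unfold fw
      rw [ZMod.natCast_zmod_val]
      simp only [true_and]
      split_ifs
      · ring
      · ring
    rw [h1, ← Finset.sum_filter]
    have : Finset.filter (fun i => i < w) (Finset.range b) = Finset.range w := by
      ext i
      simp only [Finset.mem_filter, Finset.mem_range]
      omega
    rw [this]
  · intro t ht
    refine Finset.sum_eq_zero fun y _ => ?_
    unfold fw
    rw [if_neg (fun h => ht h.1), zero_mul]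

lemma Xw_cont (z : ℂ) (θ : ℝ) (c w : ℕ) (τ : ZMod a) :
    Continuous fun U : Lk a b l → SU N => Xw z θ c w U τ := by
  unfold Xw
  exact (continuous_finsetSum _ fun i _ => Xo_cont z θ c _).div_const _

lemma Fo_cont (z : ℂ) (θ : ℝ) (c w : ℕ) (s β : ℝ) (τ : ZMod a) :
    Continuous fun U : Lk a b l → SU N => Fo z θ c w s β U τ := by
  unfold Fo
  exact Real.continuous_sin.comp (continuous_const.mul (continuous_const.mul (Xw_cont z θ c w τ)))

lemma Fo_gt (z : ℂ) (θ : ℝ) (c w : ℕ) (s β : ℝ) (τ : ZMod a) (g : Si a b l → SU N)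
    (U : Lk a b l → SU N) : Fo z θ c w s β (gt sr tgt g U) τ = Fo z θ c w s β U τ := by
  unfold Fo Xw
  simp only [Xo_gt]

lemma Fo_cz (z' : ℂ) (θ : ℝ) (c w : ℕ) (s β : ℝ) (τ : ZMod a) (z : Zf N a b)
    (U : Lk a b l → SU N) : Fo z' θ c w s β (cz N a b l z * U) τ = Fo z' θ c w s β U τ := by
  unfold Fo Xw
  simp only [Xo_cz]

section lim

variable (B : Frame (SU N) n) {P Q : SU N} {k : ℕ}

lemma Xw_lim {c : ℕ} (htr : trace (mt P ^ c) = 0) (z : ℂ) (θ : ℝ) {w : ℕ} (hwb : w ≤ b)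
    (τ : ZMod a) (x0 : V1 a b l n) :
    Tendsto (fun p : ℝ × V1 a b l n => Real.sqrt p.1 *
      Xw z θ c w (emE B (SU_closed N) p.1 p.2 * U0 P Q) τ) (atTop ×ˢ 𝓝 x0)
      (𝓝 (ipE (vv B P z θ c (fw w τ)) x0)) := by
  rw [ip_vv, fw_sum hwb]
  unfold Xw
  have h1 := (tendsto_finsetSum (Finset.range w) fun i _ =>
    Xo_lim B (P := P) (Q := Q) (L := (atTop : Filter ℝ) ×ˢ 𝓝 x0) (H := Prod.fst) (X := Prod.snd)
      tendsto_fst tendsto_snd htr z θ (τ, (i : ZMod b))).div_const (Real.sqrt w)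
  refine h1.congr fun p => ?_
  rw [← Finset.mul_sum, mul_div_assoc]

lemma ipE_cont2 (v : V1 a b l n) : Continuous fun x : V1 a b l n => ipE v x := by
  unfold Pool.Agent.Run7.h871.LG.ipE
  fun_prop

lemma ip_nab (hPQ : TwPair N (zeta N ^ k) P Q) (z : ℂ) (θ : ℝ) (c : ℕ)
    (f : ZMod a × ZMod b → ℝ) (x : V1 a b l n) (g : V a b l n) :
    ipE (vv B P z θ c f) (x + nab B sr tgt (U0 P Q) g) = ipE (vv B P z θ c f) x := by
  rw [ipE_add_right, ← dvc_adj, dvc_vv B hPQ]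
  simp [Pool.Agent.Run7.h871.LG.ipE]

lemma Fo_obs1 (hPQ : TwPair N (zeta N ^ k) P Q) {c : ℕ} (htr : trace (mt P ^ c) = 0) (z : ℂ)
    (θ : ℝ) {w : ℕ} (hwb : w ≤ b) (s : ℝ) (τ : ZMod a) :
    Obs B P Q (fun β (U : Lk a b l → SU N) => Fo z θ c w s β U τ)
      (fun x => Real.sin (s * ipE (vv B P z θ c (fw w τ)) x)) where
  cont := fun β => Fo_cont z θ c w s β τ
  bd := fun β U => Real.abs_sin_le_one _
  invg := fun β g U => Fo_gt z θ c w s β τ g U
  invc := fun β z' U => Fo_cz z θ c w s β τ z' U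
  contg := Real.continuous_sin.comp (continuous_const.mul (ipE_cont2 _))
  bdg := fun x => Real.abs_sin_le_one _
  invG := fun x g => by rw [ip_nab B hPQ]
  lim := fun x0 => (Real.continuous_sin.tendsto _).comp
    ((Xw_lim B htr z θ hwb τ x0).const_mul s)

lemma Fo_obs2 (hPQ : TwPair N (zeta N ^ k) P Q) {c : ℕ} (htr : trace (mt P ^ c) = 0) (z : ℂ)
    (θ : ℝ) {w : ℕ} (hwb : w ≤ b) (s : ℝ) (τ : ZMod a) :
    Obs B P Q (fun β (U : Lk a b l → SU N) => Fo z θ c w s β U 0 * Fo z θ c w s β U τ)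
      (fun x => Real.sin (s * ipE (vv B P z θ c (fw w 0)) x) *
        Real.sin (s * ipE (vv B P z θ c (fw w τ)) x)) where
  cont := fun β => (Fo_cont z θ c w s β 0).mul (Fo_cont z θ c w s β τ)
  bd := fun β U => by
    rw [abs_mul]
    exact mul_le_one₀ (Real.abs_sin_le_one _) (abs_nonneg _) (Real.abs_sin_le_one _)
  invg := fun β g U => by rw [Fo_gt, Fo_gt]
  invc := fun β z' U => by rw [Fo_cz, Fo_cz]
  contg := (Real.continuous_sin.comp (continuous_const.mul (ipE_cont2 _))).mul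
    (Real.continuous_sin.comp (continuous_const.mul (ipE_cont2 _)))
  bdg := fun x => by
    rw [abs_mul]
    exact mul_le_one₀ (Real.abs_sin_le_one _) (abs_nonneg _) (Real.abs_sin_le_one _)
  invG := fun x g => by rw [ip_nab B hPQ, ip_nab B hPQ]
  lim := fun x0 => ((Real.continuous_sin.tendsto _).comp
    ((Xw_lim B htr z θ hwb 0 x0).const_mul s)).mul
    ((Real.continuous_sin.tendsto _).comp ((Xw_lim B htr z θ hwb τ x0).const_mul s))

lemma gE1_odd {g : V1 a b l n → ℝ} (hg : ∀ x, g (-x) = -g x) : gE1 B P Q g = 0 := by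
  unfold gE1
  have h1 : ∀ x : V1 a b l n, gw B P Q (-x) = gw B P Q x := by
    intro x
    unfold gw
    rw [map_neg, map_neg, qE_ip, qE_ip, qE_ip, qE_ip, ipE_neg_left, ipE_neg_right, neg_neg,
      ipE_neg_left, ipE_neg_right, neg_neg]
  have h2 : ∫ x, g x * gw B P Q x = -∫ x, g x * gw B P Q x := by
    conv_lhs => rw [← integral_neg_eq_self]
    rw [← integral_neg]
    refine integral_congr_ae (Eventually.of_forall fun x => ?_)
    beta_reduce
    rw [hg, h1, neg_mul]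
  have h3 : ∫ x, g x * gw B P Q x = 0 := by linarith
  rw [h3, zero_div]

lemma gE1_sin (s : ℝ) (v : V1 a b l n) : gE1 B P Q (fun x => Real.sin (s * ipE v x)) = 0 := by
  refine gE1_odd B fun x => ?_
  rw [ipE_neg_right, mul_neg, Real.sin_neg]

/-- the characteristic function of the windows -/
lemma gE1_cos (hPQ : TwPair N (zeta N ^ k) P Q)
    (hdet : 0 < LinearMap.det (La B P Q : V a b l n →ₗ[ℝ] _)) {c : ℕ} {θ : ℝ}
    (hθ : Complex.exp (Complex.I * θ * l) = (zeta N ^ k) ^ c) (z : ℂ)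
    (hx : 0 < 2 - 2 * Real.cos θ) (w : ℕ) (s : ℝ) (τ : ZMod a) {σ : ℝ} (hσ : σ * σ = 1) :
    gE1 B P Q (fun x : V1 a b l n => Real.cos (s * ipE (vv B P z θ c (fw w 0)) x +
      σ * (s * ipE (vv B P z θ c (fw w τ)) x))) =
    Real.exp (-(s ^ 2 * h2 B P l z θ c * (Cv a b (2 - 2 * Real.cos θ) w 0 +
      σ * Cv a b (2 - 2 * Real.cos θ) w τ))) := by
  obtain ⟨X0, hX0⟩ : ∃ X0, X0 = 2 - 2 * Real.cos θ := ⟨_, rfl⟩
  rw [← hX0] at hx ⊢
  obtain ⟨f, hf⟩ : ∃ f : ZMod a × ZMod b → ℝ, f = fun u => s * (fw w 0 u + σ * fw w τ u) :=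
    ⟨_, rfl⟩
  obtain ⟨g, hg⟩ : ∃ g : ZMod a × ZMod b → ℝ, g = fun u => s * (Gt X0 w 0 u + σ * Gt X0 w τ u) :=
    ⟨_, rfl⟩
  have h1 : Kb X0 g = f := by
    have e0 := Gt_spec (a := a) (b := b) hx w 0
    have e1 := Gt_spec (a := a) (b := b) hx w τ
    funext u
    have e2 : Kb X0 g u = s * (Kb X0 (Gt X0 w 0) u + σ * Kb X0 (Gt X0 w τ) u) := by
      rw [hg]; unfold Kb; ring
    rw [e2, e0, e1, hf]
  have h2' := chf B hPQ hdet (v := vv B P z θ c f) (y := vv B P z θ c g)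
    (fun i => La_vv B hPQ hθ z (by rw [← hX0]; exact h1) i)
  have h3 : ∀ x : V1 a b l n, ipE (vv B P z θ c f) x = s * ipE (vv B P z θ c (fw w 0)) x +
      σ * (s * ipE (vv B P z θ c (fw w τ)) x) := by
    intro x
    rw [ip_vv, ip_vv, ip_vv, hf, Finset.mul_sum, Finset.mul_sum, Finset.mul_sum,
      ← Finset.sum_add_distrib]
    refine Finset.sum_congr rfl fun u _ => ?_
    ring
  simp only [h3] at h2'
  rw [← h3] at h2'
  rw [h2']
  congr 2
  rw [ip_vv2, hf, hg]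
  have h4 := Cv_pm (a := a) (b := b) hx w τ σ hσ
  have h5 : ∑ u : ZMod a × ZMod b, s * (fw w 0 u + σ * fw w τ u) *
      (s * (Gt X0 w 0 u + σ * Gt X0 w τ u)) = s ^ 2 * (2 * (Cv a b X0 w 0 + σ * Cv a b X0 w τ)) := by
    rw [← h4, Finset.mul_sum]
    refine Finset.sum_congr rfl fun u _ => ?_
    ring
  rw [h5]
  ring

/-- the correlation in the limit -/
lemma gE1_ss (hPQ : TwPair N (zeta N ^ k) P Q)
    (hdet : 0 < LinearMap.det (La B P Q : V a b l n →ₗ[ℝ] _)) {c : ℕ} {θ : ℝ}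
    (hθ : Complex.exp (Complex.I * θ * l) = (zeta N ^ k) ^ c) (z : ℂ)
    (hx : 0 < 2 - 2 * Real.cos θ) (w : ℕ) (s : ℝ) (τ : ZMod a) :
    gE1 B P Q (fun x : V1 a b l n => Real.sin (s * ipE (vv B P z θ c (fw w 0)) x) *
        Real.sin (s * ipE (vv B P z θ c (fw w τ)) x)) =
    Real.exp (-(s ^ 2 * h2 B P l z θ c * Cv a b (2 - 2 * Real.cos θ) w 0)) *
      Real.sinh (s ^ 2 * h2 B P l z θ c * Cv a b (2 - 2 * Real.cos θ) w τ) := by
  have h1 := gE1_cos B (a := a) (b := b) hPQ hdet hθ z hx w s τ (σ := 1) (by norm_num)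
  have h2 := gE1_cos B (a := a) (b := b) hPQ hdet hθ z hx w s τ (σ := -1) (by norm_num)
  have hi := gw_int (a := a) (b := b) (l := l) B hPQ hdet
  have hint : ∀ σ : ℝ, Integrable fun x : V1 a b l n =>
      Real.cos (s * ipE (vv B P z θ c (fw w 0)) x + σ * (s * ipE (vv B P z θ c (fw w τ)) x)) *
        gw B P Q x := by
    intro σ
    refine hi.bdd_mul (Continuous.aestronglyMeasurable ?_) (Eventually.of_forall fun x => by
      rw [Real.norm_eq_abs]; exact Real.abs_cos_le_one _)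
    have c1 := ipE_cont2 (vv B P z θ c (fw w 0) : V1 a b l n)
    have c2 := ipE_cont2 (vv B P z θ c (fw w τ) : V1 a b l n)
    fun_prop
  have e1 : ∫ x : V1 a b l n, Real.sin (s * ipE (vv B P z θ c (fw w 0)) x) *
        Real.sin (s * ipE (vv B P z θ c (fw w τ)) x) * gw B P Q x =
      1 / 2 * ((∫ x : V1 a b l n, Real.cos (s * ipE (vv B P z θ c (fw w 0)) x +
        (-1) * (s * ipE (vv B P z θ c (fw w τ)) x)) * gw B P Q x) -
        ∫ x : V1 a b l n, Real.cos (s * ipE (vv B P z θ c (fw w 0)) x +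
        1 * (s * ipE (vv B P z θ c (fw w τ)) x)) * gw B P Q x) := by
    rw [← integral_sub (hint (-1)) (hint 1), ← integral_const_mul]
    refine integral_congr_ae (Eventually.of_forall fun x => ?_)
    beta_reduce
    rw [neg_one_mul, one_mul, ← sub_eq_add_neg, Real.cos_sub, Real.cos_add]
    ring
  unfold gE1 at h1 h2 ⊢
  rw [e1, mul_div_assoc, sub_div, h1, h2, Real.sinh_eq]
  have a1 : -(s ^ 2 * R2.h2 B P l z θ c * (Cv a b (2 - 2 * Real.cos θ) w 0 +
      -1 * Cv a b (2 - 2 * Real.cos θ) w τ)) =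
      -(s ^ 2 * R2.h2 B P l z θ c * Cv a b (2 - 2 * Real.cos θ) w 0) +
        s ^ 2 * R2.h2 B P l z θ c * Cv a b (2 - 2 * Real.cos θ) w τ := by ring
  have a2 : -(s ^ 2 * R2.h2 B P l z θ c * (Cv a b (2 - 2 * Real.cos θ) w 0 +
      1 * Cv a b (2 - 2 * Real.cos θ) w τ)) =
      -(s ^ 2 * R2.h2 B P l z θ c * Cv a b (2 - 2 * Real.cos θ) w 0) +
        -(s ^ 2 * R2.h2 B P l z θ c * Cv a b (2 - 2 * Real.cos θ) w τ) := by ring
  rw [a1, a2, Real.exp_add, Real.exp_add]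
  ring

end lim

/-- the parameters of the minimal momentum -/
lemma theta_spec (hN : 2 ≤ N) (l : ℕ) [NeZero l] {θ : ℝ} (hθ : θ = 2 * Real.pi / (l * N)) :
    Complex.exp (Complex.I * θ * l) = zeta N ∧
      2 - 2 * Real.cos θ = 4 * Real.sin (Real.pi / (l * N)) ^ 2 ∧ 0 < 2 - 2 * Real.cos θ ∧
      Real.exp (-Pool.Agent.Run7.h897.TW.rate l N) +
        1 / Real.exp (-Pool.Agent.Run7.h897.TW.rate l N) = 2 + (2 - 2 * Real.cos θ) := by
  have hl : (l : ℂ) ≠ 0 := by exact_mod_cast NeZero.ne l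
  have hNc : (N : ℂ) ≠ 0 := by exact_mod_cast NeZero.ne N
  have hs := Pool.Agent.Run7.h897.TW.sin_pos' hN l
  have e1 : 2 - 2 * Real.cos θ = 4 * Real.sin (Real.pi / (l * N)) ^ 2 := by
    have : θ = 2 * (Real.pi / (l * N)) := by rw [hθ]; ring
    rw [this, Real.cos_two_mul, Real.cos_sq']
    ring
  have e2 : 0 < 2 - 2 * Real.cos θ := by rw [e1]; positivity
  refine ⟨?_, e1, e2, ?_⟩
  · unfold zeta
    congr 1
    rw [hθ]
    push_cast
    field_simp
  · have h1 := Pool.Agent.Run7.h897.TW.rt_sharp hs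
    rw [← e1] at h1
    have h2 := (rt_spec e2).2.1
    rw [h1] at h2
    exact h2

variable [MeasurableSpace (SU N)] [BorelSpace (SU N)] (μ : Measure (SU N)) [IsProbabilityMeasure μ]
  [μ.IsMulLeftInvariant] [μ.IsMulRightInvariant] [μ.IsInvInvariant] {P Q : SU N} {k : ℕ}

/-- **the correlations of the fibre loops at weak coupling** -/
theorem up (hN : 2 ≤ N) (l : ℕ) [NeZero l] (hPQ : TwPair N (zeta N ^ k) P Q) {c : ℕ}
    (hc : (zeta N ^ k) ^ c = zeta N) {ρ : ℝ} (hρ0 : 0 < ρ)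
    (hρ : ρ < Real.exp (-(2 * Pool.Agent.Run7.h897.TW.rate l N))) :
    ∃ (z : ℂ) (w : ℕ) (s c0 : ℝ) (a1 : ℕ), 1 ≤ w ∧ 0 < s ∧ 0 < c0 ∧
      ∀ (a b : ℕ) [NeZero a] [NeZero b], a1 ≤ a → a1 ≤ b → ∃ e2 e4 : ℝ,
        Tendsto (fun β : ℝ => Et μ k β (fun U : Lk a b l → SU N =>
          Fo z (2 * Real.pi / (l * N)) c w s β U 0)) atTop (𝓝 0) ∧
        Tendsto (fun β : ℝ => Et μ k β (fun U : Lk a b l → SU N =>
          Fo z (2 * Real.pi / (l * N)) c w s β U 0 *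
            Fo z (2 * Real.pi / (l * N)) c w s β U ((2 : ℕ) : ZMod a))) atTop (𝓝 e2) ∧
        Tendsto (fun β : ℝ => Et μ k β (fun U : Lk a b l → SU N =>
          Fo z (2 * Real.pi / (l * N)) c w s β U 0 *
            Fo z (2 * Real.pi / (l * N)) c w s β U ((4 : ℕ) : ZMod a))) atTop (𝓝 e4) ∧
        ρ * e2 ≤ e4 ∧ c0 ≤ e2 := by
  obtain ⟨n, ⟨B⟩⟩ := exists_frame (SU_closed N)
  obtain ⟨θ, hθ⟩ : ∃ θ : ℝ, θ = 2 * Real.pi / (l * N) := ⟨_, rfl⟩
  obtain ⟨t1, t2, t3, t4⟩ := theta_spec (N := N) hN l hθ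
  rw [← hθ]
  have hz1 : zeta N ≠ 1 := by
    intro h
    have := (Complex.isPrimitiveRoot_exp N (NeZero.ne N)).pow_eq_one_iff_dvd 1
    rw [pow_one] at this
    have h2 := this.1 h
    have := Nat.le_of_dvd one_pos h2
    omega
  have hc1 : (zeta N ^ k) ^ c ≠ 1 := by rw [hc]; exact hz1
  have hc0 : c ≠ 0 := by
    rintro rfl
    exact hc1 (pow_zero _)
  have htr := trP hPQ hc1
  obtain ⟨z, hz⟩ := h2_pos B hPQ hc0 hc1 l θ
  obtain ⟨r, hr⟩ : ∃ r, r = Real.exp (-Pool.Agent.Run7.h897.TW.rate l N) := ⟨_, rfl⟩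
  rw [← hr] at t4
  have hr0 : 0 < r := by rw [hr]; exact Real.exp_pos _
  have hrate : 0 < Pool.Agent.Run7.h897.TW.rate l N := by
    unfold Pool.Agent.Run7.h897.TW.rate
    have := Real.arsinh_pos_iff.2 (Pool.Agent.Run7.h897.TW.sin_pos' hN l)
    linarith
  have hr1 : r < 1 := by
    rw [hr, ← Real.exp_zero]
    exact Real.exp_lt_exp.2 (by linarith)
  have hρr : ρ < r ^ 2 := by
    rw [hr, ← Real.exp_nat_mul]
    refine hρ.trans_le (le_of_eq ?_)
    congr 1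
    push_cast
    ring
  obtain ⟨w, s, c0, a1, hw, hs, hc0', hch⟩ := choice hr0 hr1
    (K := 2 / ((2 - 2 * Real.cos θ) * (1 - r))) hz
    (div_nonneg zero_le_two (mul_nonneg t3.le (by linarith))) hρ0 hρr
  refine ⟨z, w, s, c0, max a1 (w + 5), hw, hs, hc0', fun a b _ _ ha hb => ?_⟩
  have ha1 : a1 ≤ a := (le_max_left _ _).trans ha
  have ha5 : w + 5 ≤ a := (le_max_right _ _).trans ha
  have hwb : w + 5 ≤ b := (le_max_right _ _).trans hb
  have : NeZero (2 * a) := ⟨by have := NeZero.ne a; omega⟩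
  have hdet := (Pool.Agent.Run7.h897.TW.det_sharp (n := n) B hN l hPQ a (2 * a) b rfl).1
  have hθc : Complex.exp (Complex.I * θ * l) = (zeta N ^ k) ^ c := by rw [t1, hc]
  obtain ⟨p1, p2, p3⟩ := Cv_bounds (a := a) (b := b) t3 (by omega) hr0 hr1 t4 hw (by omega) 0
  obtain ⟨q1, q2, q3⟩ := Cv_bounds (a := a) (b := b) t3 (by omega) hr0 hr1 t4 hw (by omega)
    ((2 : ℕ) : ZMod a)
  obtain ⟨r1, r2, r3⟩ := Cv_bounds (a := a) (b := b) t3 (by omega) hr0 hr1 t4 hw (by omega)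
    ((4 : ℕ) : ZMod a)
  have hfin := hch a ha1 (Cv a b (2 - 2 * Real.cos θ) w 0)
    (Cv a b (2 - 2 * Real.cos θ) w ((2 : ℕ) : ZMod a))
    (Cv a b (2 - 2 * Real.cos θ) w ((4 : ℕ) : ZMod a)) q1 q2 r1 p3 (by
      rw [Nat.cast_zero]; exact p2)
  have l0 := obs_lim B μ hPQ hdet (Fo_obs1 B hPQ htr z θ (a := a) (b := b) (w := w) (by omega) s 0)
  have l2 := obs_lim B μ hPQ hdet (Fo_obs2 B hPQ htr z θ (a := a) (b := b) (w := w) (by omega) s
    ((2 : ℕ) : ZMod a))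
  have l4 := obs_lim B μ hPQ hdet (Fo_obs2 B hPQ htr z θ (a := a) (b := b) (w := w) (by omega) s
    ((4 : ℕ) : ZMod a))
  rw [gE1_sin] at l0
  rw [gE1_ss B hPQ hdet hθc z t3] at l2 l4
  exact ⟨_, _, l0, l2, l4, hfin.1, hfin.2⟩

end

end Pool.Agent.Run7.h630.R2
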